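import Pool.Agent.Lib_MP_b5064f_lc.Defs

set_option autoImplicit false

/-!
# Trees given by parent functions
-/

namespace Pool.Agent.Spanner

open SimpleGraph

variable {V : Type}

/-- `x` and `y` have a common ancestor, with at most `l` steps in total. -/
def Near (p : V → V) (l : ℕ) (x y : V) : Prop := ∃ i j, i + j ≤ l ∧ p^[i] x = p^[j] y

theorem Near.symm {p : V → V} {l : ℕ} {x y : V} (h : Near p l x y) : Near p l y x := by
  obtain ⟨i, j, h1, h2⟩ := h
  exact ⟨j, i, by omega, h2.symm⟩

theorem Near.mono {p : V → V} {l l' : ℕ} {x y : V} (h : Near p l x y) (hl : l ≤ l') :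
    Near p l' x y := by
  obtain ⟨i, j, h1, h2⟩ := h
  exact ⟨i, j, by omega, h2⟩

theorem Near.refl (p : V → V) (l : ℕ) (x : V) : Near p l x x := ⟨0, 0, by omega, rfl⟩

/-- the vertex below -/
theorem Near.step {p : V → V} {l : ℕ} {x y : V} (h : Near p l (p x) y) : Near p (l + 1) x y := by
  obtain ⟨i, j, h1, h2⟩ := h
  exact ⟨i + 1, j, by omega, by rw [Function.iterate_succ_apply]; exact h2⟩

/-- `p` with the depth function `d` is the parent function of a rooted spanning tree of `G`. -/
structure IsParent (G : SimpleGraph V) (ρ : V) (p : V → V) (d : V → ℕ) : Prop where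
  root : p ρ = ρ
  adj : ∀ x, x ≠ ρ → G.Adj x (p x)
  depth : ∀ x, x ≠ ρ → d (p x) < d x

/-- the tree of a parent function -/
def treeOf (ρ : V) (p : V → V) : SimpleGraph V :=
  SimpleGraph.fromRel (fun x y => x ≠ ρ ∧ p x = y)

section

variable {G : SimpleGraph V} {ρ : V} {p : V → V} {d : V → ℕ}

theorem IsParent.ne (h : IsParent G ρ p d) {x : V} (hx : x ≠ ρ) : x ≠ p x := (h.adj x hx).ne

theorem IsParent.treeOf_adj (h : IsParent G ρ p d) {x : V} (hx : x ≠ ρ) :
    (treeOf ρ p).Adj x (p x) := by
  unfold treeOf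
  rw [SimpleGraph.fromRel_adj]
  exact ⟨h.ne hx, Or.inl ⟨hx, rfl⟩⟩

theorem IsParent.treeOf_le (h : IsParent G ρ p d) : treeOf ρ p ≤ G := by
  intro x y hxy
  unfold treeOf at hxy
  rw [SimpleGraph.fromRel_adj] at hxy
  rcases hxy.2 with ⟨h1, h2⟩ | ⟨h1, h2⟩
  · rw [← h2]; exact h.adj x h1
  · rw [← h2]; exact (h.adj y h1).symm

theorem IsParent.reach (h : IsParent G ρ p d) : ∀ n x, d x ≤ n → (treeOf ρ p).Reachable x ρ := by
  intro n
  induction n with
  | zero =>
    intro x hx
    by_cases hxr : x = ρ
    · rw [hxr]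
    · have := h.depth x hxr
      omega
  | succ n ih =>
    intro x hx
    by_cases hxr : x = ρ
    · rw [hxr]
    · have h1 := h.depth x hxr
      exact (h.treeOf_adj hxr).reachable.trans (ih _ (by omega))

theorem IsParent.treeOf_connected (h : IsParent G ρ p d) : (treeOf ρ p).Connected := by
  haveI : Nonempty V := ⟨ρ⟩
  refine ⟨fun x y => (h.reach _ x le_rfl).trans (h.reach _ y le_rfl).symm⟩

theorem IsParent.connected (h : IsParent G ρ p d) : G.Connected :=
  h.treeOf_connected.mono h.treeOf_le

/-- The tree of a parent function is a tree. -/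
theorem IsParent.isTree [Finite V] (h : IsParent G ρ p d) : (treeOf ρ p).IsTree := by
  classical
  haveI := Fintype.ofFinite V
  rw [SimpleGraph.isTree_iff_connected_and_card]
  refine ⟨h.treeOf_connected, ?_⟩
  apply le_antisymm
  · have h1 : (treeOf ρ p).edgeSet ⊆
        ((Finset.univ.filter (fun x : V => x ≠ ρ)).image (fun x => s(x, p x)) :
          Finset (Sym2 V)) := by
      intro e he
      induction e using Sym2.ind with
      | _ x y =>
        rw [SimpleGraph.mem_edgeSet] at he
        unfold treeOf at he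
        rw [SimpleGraph.fromRel_adj] at he
        rw [Finset.mem_coe, Finset.mem_image]
        rcases he.2 with ⟨h1, h2⟩ | ⟨h1, h2⟩
        · exact ⟨x, by simpa using h1, by rw [h2]⟩
        · exact ⟨y, by simpa using h1, by rw [h2, Sym2.eq_swap]⟩
    have h2 : Nat.card (treeOf ρ p).edgeSet ≤
        ((Finset.univ.filter (fun x : V => x ≠ ρ)).image (fun x => s(x, p x))).card := by
      have := Set.ncard_le_ncard h1 (Finset.finite_toSet _)
      rw [Set.ncard_coe_finset] at this
      exact this
    have h3 : ((Finset.univ.filter (fun x : V => x ≠ ρ)).image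
        (fun x => s(x, p x))).card ≤ (Finset.univ.filter (fun x : V => x ≠ ρ)).card :=
      Finset.card_image_le
    have h4 : (Finset.univ.filter (fun x : V => x ≠ ρ)).card + 1 = Nat.card V := by
      have h5 : Finset.univ.filter (fun x : V => x ≠ ρ) = Finset.univ.erase ρ := by
        ext x; simp
      rw [h5, Finset.card_erase_of_mem (Finset.mem_univ _), Finset.card_univ,
        Nat.card_eq_fintype_card]
      have : 0 < Fintype.card V := Fintype.card_pos_iff.2 ⟨ρ⟩
      omega
    omega
  · exact h.treeOf_connected.card_vert_le_card_edgeSet_add_one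

theorem IsParent.dist_iterate (h : IsParent G ρ p d) (i : ℕ) (x : V) :
    (treeOf ρ p).dist x (p^[i] x) ≤ i := by
  induction i generalizing x with
  | zero => simp
  | succ i ih =>
    rw [Function.iterate_succ_apply]
    have h1 := ih (p x)
    have h2 : (treeOf ρ p).dist x (p x) ≤ 1 := by
      by_cases hx : x = ρ
      · rw [hx, h.root]; simp
      · rw [SimpleGraph.dist_eq_one_iff_adj.2 (h.treeOf_adj hx)]
    have h3 := h.treeOf_connected.dist_triangle (u := x) (v := p x) (w := p^[i] (p x))
    omega

theorem IsParent.dist_le (h : IsParent G ρ p d) {l : ℕ} {x y : V} (hN : Near p l x y) :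
    (treeOf ρ p).dist x y ≤ l := by
  obtain ⟨i, j, h1, h2⟩ := hN
  have h3 := h.dist_iterate i x
  have h4 := h.dist_iterate j y
  have h5 := h.treeOf_connected.dist_triangle (u := x) (v := p^[i] x) (w := y)
  rw [h2, SimpleGraph.dist_comm (u := p^[j] y)] at h5
  rw [h2] at h3
  omega

end

/-- Every tree has a parent function for every root. -/
theorem exists_parent [Finite V] {T : SimpleGraph V} (hT : T.IsTree) (ρ : V) :
    ∃ (p : V → V) (d : V → ℕ), IsParent T ρ p d ∧ ∀ x y, T.Adj x y → p x = y ∨ p y = x := by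
  classical
  haveI := Fintype.ofFinite V
  have h1 : ∀ x, x ≠ ρ → ∃ y, T.Adj x y ∧ T.dist y ρ + 1 = T.dist x ρ := by
    intro x hx
    obtain ⟨w, hw⟩ := hT.connected.exists_walk_length_eq_dist x ρ
    cases w with
    | nil => exact absurd rfl hx
    | cons hxy w =>
      rename_i y
      refine ⟨y, hxy, ?_⟩
      rw [SimpleGraph.Walk.length_cons] at hw
      have h2 := SimpleGraph.dist_le w
      have h3 := hT.connected.dist_triangle (u := x) (v := y) (w := ρ)
      rw [SimpleGraph.dist_eq_one_iff_adj.2 hxy] at h3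
      omega
  choose f hf1 hf2 using h1
  let p : V → V := fun x => if h : x = ρ then ρ else f x h
  have hp : IsParent T ρ p (fun x => T.dist x ρ) := by
    refine ⟨by simp [p], fun x hx => ?_, fun x hx => ?_⟩
    · simp only [p, dif_neg hx]
      exact hf1 x hx
    · simp only [p, dif_neg hx]
      have := hf2 x hx
      omega
  refine ⟨p, fun x => T.dist x ρ, hp, fun x y hxy => ?_⟩
  -- counting
  have hinj : Set.InjOn (fun x => s(x, p x)) {x | x ≠ ρ} := by
    intro x hx y hy hxy
    simp only [Sym2.eq_iff] at hxy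
    rcases hxy with ⟨h1, -⟩ | ⟨h1, h2⟩
    · exact h1
    · have h3 := hp.depth x hx
      have h4 := hp.depth y hy
      rw [h2] at h3
      rw [← h1] at h4
      omega
  have hle : (Finset.univ.filter (fun x : V => x ≠ ρ)).image (fun x => s(x, p x)) ⊆
      T.edgeFinset := by
    intro e he
    obtain ⟨x, hx, rfl⟩ := Finset.mem_image.1 he
    rw [SimpleGraph.mem_edgeFinset, SimpleGraph.mem_edgeSet]
    exact hp.adj x (by simpa using hx)
  have hcard : ((Finset.univ.filter (fun x : V => x ≠ ρ)).image (fun x => s(x, p x))).card =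
      T.edgeFinset.card := by
    rw [Finset.card_image_of_injOn (by simpa using hinj)]
    have h4 : (Finset.univ.filter (fun x : V => x ≠ ρ)).card + 1 = Fintype.card V := by
      have h5 : Finset.univ.filter (fun x : V => x ≠ ρ) = Finset.univ.erase ρ := by
        ext x; simp
      rw [h5, Finset.card_erase_of_mem (Finset.mem_univ _), Finset.card_univ]
      have : 0 < Fintype.card V := Fintype.card_pos_iff.2 ⟨ρ⟩
      omega
    have := hT.card_edgeFinset
    omega
  have heq := Finset.eq_of_subset_of_card_le hle hcard.ge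
  have hmem : s(x, y) ∈ T.edgeFinset := by
    rw [SimpleGraph.mem_edgeFinset, SimpleGraph.mem_edgeSet]; exact hxy
  rw [← heq] at hmem
  obtain ⟨z, -, hz⟩ := Finset.mem_image.1 hmem
  rw [Sym2.eq_iff] at hz
  rcases hz with ⟨rfl, h2⟩ | ⟨rfl, h2⟩
  · exact Or.inl h2
  · exact Or.inr h2

/-- Distances in the tree give common ancestors. -/
theorem near_of_walk {T : SimpleGraph V} {p : V → V}
    (hp : ∀ x y, T.Adj x y → p x = y ∨ p y = x) {x y : V} (w : T.Walk x y) :
    Near p w.length x y := by
  induction w with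
  | nil => exact Near.refl _ _ _
  | cons hxy w ih =>
    rename_i a b c
    obtain ⟨i, j, h1, h2⟩ := ih
    rw [SimpleGraph.Walk.length_cons]
    rcases hp _ _ hxy with h | h
    · exact ⟨i + 1, j, by omega, by rw [Function.iterate_succ_apply, h]; exact h2⟩
    · cases i with
      | zero =>
        refine ⟨0, j + 1, by omega, ?_⟩
        rw [Function.iterate_succ_apply', ← h2]
        exact h.symm
      | succ i =>
        refine ⟨i, j, by omega, ?_⟩
        rw [← h2, Function.iterate_succ_apply, h]

/-- Tree spanners in terms of parent functions. -/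
theorem hasTreeSpanner_iff [Finite V] (G : SimpleGraph V) (t : ℕ) (ρ : V) :
    HasTreeSpanner G t ↔ ∃ (p : V → V) (d : V → ℕ), IsParent G ρ p d ∧
      ∀ x y, G.Adj x y → Near p t x y := by
  constructor
  · rintro ⟨T, hle, hT, hd⟩
    obtain ⟨p, d, hp, hadj⟩ := exists_parent hT ρ
    refine ⟨p, d, ⟨hp.root, fun x hx => hle (hp.adj x hx), hp.depth⟩, fun x y hxy => ?_⟩
    obtain ⟨w, hw⟩ := hT.connected.exists_walk_length_eq_dist x y
    have h1 := hd x y
    rw [SimpleGraph.dist_eq_one_iff_adj.2 hxy, ← hw] at h1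
    exact (near_of_walk hadj w).mono (by omega)
  · rintro ⟨p, d, hp, hN⟩
    refine ⟨treeOf ρ p, hp.treeOf_le, hp.isTree, fun x y => ?_⟩
    obtain ⟨w, hw⟩ := hp.connected.exists_walk_length_eq_dist x y
    rw [← hw]
    clear hw
    induction w with
    | nil => simp
    | cons hxy w ih =>
      rename_i a b c
      rw [SimpleGraph.Walk.length_cons]
      have h1 := hp.dist_le (hN _ _ hxy)
      have h2 := hp.treeOf_connected.dist_triangle (u := a) (v := b) (w := c)
      have h3 : t * (w.length + 1) = t * w.length + t := by ring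
      omega

/-- Invariance under isomorphisms. -/
theorem HasTreeSpanner.iso {V' : Type} [Finite V] [Finite V'] {G : SimpleGraph V}
    {G' : SimpleGraph V'} (e : G ≃g G') {t : ℕ} (h : HasTreeSpanner G t) :
    HasTreeSpanner G' t := by
  obtain ⟨T, hT⟩ := id h
  obtain ⟨ρ⟩ := hT.2.1.connected.nonempty
  obtain ⟨p, d, hp, hN⟩ := (hasTreeSpanner_iff G t ρ).1 h
  refine (hasTreeSpanner_iff G' t (e ρ)).2 ⟨fun x => e (p (e.symm x)), fun x => d (e.symm x),
    ⟨?_, ?_, ?_⟩, ?_⟩
  · simp [hp.root]
  · intro x hx
    have h1 : e.symm x ≠ ρ := by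
      rintro rfl; simp at hx
    have h2 := hp.adj _ h1
    have h3 := e.map_adj_iff.2 h2
    simpa using h3
  · intro x hx
    have h1 : e.symm x ≠ ρ := by
      rintro rfl; simp at hx
    simpa using hp.depth _ h1
  · intro x y hxy
    have h1 : G.Adj (e.symm x) (e.symm y) := e.symm.map_adj_iff.2 hxy
    obtain ⟨i, j, h2, h3⟩ := hN _ _ h1
    have key : ∀ (i : ℕ) (x : V'), (fun x => e (p (e.symm x)))^[i] x = e (p^[i] (e.symm x)) := by
      intro i
      induction i with
      | zero => intro x; simp
      | succ i ih => intro x; rw [Function.iterate_succ_apply, ih, Function.iterate_succ_apply]; simp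
    exact ⟨i, j, h2, by rw [key, key, h3]⟩

end Pool.Agent.Spanner
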