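import Pool.Agent.Lib_MP_b5064f_lc.Sound2

set_option autoImplicit false

/-!
# A satisfying assignment gives a tree spanner
-/

namespace Pool.Agent.Spanner

open SimpleGraph

section

variable {t : ℕ} {I : Ins} {V : Type} {G : SimpleGraph V} {Λ : Layout t I G}

/-- choice functions for the clauses -/
structure Choice (I : Ins) (ch : Cn → Cl × ℕ) (mm : Cn → Bool → Cl × ℕ) : Prop where
  ch : ∀ c ∈ I.Cs, (ch c).1 ∈ I.As ∧ (ch c).2 < 3 ∧ ∃ pos, I.loc (ch c).1 (ch c).2 = some (c, pos)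
  mm : ∀ c ∈ I.Cs, ∀ e, (mm c e).1 ∈ I.As ∧ (mm c e).2 < 3 ∧
    I.loc (mm c e).1 (mm c e).2 = some (c, if e then 1 else 0)

variable (σ : Cl → Bool) (ch : Cn → Cl × ℕ) (mm : Cn → Bool → Cl × ℕ)

/-- left attachments -/
def xl : GN → Vx
  | .z i => .tau i
  | .a q => .mem q 0
  | .b q => .mem q 0
  | .w c e => .mem (mm c e).1 (mm c e).2

/-- right attachments -/
def yl : GN → Vx
  | .z i => .tau (i + 1)
  | .a q => .mem q 1
  | .b q => .mem q 2
  | .w c _ => .w c

/-- parents of the labels -/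
def pl : Vx → Vx
  | .tau i => .tau (i - 1)
  | .mem q s => if val σ q s then .tau 0 else if s = 1 then .mem q 0 else .mem q 1
  | .w c => .mem (ch c).1 (ch c).2
  | .g n b => (L b).elim (xl mm n) (fun b' => .g n b')

variable {σ ch mm} in
theorem pl_mem (q : Cl) (s : ℕ) : pl σ ch mm (.mem q s) =
    if val σ q s then .tau 0 else if s = 1 then .mem q 0 else .mem q 1 := rfl

variable {σ ch mm} in
theorem pl_g (n : GN) (b : List Bool) : pl σ ch mm (.g n b) =
    (L b).elim (xl mm n) (fun b' => .g n b') := rfl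

/-- depths of the labels -/
def dl (t : ℕ) : Vx → ℕ
  | .tau i => i
  | .mem q s => if val σ q s then 1 else 2
  | .w _ => 3
  | .g _ b => t + 3 + b.length

variable {σ ch mm}

theorem okX (hC : Choice I ch mm) {n : GN} (hn : okG t I n) : okV t I (xl mm n) := by
  cases n with
  | z i => exact (show i ≤ t - 2 by have : i < t - 2 := hn; omega)
  | a q => exact ⟨hn, by omega⟩
  | b q => exact ⟨hn, by omega⟩
  | w c e => exact ⟨(hC.mm c hn e).1, (hC.mm c hn e).2.1⟩

theorem okY {n : GN} (hn : okG t I n) : okV t I (yl n) := by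
  cases n with
  | z i => exact (show i + 1 ≤ t - 2 by have : i < t - 2 := hn; omega)
  | a q => exact ⟨hn, by omega⟩
  | b q => exact ⟨hn, by omega⟩
  | w c e => exact hn

theorem isX_xl (hC : Choice I ch mm) {n : GN} (hn : okG t I n) : isX I n (xl mm n) := by
  cases n with
  | z i => exact rfl
  | a q => exact rfl
  | b q => exact rfl
  | w c e => exact ⟨_, _, rfl, (hC.mm c hn e).2.2⟩

theorem isX_unique (hI : I.Good) (hC : Choice I ch mm) {n : GN} (hn : okG t I n) :
    ∀ l, isX I n l → l = xl mm n := by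
  cases n with
  | z i => exact fun l h => h
  | a q => exact fun l h => h
  | b q => exact fun l h => h
  | w c e =>
    rintro l ⟨q, s, rfl, h2⟩
    have := hI.inj _ _ _ _ _ h2 (hC.mm c hn e).2.2
    rw [this.1, this.2]
    rfl

theorem isY_yl (n : GN) : isY n (yl n) := by
  cases n <;> rfl

theorem isY_unique (n : GN) : ∀ l, isY n l → l = yl n := by
  cases n <;> exact fun l h => h

theorem ok_pl (ht : 4 ≤ t) (hC : Choice I ch mm) {l : Vx} (hl : okV t I l) :
    okV t I (pl σ ch mm l) := by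
  cases l with
  | tau i => exact (show i - 1 ≤ t - 2 by have : i ≤ t - 2 := hl; omega)
  | mem q s =>
    rw [pl_mem]
    split_ifs
    · exact Nat.zero_le _
    · exact ⟨hl.1, by omega⟩
    · exact ⟨hl.1, by omega⟩
  | w c => exact ⟨(hC.ch c hl).1, (hC.ch c hl).2.1⟩
  | g n b =>
    rw [pl_g]
    cases hL : L b with
    | none => exact okX hC hl.1
    | some b' =>
      have h1 := L_some hL
      have h2 := hl.2
      exact ⟨hl.1, show b'.length < kk t n by omega⟩

theorem val_flip {q : Cl} {s : ℕ} (h : val σ q s = false) :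
    val σ q (if s = 1 then 0 else 1) = true := by
  unfold val at *
  by_cases hs : s = 1
  · simp only [hs, if_true] at *
    simp [h]
  · simp only [hs, if_false] at *
    simpa using h

theorem depth_pl (ht : 4 ≤ t) {l : Vx} (hl : okV t I l) (h0 : l ≠ .tau 0) :
    dl σ t (pl σ ch mm l) < dl σ t l := by
  have hmem : ∀ q s, dl σ t (.mem q s) ≤ 2 := by
    intro q s
    change (if val σ q s then 1 else 2) ≤ 2
    split_ifs <;> omega
  cases l with
  | tau i =>
    have : i ≠ 0 := by rintro rfl; exact h0 rfl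
    exact (show i - 1 < i by omega)
  | mem q s =>
    by_cases h : val σ q s = true
    · have e1 : pl σ ch mm (.mem q s) = .tau 0 := by simp [pl, h]
      rw [e1]
      unfold dl
      simp [h]
    · rw [Bool.not_eq_true] at h
      have h1 := val_flip h
      have e1 : pl σ ch mm (.mem q s) = .mem q (if s = 1 then 0 else 1) := by
        rw [pl_mem, h]
        by_cases hs : s = 1 <;> simp [hs]
      rw [e1]
      have e2 : dl σ t (.mem q s) = 2 := by simp [dl, h]
      have e3 : dl σ t (.mem q (if s = 1 then 0 else 1)) = 1 := by simp only [dl, h1, if_true]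
      rw [e2, e3]
      omega
  | w c =>
    have := hmem (ch c).1 (ch c).2
    exact Nat.lt_of_le_of_lt this (show 2 < 3 by omega)
  | g n b =>
    rw [pl_g]
    cases hL : L b with
    | none =>
      change dl σ t (xl mm n) < t + 3 + b.length
      cases n with
      | z i =>
        have : i < t - 2 := hl.1
        exact (show i < t + 3 + b.length by omega)
      | a q => exact Nat.lt_of_le_of_lt (hmem q 0) (by omega)
      | b q => exact Nat.lt_of_le_of_lt (hmem q 0) (by omega)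
      | w c e => exact Nat.lt_of_le_of_lt (hmem _ _) (by omega)
    | some b' =>
      have h1 := L_some hL
      exact (show t + 3 + b'.length < t + 3 + b.length by omega)

/-- A label and its parent have a common node. -/
theorem inc_pl (ht : 4 ≤ t) (hC : Choice I ch mm) {l : Vx} (hl : okV t I l) (h0 : l ≠ .tau 0) :
    ∃ n, okN t I n ∧ Inc t I n l ∧ Inc t I n (pl σ ch mm l) := by
  cases l with
  | tau i =>
    obtain ⟨j, rfl⟩ : ∃ j, i = j + 1 := by
      cases i with
      | zero => exact absurd rfl h0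
      | succ j => exact ⟨j, rfl⟩
    have hl' : j + 1 ≤ t - 2 := hl
    refine ⟨.q j, show j ≤ t - 2 by omega, Or.inr (Or.inr rfl), ?_⟩
    change j + 1 - 1 = 0 ∨ j + 1 - 1 = j ∨ j + 1 - 1 = j + 1
    omega
  | mem q s =>
    refine ⟨.q (t - 2), le_refl (t - 2), rfl, ?_⟩
    rw [pl_mem]
    split_ifs
    · exact Or.inl rfl
    · exact rfl
    · exact rfl
  | w c =>
    obtain ⟨pos, h⟩ := (hC.ch c hl).2.2
    exact ⟨.k c, hl, rfl, pos, h⟩
  | g n b =>
    refine ⟨.g n b, hl, Or.inl rfl, ?_⟩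
    rw [pl_g]
    cases hL : L b with
    | none => exact Or.inr (Or.inr (Or.inr (Or.inl ⟨hL, isX_xl hC hl.1⟩)))
    | some b' => exact Or.inr (Or.inl ⟨b', hL, rfl⟩)

variable (σ ch mm) in
/-- the parent function -/
def pf (Λ : Layout t I G) (v : V) : V := Λ.vx (pl σ ch mm (Λ.lab v))

theorem pf_vx {l : Vx} (hl : okV t I l) : pf σ ch mm Λ (Λ.vx l) = Λ.vx (pl σ ch mm l) := by
  unfold pf
  rw [Λ.lab_vx l hl]

theorem isParent_pf (ht : 4 ≤ t) (hC : Choice I ch mm) :
    IsParent G (Λ.vx (.tau 0)) (pf σ ch mm Λ) (fun v => dl σ t (Λ.lab v)) := by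
  have hne : ∀ v, v ≠ Λ.vx (.tau 0) → Λ.lab v ≠ .tau 0 := fun v h h' => h (Λ.eq_vx h')
  refine ⟨?_, fun v hv => ?_, fun v hv => ?_⟩
  · rw [pf_vx (Nat.zero_le _)]
    rfl
  · have h1 := depth_pl (σ := σ) (ch := ch) (mm := mm) ht (Λ.ok v) (hne v hv)
    obtain ⟨n, hn, h2, h3⟩ := inc_pl (σ := σ) ht hC (Λ.ok v) (hne v hv)
    rw [Λ.adj]
    refine ⟨fun h => ?_, n, hn, h2, ?_⟩
    · have h4 : Λ.lab (pf σ ch mm Λ v) = pl σ ch mm (Λ.lab v) := Λ.lab_vx _ (ok_pl ht hC (Λ.ok v))
      rw [← h] at h4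
      rw [← h4] at h1
      omega
    · unfold pf
      rw [Λ.lab_vx _ (ok_pl ht hC (Λ.ok v))]
      exact h3
  · unfold pf
    rw [Λ.lab_vx _ (ok_pl ht hC (Λ.ok v))]
    exact depth_pl ht (Λ.ok v) (hne v hv)

theorem exists_choice (hI : I.Good) : ∃ ch mm, Choice I ch mm := by
  classical
  have h1 : ∀ (c : Cn) (e : Bool), ∃ x : Cl × ℕ, c ∈ I.Cs → x.1 ∈ I.As ∧ x.2 < 3 ∧
      I.loc x.1 x.2 = some (c, if e then 1 else 0) := by
    intro c e
    by_cases hc : c ∈ I.Cs
    · obtain ⟨q, hq, s, hs, h⟩ := hI.pos c hc e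
      exact ⟨(q, s), fun _ => ⟨hq, hs, h⟩⟩
    · exact ⟨((0, 0), 0), fun h => absurd h hc⟩
  choose mm hmm using h1
  exact ⟨fun c => mm c false, mm, ⟨fun c hc => ⟨(hmm c false hc).1, (hmm c false hc).2.1, _,
    (hmm c false hc).2.2⟩, fun c hc e => hmm c e hc⟩⟩

/-- The graph is connected. -/
theorem Layout.connected (Λ : Layout t I G) (ht : 4 ≤ t) (hI : I.Good) : G.Connected := by
  obtain ⟨ch, mm, hC⟩ := exists_choice hI
  exact (isParent_pf (Λ := Λ) (σ := fun _ => false) ht hC).connected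

/-! ### Distances -/

section

variable (ht : 4 ≤ t) (hI : I.Good) (hC : Choice I ch mm)
  (hσ : ∀ c ∈ I.Cs, val σ (ch c).1 (ch c).2 = true)

include ht hC

omit ht hC in
theorem anc_tau (i : ℕ) (hi : i ≤ t - 2) : (pf σ ch mm Λ)^[i] (Λ.vx (.tau i)) =
    Λ.vx (.tau 0) := by
  induction i with
  | zero => rfl
  | succ i ih =>
    rw [Function.iterate_succ_apply, pf_vx (l := .tau (i + 1)) hi]
    exact ih (by omega)

omit ht hC in
theorem anc_true {q : Cl} {s : ℕ} (hq : okV t I (.mem q s)) (h : val σ q s = true) :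
    pf σ ch mm Λ (Λ.vx (.mem q s)) = Λ.vx (.tau 0) := by
  rw [pf_vx hq, pl_mem]
  simp [h]

theorem anc_false {q : Cl} {s : ℕ} (hq : okV t I (.mem q s)) (h : val σ q s = false) :
    pf σ ch mm Λ (Λ.vx (.mem q s)) = Λ.vx (.mem q (if s = 1 then 0 else 1)) := by
  rw [pf_vx hq, pl_mem, h]
  by_cases hs : s = 1 <;> simp [hs]

theorem anc_mem {q : Cl} {s : ℕ} (hq : okV t I (.mem q s)) :
    (pf σ ch mm Λ)^[2] (Λ.vx (.mem q s)) = Λ.vx (.tau 0) := by
  change pf σ ch mm Λ (pf σ ch mm Λ (Λ.vx (.mem q s))) = _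
  by_cases h : val σ q s = true
  · rw [anc_true hq h]
    exact (isParent_pf (Λ := Λ) ht hC).root
  · rw [Bool.not_eq_true] at h
    rw [anc_false ht hC hq h]
    refine anc_true ⟨hq.1, ?_⟩ (val_flip h)
    split_ifs <;> omega

omit ht in
include hσ in
theorem anc_w {c : Cn} (hc : c ∈ I.Cs) :
    (pf σ ch mm Λ)^[2] (Λ.vx (.w c)) = Λ.vx (.tau 0) := by
  change pf σ ch mm Λ (pf σ ch mm Λ (Λ.vx (.w c))) = _
  rw [pf_vx (l := .w c) hc]
  exact anc_true ⟨(hC.ch c hc).1, (hC.ch c hc).2.1⟩ (hσ c hc)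

theorem near_mem_mem {q q' : Cl} {s s' : ℕ} (h : okV t I (.mem q s)) (h' : okV t I (.mem q' s')) :
    Near (pf σ ch mm Λ) 4 (Λ.vx (.mem q s)) (Λ.vx (.mem q' s')) :=
  ⟨2, 2, by omega, by rw [anc_mem ht hC h, anc_mem ht hC h']⟩

theorem near_mem_tau {q : Cl} {s i : ℕ} (h : okV t I (.mem q s)) (hi : i ≤ t - 2) :
    Near (pf σ ch mm Λ) t (Λ.vx (.mem q s)) (Λ.vx (.tau i)) :=
  ⟨2, i, by omega, by rw [anc_mem ht hC h, anc_tau i hi]⟩

include hσ in
theorem near_mem_w {q : Cl} {s : ℕ} {c : Cn} (h : okV t I (.mem q s)) (hc : c ∈ I.Cs) :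
    Near (pf σ ch mm Λ) 4 (Λ.vx (.mem q s)) (Λ.vx (.w c)) :=
  ⟨2, 2, by omega, by rw [anc_mem ht hC h, anc_w hC hσ hc]⟩

theorem near_01 {q : Cl} (hq : q ∈ I.As) :
    Near (pf σ ch mm Λ) 1 (Λ.vx (.mem q 0)) (Λ.vx (.mem q 1)) := by
  by_cases h : σ q = true
  · refine ⟨1, 0, by omega, ?_⟩
    exact anc_false ht hC (s := 0) ⟨hq, by omega⟩ (by simp [val, h])
  · refine ⟨0, 1, by omega, ?_⟩
    exact (anc_false ht hC (s := 1) ⟨hq, by omega⟩ (by simp [val, h])).symm

theorem near_02 {q : Cl} (hq : q ∈ I.As) :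
    Near (pf σ ch mm Λ) 2 (Λ.vx (.mem q 0)) (Λ.vx (.mem q 2)) := by
  refine ⟨1, 1, by omega, ?_⟩
  change pf σ ch mm Λ _ = pf σ ch mm Λ _
  by_cases h : σ q = true
  · rw [anc_false ht hC (s := 0) ⟨hq, by omega⟩ (by simp [val, h]),
      anc_false ht hC (s := 2) ⟨hq, by omega⟩ (by simp [val, h])]
    rfl
  · rw [anc_true (s := 0) ⟨hq, by omega⟩ (by simp [val, h]),
      anc_true (s := 2) ⟨hq, by omega⟩ (by simp [val, h])]

include hI hσ in
theorem near_gad {n : GN} (hn : okG t I n) {b : List Bool} (hb : b.length < kk t n) {u v : V}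
    (hu : Inc t I (.g n b) (Λ.lab u)) (hv : Inc t I (.g n b) (Λ.lab v)) :
    Near (pf σ ch mm Λ) t u v := by
  have hu' := Λ.mem_bag_of_inc (isX_unique hI hC hn) (isY_unique n) hu
  have hv' := Λ.mem_bag_of_inc (isX_unique hI hC hn) (isY_unique n) hv
  have hpc : ∀ b : List Bool, b.length < kk t n → pf σ ch mm Λ (Λ.cv n b) =
      lv (Λ.vx (xl mm n)) (Λ.cv n) b := by
    intro b hb
    unfold Layout.cv
    rw [pf_vx (l := .g n b) ⟨hn, hb⟩, pl_g]
    unfold lv
    cases L b <;> rfl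
  have main : ∀ d0 : ℕ, 1 ≤ d0 → d0 + kk t n ≤ t →
      Near (pf σ ch mm Λ) d0 (Λ.vx (xl mm n)) (Λ.vx (yl n)) →
      (∀ m ∈ Λ.mset n, Near (pf σ ch mm Λ) (t - 1) (Λ.vx (xl mm n)) m) →
      (∀ m ∈ Λ.mset n, Near (pf σ ch mm Λ) t m (Λ.vx (yl n))) →
      (∀ m ∈ Λ.mset n, ∀ m' ∈ Λ.mset n, Near (pf σ ch mm Λ) t m m') →
      Near (pf σ ch mm Λ) t u v := fun d0 h1 h2 h3 h4 h5 h6 =>
    gad_bag h1 h2 hpc h3 h4 h5 h6 b hb u hu' v hv'
  cases n with
  | z i =>
    refine main 1 le_rfl (show 1 + (t - 1) ≤ t by omega) ⟨0, 1, by omega, ?_⟩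
      (fun m hm => absurd hm (Λ.mset_z i m)) (fun m hm => absurd hm (Λ.mset_z i m))
      (fun m hm => absurd hm (Λ.mset_z i m))
    have : i < t - 2 := hn
    exact (pf_vx (l := .tau (i + 1)) (show i + 1 ≤ t - 2 by omega)).symm
  | a q =>
    have h02 := near_02 (Λ := Λ) (σ := σ) ht hC hn
    refine main 1 le_rfl (show 1 + (t - 1) ≤ t by omega) (near_01 ht hC hn) ?_ ?_ ?_
    · intro m hm
      rw [Layout.mset_a q hm]
      exact h02.mono (by omega)
    · intro m hm
      rw [Layout.mset_a q hm]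
      exact (near_mem_mem ht hC ⟨hn, by omega⟩ ⟨hn, by omega⟩).mono ht
    · intro m hm m' hm'
      rw [Layout.mset_a q hm, Layout.mset_a q hm']
      exact Near.refl _ _ _
  | b q =>
    exact main 2 (by omega) (show 2 + (t - 2) ≤ t by omega) (near_02 ht hC hn)
      (fun m hm => absurd hm (Λ.mset_b q m)) (fun m hm => absurd hm (Λ.mset_b q m))
      (fun m hm => absurd hm (Λ.mset_b q m))
  | w c e =>
    exact main 4 (by omega) (show 4 + (t - 4) ≤ t by omega)
      (near_mem_w ht hC hσ ⟨(hC.mm c hn e).1, (hC.mm c hn e).2.1⟩ hn)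
      (fun m hm => absurd hm (Λ.mset_w c e m)) (fun m hm => absurd hm (Λ.mset_w c e m))
      (fun m hm => absurd hm (Λ.mset_w c e m))

include hI hσ in
theorem near_adj {u v : V} (h : G.Adj u v) : Near (pf σ ch mm Λ) t u v := by
  obtain ⟨-, n, hn, h1, h2⟩ := (Λ.adj _ _).1 h
  have hou := Λ.ok u
  have hov := Λ.ok v
  cases n with
  | g n b => exact near_gad ht hI hC hσ hn.1 hn.2 h1 h2
  | q i =>
    have hi : i ≤ t - 2 := hn
    cases hlu : Λ.lab u with
    | tau j =>
      rw [hlu] at h1 hou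
      have hj : j ≤ t - 2 := hou
      have h1' : j = 0 ∨ j = i ∨ j = i + 1 := h1
      cases hlv : Λ.lab v with
      | tau k =>
        rw [hlv] at h2 hov
        have hk : k ≤ t - 2 := hov
        have h2' : k = 0 ∨ k = i ∨ k = i + 1 := h2
        rw [Λ.eq_vx hlu, Λ.eq_vx hlv]
        have hroot := (isParent_pf (Λ := Λ) (σ := σ) ht hC).root
        have hcases : j = k ∨ j = 0 ∨ k = 0 ∨ j = k + 1 ∨ k = j + 1 := by omega
        rcases hcases with rfl | rfl | rfl | rfl | rfl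
        · exact Near.refl _ _ _
        · exact ⟨0, k, by omega, by rw [anc_tau k hk]; rfl⟩
        · exact ⟨j, 0, by omega, by rw [anc_tau j hj]; rfl⟩
        · exact ⟨1, 0, by omega, pf_vx (l := .tau (k + 1)) hj⟩
        · exact ⟨0, 1, by omega, (pf_vx (l := .tau (j + 1)) hk).symm⟩
      | mem q s =>
        rw [hlv] at hov
        rw [Λ.eq_vx hlu, Λ.eq_vx hlv]
        exact (near_mem_tau ht hC hov hj).symm
      | w c => rw [hlv] at h2; exact h2.elim
      | g m b => rw [hlv] at h2; exact h2.elim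
    | mem q s =>
      rw [hlu] at hou
      cases hlv : Λ.lab v with
      | tau k =>
        rw [hlv] at hov
        rw [Λ.eq_vx hlu, Λ.eq_vx hlv]
        exact near_mem_tau ht hC hou hov
      | mem q' s' =>
        rw [hlv] at hov
        rw [Λ.eq_vx hlu, Λ.eq_vx hlv]
        exact (near_mem_mem ht hC hou hov).mono ht
      | w c => rw [hlv] at h2; exact h2.elim
      | g m b => rw [hlv] at h2; exact h2.elim
    | w c => rw [hlu] at h1; exact h1.elim
    | g m b => rw [hlu] at h1; exact h1.elim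
  | k c =>
    have hc : c ∈ I.Cs := hn
    cases hlu : Λ.lab u with
    | tau j => rw [hlu] at h1; exact h1.elim
    | mem q s =>
      rw [hlu] at hou
      cases hlv : Λ.lab v with
      | tau k => rw [hlv] at h2; exact h2.elim
      | mem q' s' =>
        rw [hlv] at hov
        rw [Λ.eq_vx hlu, Λ.eq_vx hlv]
        exact (near_mem_mem ht hC hou hov).mono ht
      | w c' =>
        rw [hlv] at h2
        have : c' = c := h2
        subst this
        rw [Λ.eq_vx hlu, Λ.eq_vx hlv]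
        exact (near_mem_w ht hC hσ hou hc).mono ht
      | g m b => rw [hlv] at h2; exact h2.elim
    | w c' =>
      rw [hlu] at h1
      have : c' = c := h1
      subst this
      cases hlv : Λ.lab v with
      | tau k => rw [hlv] at h2; exact h2.elim
      | mem q' s' =>
        rw [hlv] at hov
        rw [Λ.eq_vx hlu, Λ.eq_vx hlv]
        exact ((near_mem_w ht hC hσ hov hc).mono ht).symm
      | w c'' =>
        rw [hlv] at h2
        have : c'' = c' := h2
        subst this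
        rw [Λ.eq_vx hlu, Λ.eq_vx hlv]
        exact Near.refl _ _ _
      | g m b => rw [hlv] at h2; exact h2.elim
    | g m b => rw [hlu] at h1; exact h1.elim

end

/-- Completeness of the reduction. -/
theorem complete [Finite V] (ht : 4 ≤ t) (hI : I.Good) (Λ : Layout t I G) (h : I.Sat) :
    HasTreeSpanner G t := by
  classical
  obtain ⟨ch0, mm, hC0⟩ := exists_choice hI
  obtain ⟨σ, hσ⟩ := h
  have h1 : ∀ c, ∃ x : Cl × ℕ, c ∈ I.Cs → x.1 ∈ I.As ∧ x.2 < 3 ∧
      (∃ pos, I.loc x.1 x.2 = some (c, pos)) ∧ val σ x.1 x.2 = true := by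
    intro c
    by_cases hc : c ∈ I.Cs
    · obtain ⟨q, hq, s, hs, pos, h2, h3⟩ := hσ c hc
      exact ⟨(q, s), fun _ => ⟨hq, hs, ⟨pos, h2⟩, h3⟩⟩
    · exact ⟨((0, 0), 0), fun h => absurd h hc⟩
  choose ch hch using h1
  have hC : Choice I ch mm := ⟨fun c hc => ⟨(hch c hc).1, (hch c hc).2.1, (hch c hc).2.2.1⟩,
    hC0.mm⟩
  refine (hasTreeSpanner_iff G t (Λ.vx (.tau 0))).2 ⟨_, _, isParent_pf (σ := σ) ht hC,
    fun u v huv => ?_⟩
  exact near_adj ht hI hC (fun c hc => (hch c hc).2.2.2) huv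

end

end Pool.Agent.Spanner
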