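import Mathlib
import Pool.Prelude.Def_F_458e953d

set_option autoImplicit false

/-!
# Tree spanners and path graphs: definitions
-/

namespace Pool.Agent.Spanner

/-- `T` is a tree `t`-spanner of `G`: a spanning tree of `G` such that the distance of any two
vertices in `T` is at most `t` times their distance in `G`. -/
def IsTreeSpanner {V : Type} (G T : SimpleGraph V) (t : ℕ) : Prop :=
  T ≤ G ∧ T.IsTree ∧ ∀ x y, T.dist x y ≤ t * G.dist x y

/-- `G` has a tree `t`-spanner. -/
def HasTreeSpanner {V : Type} (G : SimpleGraph V) (t : ℕ) : Prop := ∃ T, IsTreeSpanner G T t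

/-- `G` is a path graph: the vertex intersection graph of a finite family of paths in a finite
tree. -/
def IsPathGraph {V : Type} (G : SimpleGraph V) : Prop :=
  ∃ (W : Type) (_ : Finite W) (H : SimpleGraph W) (a b : V → W) (P : ∀ v, H.Walk (a v) (b v)),
    H.IsTree ∧ (∀ v, (P v).IsPath) ∧
      ∀ u v, G.Adj u v ↔ u ≠ v ∧ ∃ w, w ∈ (P u).support ∧ w ∈ (P v).support

open Classical in
/-- The code of a graph on the vertices `0, …, n - 1` as a bit string: the code (in the sense of
`Pool.Prelude`) of its adjacency matrix, a list of rows. -/
noncomputable def graphCode {n : ℕ} (G : SimpleGraph (Fin n)) : List Bool :=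
  N487b59b3.bitEncode (List.ofFn fun i => List.ofFn fun j => decide (G.Adj i j))

open Classical in
/-- The decision problem TREE `t`-SPANNER: is the given string the code of a graph which has a
tree `t`-spanner? -/
noncomputable def treeSpanner (t : ℕ) : List Bool → Bool := fun w =>
  decide (∃ (n : ℕ) (G : SimpleGraph (Fin n)), w = graphCode G ∧ HasTreeSpanner G t)

end Pool.Agent.Spanner
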