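import Pool.Agent.Lib_MP_b5064f_lc.Host

set_option autoImplicit false

/-!
# The list of the vertices
-/

namespace Pool.Agent.Spanner

open SimpleGraph

/-- the words of length less than `k` -/
def words : ℕ → List (List Bool)
  | 0 => []
  | k + 1 => [] :: (words k).flatMap (fun b => [false :: b, true :: b])

theorem mem_words {k : ℕ} {b : List Bool} : b ∈ words k ↔ b.length < k := by
  induction k generalizing b with
  | zero => simp [words]
  | succ k ih =>
    rw [words, List.mem_cons, List.mem_flatMap]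
    cases b with
    | nil => simp
    | cons s b =>
      constructor
      · rintro (h | ⟨b', h1, h2⟩)
        · simp at h
        · rw [ih] at h1
          have : b = b' := by
            simp only [List.mem_cons, List.cons.injEq, List.not_mem_nil, or_false] at h2
            rcases h2 with h2 | h2 <;> exact h2.2
          subst this
          simp only [List.length_cons]
          omega
      · intro h
        refine Or.inr ⟨b, ih.2 (by simp only [List.length_cons] at h; omega), ?_⟩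
        cases s <;> simp

theorem nodup_words (k : ℕ) : (words k).Nodup := by
  induction k with
  | zero => simp [words]
  | succ k ih =>
    rw [words, List.nodup_cons, List.nodup_flatMap]
    refine ⟨?_, ?_, ?_⟩
    · rw [List.mem_flatMap]
      rintro ⟨b, -, h⟩
      simp at h
    · intro b _
      simp
    · refine ih.imp (fun {b b'} hbb' => ?_)
      intro x hx hx'
      simp only [List.mem_cons, List.not_mem_nil, or_false] at hx hx'
      rcases hx with rfl | rfl <;> rcases hx' with h | h <;>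
        simp only [List.cons.injEq, Bool.false_eq_true, Bool.true_eq_false, false_and,
          true_and] at h
      · exact hbb' h
      · exact hbb' h

variable (t : ℕ)

/-- the vertices of the `z`-branch -/
def vTau : List Vx := (List.range (t - 1)).map Vx.tau

def vZ : List Vx := (List.range (t - 2)).flatMap (fun i => (words (t - 1)).map (Vx.g (.z i)))

/-- the vertices of a variable -/
def vA (q : Cl) : List Vx :=
  .mem q 0 :: .mem q 1 :: .mem q 2 ::
    ((words (t - 1)).map (.g (.a q)) ++ (words (t - 2)).map (.g (.b q)))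

/-- the vertices of a clause -/
def vC (c : Cn) : List Vx :=
  .w c :: ((words (t - 4)).map (.g (.w c false)) ++ (words (t - 4)).map (.g (.w c true)))

/-- all vertices -/
def allV (I : Ins) : List Vx :=
  (vTau t ++ vZ t) ++ (I.As.flatMap (vA t) ++ I.Cs.flatMap (vC t))

variable {t}

theorem mem_vTau {v : Vx} : v ∈ vTau t ↔ ∃ i < t - 1, v = .tau i := by
  unfold vTau
  rw [List.mem_map]
  constructor
  · rintro ⟨i, h, rfl⟩; exact ⟨i, List.mem_range.1 h, rfl⟩
  · rintro ⟨i, h, rfl⟩; exact ⟨i, List.mem_range.2 h, rfl⟩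

theorem mem_map_Vg {n : GN} {k : ℕ} {v : Vx} :
    v ∈ (words k).map (Vx.g n) ↔ ∃ b, b.length < k ∧ v = .g n b := by
  rw [List.mem_map]
  constructor
  · rintro ⟨b, h, rfl⟩; exact ⟨b, mem_words.1 h, rfl⟩
  · rintro ⟨b, h, rfl⟩; exact ⟨b, mem_words.2 h, rfl⟩

theorem mem_vZ {v : Vx} : v ∈ vZ t ↔ ∃ i < t - 2, ∃ b, b.length < t - 1 ∧ v = .g (.z i) b := by
  unfold vZ
  rw [List.mem_flatMap]
  simp only [mem_map_Vg, List.mem_range]

theorem mem_vA {q : Cl} {v : Vx} : v ∈ vA t q ↔ (∃ s < 3, v = .mem q s) ∨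
    (∃ b, b.length < t - 1 ∧ v = .g (.a q) b) ∨ (∃ b, b.length < t - 2 ∧ v = .g (.b q) b) := by
  unfold vA
  rw [List.mem_cons, List.mem_cons, List.mem_cons, List.mem_append, mem_map_Vg, mem_map_Vg]
  constructor
  · rintro (h | h | h | h | h)
    · exact Or.inl ⟨0, by omega, h⟩
    · exact Or.inl ⟨1, by omega, h⟩
    · exact Or.inl ⟨2, by omega, h⟩
    · exact Or.inr (Or.inl h)
    · exact Or.inr (Or.inr h)
  · rintro (⟨s, hs, h⟩ | h | h)
    · have hs' : s = 0 ∨ s = 1 ∨ s = 2 := by omega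
      rcases hs' with rfl | rfl | rfl
      · exact Or.inl h
      · exact Or.inr (Or.inl h)
      · exact Or.inr (Or.inr (Or.inl h))
    · exact Or.inr (Or.inr (Or.inr (Or.inl h)))
    · exact Or.inr (Or.inr (Or.inr (Or.inr h)))

theorem mem_vC {c : Cn} {v : Vx} : v ∈ vC t c ↔ v = .w c ∨
    ∃ e b, b.length < t - 4 ∧ v = .g (.w c e) b := by
  unfold vC
  rw [List.mem_cons, List.mem_append, mem_map_Vg, mem_map_Vg]
  constructor
  · rintro (h | ⟨b, h⟩ | ⟨b, h⟩)
    · exact Or.inl h
    · exact Or.inr ⟨_, b, h⟩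
    · exact Or.inr ⟨_, b, h⟩
  · rintro (h | ⟨e, b, h⟩)
    · exact Or.inl h
    · cases e
      · exact Or.inr (Or.inl ⟨b, h⟩)
      · exact Or.inr (Or.inr ⟨b, h⟩)

theorem mem_allV (ht : 4 ≤ t) {I : Ins} {v : Vx} : v ∈ allV t I ↔ okV t I v := by
  unfold allV
  simp only [List.mem_append, mem_vTau, mem_vZ, List.mem_flatMap, mem_vA, mem_vC]
  cases v with
  | tau i =>
    simp only [Vx.tau.injEq, exists_eq_right', reduceCtorEq, and_false, exists_false, or_false,
      okV]
    omega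
  | mem q s =>
    simp only [reduceCtorEq, and_false, exists_false, Vx.mem.injEq, false_or, or_false, okV]
    constructor
    · rintro ⟨q', h1, s', h2, rfl, rfl⟩; exact ⟨h1, h2⟩
    · rintro ⟨h1, h2⟩; exact ⟨q, h1, s, h2, rfl, rfl⟩
  | w c =>
    simp only [reduceCtorEq, and_false, exists_false, Vx.w.injEq, false_or, or_false, okV]
    constructor
    · rintro ⟨c', h1, rfl⟩; exact h1
    · intro h; exact ⟨c, h, rfl⟩
  | g n b =>
    simp only [reduceCtorEq, and_false, exists_false, Vx.g.injEq, false_or, okV]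
    constructor
    · rintro (⟨i, h1, b', h2, rfl, rfl⟩ | ⟨q, h1, ⟨b', h2, rfl, rfl⟩ | ⟨b', h2, rfl, rfl⟩⟩ |
        ⟨c, h1, e, b', h2, rfl, rfl⟩)
      · exact ⟨h1, h2⟩
      · exact ⟨h1, h2⟩
      · exact ⟨h1, h2⟩
      · exact ⟨h1, h2⟩
    · rintro ⟨h1, h2⟩
      cases n with
      | z i => exact Or.inl ⟨i, h1, b, h2, rfl, rfl⟩
      | a q => exact Or.inr (Or.inl ⟨q, h1, Or.inl ⟨b, h2, rfl, rfl⟩⟩)
      | b q => exact Or.inr (Or.inl ⟨q, h1, Or.inr ⟨b, h2, rfl, rfl⟩⟩)
      | w c e => exact Or.inr (Or.inr ⟨c, h1, e, b, h2, rfl, rfl⟩)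

theorem nodup_Vg {n : GN} {k : ℕ} : ((words k).map (Vx.g n)).Nodup :=
  (nodup_words k).map (fun a b hab => by simpa using hab)

theorem nodup_vA (q : Cl) : (vA t q).Nodup := by
  unfold vA
  rw [List.nodup_cons, List.nodup_cons, List.nodup_cons, List.nodup_append]
  refine ⟨by simp, by simp, by simp, nodup_Vg, nodup_Vg, fun x hx y hy hxy => ?_⟩
  obtain ⟨b, -, rfl⟩ := mem_map_Vg.1 hx
  obtain ⟨b', -, rfl⟩ := mem_map_Vg.1 hy
  simp at hxy

theorem nodup_vC (c : Cn) : (vC t c).Nodup := by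
  unfold vC
  rw [List.nodup_cons, List.nodup_append]
  refine ⟨by simp, nodup_Vg, nodup_Vg, fun x hx y hy hxy => ?_⟩
  obtain ⟨b, -, rfl⟩ := mem_map_Vg.1 hx
  obtain ⟨b', -, rfl⟩ := mem_map_Vg.1 hy
  simp at hxy

theorem nodup_allV {I : Ins} (hA : I.As.Nodup) (hC : I.Cs.Nodup) : (allV t I).Nodup := by
  unfold allV
  rw [List.nodup_append, List.nodup_append, List.nodup_append]
  refine ⟨⟨?_, ?_, ?_⟩, ⟨?_, ?_, ?_⟩, ?_⟩
  · exact List.nodup_range.map (fun a b hab => by simpa using hab)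
  · unfold vZ
    rw [List.nodup_flatMap]
    refine ⟨fun i _ => nodup_Vg, List.nodup_range.imp (fun {i j} hij => ?_)⟩
    intro x hx hx'
    obtain ⟨b, -, rfl⟩ := mem_map_Vg.1 hx
    obtain ⟨b', -, h⟩ := mem_map_Vg.1 hx'
    simp only [Vx.g.injEq, GN.z.injEq] at h
    exact hij h.1
  · intro x hx y hy hxy
    obtain ⟨i, -, rfl⟩ := mem_vTau.1 hx
    obtain ⟨j, -, b, -, rfl⟩ := mem_vZ.1 hy
    simp at hxy
  · rw [List.nodup_flatMap]
    refine ⟨fun q _ => nodup_vA q, hA.imp (fun {q q'} hqq => ?_)⟩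
    intro x hx hx'
    rcases mem_vA.1 hx with ⟨s, -, rfl⟩ | ⟨b, -, rfl⟩ | ⟨b, -, rfl⟩ <;>
      rcases mem_vA.1 hx' with ⟨s', -, h⟩ | ⟨b', -, h⟩ | ⟨b', -, h⟩ <;>
      simp only [Vx.mem.injEq, Vx.g.injEq, GN.a.injEq, GN.b.injEq, reduceCtorEq, false_and] at h
    · exact hqq h.1
    · exact hqq h.1
    · exact hqq h.1
  · rw [List.nodup_flatMap]
    refine ⟨fun q _ => nodup_vC q, hC.imp (fun {q q'} hqq => ?_)⟩
    intro x hx hx'
    rcases mem_vC.1 hx with rfl | ⟨e, b, -, rfl⟩ <;>
      rcases mem_vC.1 hx' with h | ⟨e', b', -, h⟩ <;>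
      simp only [Vx.w.injEq, Vx.g.injEq, GN.w.injEq, reduceCtorEq] at h
    · exact hqq h
    · exact hqq h.1.1
  · intro x hx y hy hxy
    subst hxy
    obtain ⟨q, -, hx⟩ := List.mem_flatMap.1 hx
    obtain ⟨c, -, hy⟩ := List.mem_flatMap.1 hy
    rcases mem_vA.1 hx with ⟨s, -, rfl⟩ | ⟨b, -, rfl⟩ | ⟨b, -, rfl⟩ <;>
      rcases mem_vC.1 hy with h | ⟨e', b', -, h⟩ <;> simp at h
  · intro x hx y hy hxy
    subst hxy
    have h1 : (∃ i, x = .tau i) ∨ ∃ i b, x = .g (.z i) b := by
      rcases List.mem_append.1 hx with h | h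
      · obtain ⟨i, -, rfl⟩ := mem_vTau.1 h; exact Or.inl ⟨i, rfl⟩
      · obtain ⟨i, -, b, -, rfl⟩ := mem_vZ.1 h; exact Or.inr ⟨i, b, rfl⟩
    rcases List.mem_append.1 hy with h | h
    · obtain ⟨q, -, h⟩ := List.mem_flatMap.1 h
      rcases h1 with ⟨i, rfl⟩ | ⟨i, b, rfl⟩ <;>
        rcases mem_vA.1 h with ⟨s, -, h⟩ | ⟨b, -, h⟩ | ⟨b, -, h⟩ <;> simp at h
    · obtain ⟨c, -, h⟩ := List.mem_flatMap.1 h
      rcases h1 with ⟨i, rfl⟩ | ⟨i, b, rfl⟩ <;>
        rcases mem_vC.1 h with h | ⟨e, b', -, h⟩ <;> simp at h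

/-- The host tree is finite. -/
theorem finite_HW (ht : 4 ≤ t) {I : Ins} (hI : I.Good) : Finite (HW t I) := by
  have h1 : {n : Nd | okN t I n} ⊆ {n | n ∈ (allV t I).flatMap (P t I)} := by
    intro n hn
    have h2 : ∃ v, okV t I v ∧ Inc t I n v := by
      cases n with
      | q i => exact ⟨.tau 0, Nat.zero_le _, Or.inl rfl⟩
      | k c => exact ⟨.w c, hn, rfl⟩
      | g n b => exact ⟨.g n b, hn, Or.inl rfl⟩
    obtain ⟨v, hv, hi⟩ := h2
    exact List.mem_flatMap.2 ⟨v, (mem_allV ht).2 hv, (mem_P ht hI hv).2 ⟨hn, hi⟩⟩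
  exact (Set.Finite.subset (List.finite_toSet _) h1).to_subtype

/-- The intersection graph of a list of lists. -/
def interG {ν : Type} (l : List (List ν)) : SimpleGraph (Fin l.length) where
  Adj i j := i ≠ j ∧ ∃ n, n ∈ l[i] ∧ n ∈ l[j]
  symm := ⟨fun _ _ h => ⟨h.1.symm, h.2.imp (fun _ h => ⟨h.2, h.1⟩)⟩⟩
  loopless := ⟨fun _ h => h.1 rfl⟩

/-- the list of the paths, with names for the nodes -/
def pathList {ν : Type} (t : ℕ) (I : Ins) (code : Nd → ν) : List (List ν) :=
  (allV t I).map (fun v => (P t I v).map code)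

/-- The intersection graph of the list of the paths is the graph of the reduction. -/
noncomputable def layout (ht : 4 ≤ t) {I : Ins} (hI : I.Good) (hA : I.As.Nodup)
    (hC : I.Cs.Nodup) {ν : Type} {code : Nd → ν} (hc : Function.Injective code) :
    Layout t I (interG (pathList t I code)) := by
  classical
  have hlen : (pathList t I code).length = (allV t I).length := by
    unfold pathList; rw [List.length_map]
  have h0 : Vx.tau 0 ∈ allV t I := (mem_allV ht).2 (Nat.zero_le _)
  have hnd := nodup_allV (t := t) hA hC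
  let f : Fin (pathList t I code).length → Fin (allV t I).length := Fin.cast hlen
  let vx : Vx → Fin (pathList t I code).length := fun l =>
    if h : l ∈ allV t I then ⟨(allV t I).idxOf l, by
      rw [hlen]; exact List.idxOf_lt_length_iff.2 h⟩
    else ⟨0, by rw [hlen]; exact List.length_pos_of_mem h0⟩
  have hlab : ∀ l, okV t I l → (allV t I)[f (vx l)] = l := by
    intro l hl
    have h := (mem_allV ht).2 hl
    simp only [vx, dif_pos h, f, Fin.cast_mk, Fin.getElem_fin]
    exact List.getElem_idxOf (List.idxOf_lt_length_iff.2 h)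
  refine ⟨fun i => (allV t I)[f i], vx, fun i => (mem_allV ht).1 (List.getElem_mem _), hlab,
    fun i => ?_, fun i j => ?_⟩
  · have h1 := hlab _ ((mem_allV ht).1 (List.getElem_mem (f i).2))
    have h2 := (List.Nodup.getElem_inj_iff hnd (hi := (f (vx (allV t I)[f i])).2)
      (hj := (f i).2)).1 h1
    exact Fin.ext h2
  · change (i ≠ j ∧ ∃ n, n ∈ (pathList t I code)[i] ∧ n ∈ (pathList t I code)[j]) ↔ _
    refine and_congr_right (fun _ => ?_)
    have h1 : ∀ i : Fin (pathList t I code).length, (pathList t I code)[i] =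
        (P t I (allV t I)[f i]).map code := by
      intro i
      exact List.getElem_map (fun v => (P t I v).map code)
    rw [h1, h1]
    have hoi : okV t I (allV t I)[f i] := (mem_allV ht).1 (List.getElem_mem _)
    have hoj : okV t I (allV t I)[f j] := (mem_allV ht).1 (List.getElem_mem _)
    constructor
    · rintro ⟨n, h2, h3⟩
      obtain ⟨m, h4, rfl⟩ := List.mem_map.1 h2
      obtain ⟨m', h5, h6⟩ := List.mem_map.1 h3
      have := hc h6
      subst this
      rw [mem_P ht hI hoi] at h4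
      rw [mem_P ht hI hoj] at h5
      exact ⟨m', h4.1, h4.2, h5.2⟩
    · rintro ⟨n, h2, h3, h4⟩
      exact ⟨code n, List.mem_map.2 ⟨n, (mem_P ht hI hoi).2 ⟨h2, h3⟩, rfl⟩,
        List.mem_map.2 ⟨n, (mem_P ht hI hoj).2 ⟨h2, h4⟩, rfl⟩⟩

/-- The properties of the graph of the reduction. -/
theorem reduction (ht : 4 ≤ t) {I : Ins} (hI : I.Good) (hA : I.As.Nodup)
    (hC : I.Cs.Nodup) {ν : Type} {code : Nd → ν} (hc : Function.Injective code) :
    (interG (pathList t I code)).Connected ∧ IsPathGraph (interG (pathList t I code)) ∧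
      (HasTreeSpanner (interG (pathList t I code)) t ↔ I.Sat) := by
  have Λ := layout ht hI hA hC hc
  have := finite_HW ht hI
  exact ⟨Λ.connected ht hI, Λ.isPathGraph ht hI, sound ht hI Λ, complete ht hI Λ⟩

end Pool.Agent.Spanner
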