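import Pool.Agent.Lib_MP_b5064f_lc.Tree

set_option autoImplicit false

/-!
# The gadget

The gadget with `k` levels between `x` and `y` has a vertex `c b` for every word `b` of length
less than `k`. The vertex `c b` is adjacent to a left neighbour `lv b` and a right neighbour
`rv b`, and the words `false :: b` and `true :: b` stand between `lv b` and `c b`, and between
`c b` and `rv b`.
-/

namespace Pool.Agent.Spanner

open SimpleGraph

/-- the word of the left neighbour -/
def L : List Bool → Option (List Bool)
  | [] => none
  | false :: b => L b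
  | true :: b => some b

/-- the word of the right neighbour -/
def R : List Bool → Option (List Bool)
  | [] => none
  | true :: b => R b
  | false :: b => some b

theorem L_suffix {b h : List Bool} (hb : b <:+ h) :
    L h = L b ∨ ∃ h', L h = some h' ∧ b <:+ h' := by
  induction h with
  | nil =>
    have : b = [] := by simpa using hb
    subst this
    exact Or.inl rfl
  | cons s h ih =>
    rcases List.suffix_cons_iff.1 hb with rfl | hb'
    · exact Or.inl rfl
    · cases s with
      | false => exact ih hb'
      | true => exact Or.inr ⟨h, rfl, hb'⟩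

theorem R_suffix {b h : List Bool} (hb : b <:+ h) :
    R h = R b ∨ ∃ h', R h = some h' ∧ b <:+ h' := by
  induction h with
  | nil =>
    have : b = [] := by simpa using hb
    subst this
    exact Or.inl rfl
  | cons s h ih =>
    rcases List.suffix_cons_iff.1 hb with rfl | hb'
    · exact Or.inl rfl
    · cases s with
      | true => exact ih hb'
      | false => exact Or.inr ⟨h, rfl, hb'⟩

theorem L_some {h w : List Bool} (hw : L h = some w) : w <:+ h ∧ w.length < h.length := by
  induction h with
  | nil => exact absurd hw (by simp [L])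
  | cons s h ih =>
    cases s with
    | false =>
      have := ih hw
      exact ⟨this.1.trans (List.suffix_cons _ _), by simp; omega⟩
    | true =>
      have : w = h := by simpa [L] using hw.symm
      subst this
      exact ⟨List.suffix_cons _ _, by simp⟩

theorem R_some {h w : List Bool} (hw : R h = some w) : w <:+ h ∧ w.length < h.length := by
  induction h with
  | nil => exact absurd hw (by simp [R])
  | cons s h ih =>
    cases s with
    | true =>
      have := ih hw
      exact ⟨this.1.trans (List.suffix_cons _ _), by simp; omega⟩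
    | false =>
      have : w = h := by simpa [R] using hw.symm
      subst this
      exact ⟨List.suffix_cons _ _, by simp⟩

variable {V : Type}

/-! ### Leaving a region along parents -/

section

variable {G : SimpleGraph V} {ρ : V} {p : V → V} {d : V → ℕ}

theorem exit (hp : IsParent G ρ p d) {S : Set V} (hρ : ρ ∉ S) {x : V} (hx : x ∈ S) :
    ∃ n, p^[n + 1] x ∉ S ∧ ∀ j ≤ n, p^[j] x ∈ S := by
  induction hn : d x using Nat.strong_induction_on generalizing x with
  | _ m ih =>
    by_cases h : p x ∈ S
    · have h1 : d (p x) < m := by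
        rw [← hn]
        exact hp.depth x (by rintro rfl; exact hρ hx)
      obtain ⟨n, h2, h3⟩ := ih _ h1 h rfl
      refine ⟨n + 1, h2, fun j hj => ?_⟩
      cases j with
      | zero => exact hx
      | succ j => exact h3 j (by omega)
    · exact ⟨0, h, fun j hj => by
        have : j = 0 := by omega
        subst this; exact hx⟩

theorem exit_adj (hp : IsParent G ρ p d) {S : Set V} (hρ : ρ ∉ S) {x : V} {n : ℕ}
    (h2 : ∀ j ≤ n, p^[j] x ∈ S) : G.Adj (p^[n] x) (p^[n + 1] x) := by
  rw [Function.iterate_succ_apply']
  exact hp.adj _ (fun h => hρ (h ▸ h2 n le_rfl))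

/-- A chain of parents does not enter a region whose attachments have their parents outside. -/
theorem stays (hp : IsParent G ρ p d) {S : Set V} (hρ : ρ ∉ S) {Att : Set V}
    (hcl : ∀ z ∈ S, ∀ y ∉ S, G.Adj z y → y ∈ Att) (hAtt : ∀ a ∈ Att, p a ∉ S) {x : V}
    (hx : x ∉ S) (j : ℕ) : p^[j] x ∉ S := by
  induction j with
  | zero => exact hx
  | succ j ih =>
    rw [Function.iterate_succ_apply']
    intro h
    by_cases hr : p^[j] x = ρ
    · rw [hr, hp.root] at h
      exact hρ h
    · have h1 := hp.adj _ hr
      exact hAtt _ (hcl _ h _ ih h1.symm) h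

/-- No vertex is its own ancestor, except for the root. -/
theorem iterate_ne (hp : IsParent G ρ p d) {x : V} (hx : x ≠ ρ) (n : ℕ) : p^[n + 1] x ≠ x := by
  have key : ∀ n, p^[n + 1] x = ρ ∨ d (p^[n + 1] x) < d x := by
    intro n
    induction n with
    | zero => exact Or.inr (hp.depth x hx)
    | succ n ih =>
      rw [Function.iterate_succ_apply']
      rcases ih with h | h
      · left; rw [h, hp.root]
      · by_cases hr : p^[n + 1] x = ρ
        · left; rw [hr, hp.root]
        · right
          have := hp.depth _ hr
          omega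
  intro h
  rcases key n with h1 | h1
  · exact hx (h ▸ h1)
  · rw [h] at h1; omega

end

/-! ### The gadget -/

/-- the left vertex at a word -/
def lv (x : V) (c : List Bool → V) (b : List Bool) : V := (L b).elim x c

/-- the right vertex at a word -/
def rv (y : V) (c : List Bool → V) (b : List Bool) : V := (R b).elim y c

/-- the bag at a word -/
def bag (x y : V) (M : Set V) (c : List Bool → V) (b : List Bool) : Set V :=
  {v | v = c b ∨ v = lv x c b ∨ v = rv y c b ∨ (L b = none ∧ v ∈ M)}

/-- the attachments of the part of the gadget at a word -/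
def att (x y : V) (M : Set V) (c : List Bool → V) (b : List Bool) : Set V :=
  {v | v = lv x c b ∨ v = rv y c b ∨ (L b = none ∧ v ∈ M)}

/-- the part of the gadget at a word -/
def sub (k : ℕ) (c : List Bool → V) (b : List Bool) : Set V :=
  {v | ∃ w, b <:+ w ∧ w.length < k ∧ v = c w}

/-- The structure of a gadget in a graph. -/
structure IsGad (G : SimpleGraph V) (k : ℕ) (x y : V) (M : Set V) (c : List Bool → V) : Prop where
  inj : ∀ b b', b.length < k → b'.length < k → c b = c b' → b = b'
  ne_x : ∀ b, b.length < k → c b ≠ x
  ne_y : ∀ b, b.length < k → c b ≠ y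
  notMem : ∀ b, b.length < k → c b ∉ M
  adj : ∀ b v, b.length < k → G.Adj (c b) v →
    ∃ h, h.length < k ∧ c b ∈ bag x y M c h ∧ v ∈ bag x y M c h

section

variable {G : SimpleGraph V} {ρ : V} {p : V → V} {d : V → ℕ} {k : ℕ} {x y : V} {M : Set V}
  {c : List Bool → V}

theorem IsGad.mem_bag (hg : IsGad G k x y M c) {b h : List Bool} (hb : b.length < k)
    (hh : h.length < k) (hm : c b ∈ bag x y M c h) : b <:+ h := by
  rcases hm with h1 | h1 | h1 | ⟨-, h1⟩
  · rw [hg.inj b h hb hh h1]
  · unfold lv at h1
    cases hL : L h with
    | none => rw [hL] at h1; exact absurd h1 (hg.ne_x b hb)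
    | some w =>
      rw [hL] at h1
      have h2 := L_some hL
      rw [hg.inj b w hb (by omega) h1]
      exact h2.1
  · unfold rv at h1
    cases hR : R h with
    | none => rw [hR] at h1; exact absurd h1 (hg.ne_y b hb)
    | some w =>
      rw [hR] at h1
      have h2 := R_some hR
      rw [hg.inj b w hb (by omega) h1]
      exact h2.1
  · exact absurd h1 (hg.notMem b hb)

theorem bag_sub {b h : List Bool} (hb : b <:+ h) (hh : h.length < k) {v : V}
    (hv : v ∈ bag x y M c h) : v ∈ sub k c b ∨ v ∈ att x y M c b := by
  rcases hv with h1 | h1 | h1 | ⟨h0, h1⟩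
  · exact Or.inl ⟨h, hb, hh, h1⟩
  · unfold lv at h1
    rcases L_suffix hb with h2 | ⟨h', h2, h3⟩
    · rw [h2] at h1
      exact Or.inr (Or.inl h1)
    · rw [h2] at h1
      have := L_some h2
      exact Or.inl ⟨h', h3, by omega, h1⟩
  · unfold rv at h1
    rcases R_suffix hb with h2 | ⟨h', h2, h3⟩
    · rw [h2] at h1
      exact Or.inr (Or.inr (Or.inl h1))
    · rw [h2] at h1
      have := R_some h2
      exact Or.inl ⟨h', h3, by omega, h1⟩
  · rcases L_suffix hb with h2 | ⟨h', h2, h3⟩
    · exact Or.inr (Or.inr (Or.inr ⟨by rw [← h2]; exact h0, h1⟩))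
    · rw [h0] at h2; exact absurd h2 (by simp)

/-- The neighbours of a part of the gadget. -/
theorem IsGad.closed (hg : IsGad G k x y M c) (b : List Bool) :
    ∀ z ∈ sub k c b, ∀ v ∉ sub k c b, G.Adj z v → v ∈ att x y M c b := by
  rintro z ⟨w, hw, hwk, rfl⟩ v hv hadj
  obtain ⟨h, hh, h1, h2⟩ := hg.adj w v hwk hadj
  have h3 := hg.mem_bag hwk hh h1
  rcases bag_sub (hw.trans h3) hh h2 with h4 | h4
  · exact absurd h4 hv
  · exact h4

/-- If the attachments of a gadget have their parents outside of the gadget, then a left
attachment is near the right attachment. -/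
theorem IsGad.near {t : ℕ} (hk : k ≤ t) (hp : IsParent G ρ p d) (hg : IsGad G k x y M c)
    (hρ : ∀ b, b.length < k → c b ≠ ρ)
    (h0 : Near p t x y)
    (hN : ∀ h u v, h.length < k → u ∈ bag x y M c h → v ∈ bag x y M c h → Near p t u v) :
    ∀ (n : ℕ) (b : List Bool), b.length + n = k → (∀ a ∈ att x y M c b, p a ∉ sub k c b) →
      ∃ a i j, (a = lv x c b ∨ (L b = none ∧ a ∈ M)) ∧ i + j + n ≤ t ∧
        p^[i] a = p^[j] (rv y c b) := by
  intro n
  induction n with
  | zero =>
    intro b hb _
    have h1 : Near p t (lv x c b) (rv y c b) := by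
      cases b with
      | nil => exact h0
      | cons s b =>
        have hlen : b.length < k := by simp at hb; omega
        refine hN b _ _ hlen ?_ ?_
        · cases s with
          | false => exact Or.inr (Or.inl rfl)
          | true => exact Or.inl rfl
        · cases s with
          | true => exact Or.inr (Or.inr (Or.inl rfl))
          | false => exact Or.inl rfl
    obtain ⟨i, j, h2, h3⟩ := h1
    exact ⟨_, i, j, Or.inl rfl, by omega, h3⟩
  | succ n ih =>
    intro b hb hatt
    have hbk : b.length < k := by omega
    have hS : ρ ∉ sub k c b := by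
      rintro ⟨w, -, hw, h⟩
      exact hρ w hw h.symm
    have hcb : c b ∈ sub k c b := ⟨b, List.suffix_rfl, hbk, rfl⟩
    obtain ⟨m, hm1, hm2⟩ := exit hp hS hcb
    have hm3 := hg.closed b _ (hm2 m le_rfl) _ hm1 (exit_adj hp hS hm2)
    have hsub : ∀ s, sub k c (s :: b) ⊆ sub k c b := by
      rintro s v ⟨w, h1, h2, h3⟩
      exact ⟨w, (List.suffix_cons s b).trans h1, h2, h3⟩
    have hcρ : c b ≠ ρ := hρ b hbk
    have hnotatt : ∀ a ∈ att x y M c b, a ∉ sub k c b := by
      rintro a ha ⟨w, hw, hwk, rfl⟩
      rcases ha with h1 | h1 | ⟨-, h1⟩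
      · unfold lv at h1
        cases hL : L b with
        | none => rw [hL] at h1; exact hg.ne_x w hwk h1
        | some w' =>
          rw [hL] at h1
          have h2 := L_some hL
          have h3 := hg.inj w w' hwk (by omega) h1
          have h4 := hw.length_le
          rw [h3] at h4
          omega
      · unfold rv at h1
        cases hR : R b with
        | none => rw [hR] at h1; exact hg.ne_y w hwk h1
        | some w' =>
          rw [hR] at h1
          have h2 := R_some hR
          have h3 := hg.inj w w' hwk (by omega) h1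
          have h4 := hw.length_le
          rw [h3] at h4
          omega
      · exact hg.notMem w hwk h1
    have hstay : ∀ a ∈ att x y M c b, ∀ j, p^[j] a ∉ sub k c b := fun a ha j =>
      stays hp hS (hg.closed b) hatt (hnotatt a ha) j
    -- if `p (c b)` lies in the part at `s :: b`, then the exit is an attachment of that part
    have hexit : ∀ s, p (c b) ∈ sub k c (s :: b) → p^[m + 1] (c b) ∈ att x y M c (s :: b) ∧
        p^[m + 1] (c b) ≠ c b := by
      intro s hs
      have hS' : ρ ∉ sub k c (s :: b) := fun h => hS (hsub s h)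
      obtain ⟨m', h1, h2⟩ := exit hp hS' hs
      have h3 := hg.closed (s :: b) _ (h2 m' le_rfl) _ h1 (exit_adj hp hS' h2)
      have h4 : p^[m' + 1] (p (c b)) ≠ c b := by
        have := iterate_ne hp hcρ (m' + 1)
        rwa [Function.iterate_succ_apply] at this
      -- this attachment is outside of the part at `b`
      have h5 : p^[m' + 1] (p (c b)) ∉ sub k c b := by
        intro h6
        rcases h3 with h7 | h7 | ⟨-, h7⟩
        · cases s with
          | false =>
            exact hnotatt _ (Or.inl rfl) (h7 ▸ h6)
          | true => exact h4 h7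
        · cases s with
          | true => exact hnotatt _ (Or.inr (Or.inl rfl)) (h7 ▸ h6)
          | false => exact h4 h7
        · obtain ⟨w, -, hwk, h8⟩ := h6
          exact hg.notMem w hwk (h8 ▸ h7)
      have h6 : m = m' + 1 := by
        rw [← Function.iterate_succ_apply] at h5
        have h7 : m + 1 ≤ m' + 2 := by
          by_contra hcon
          exact h5 (hm2 (m' + 2) (by omega))
        have h8 : m' + 1 ≤ m := by
          by_contra hcon
          apply hm1
          have h9 := h2 m (by omega)
          rw [← Function.iterate_succ_apply] at h9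
          exact hsub s h9
        omega
      rw [← Function.iterate_succ_apply, Nat.succ_eq_add_one, ← h6] at h3 h4
      exact ⟨h3, h4⟩
    have hiter : ∀ i, m + 1 ≤ i → p^[i] (c b) = p^[i - (m + 1)] (p^[m + 1] (c b)) := by
      intro i hi
      rw [← Function.iterate_add_apply]
      congr 1
      omega
    by_cases htr : ∃ a, (a = lv x c b ∨ (L b = none ∧ a ∈ M)) ∧ a = rv y c b
    · obtain ⟨a, h1, h2⟩ := htr
      exact ⟨a, 0, 0, h1, by omega, h2⟩
    have hm4 : (p^[m + 1] (c b) = lv x c b ∨ (L b = none ∧ p^[m + 1] (c b) ∈ M)) ∨
        p^[m + 1] (c b) = rv y c b := by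
      rcases hm3 with h1 | h1 | h1
      · exact Or.inl (Or.inl h1)
      · exact Or.inr h1
      · exact Or.inl (Or.inr h1)
    rcases hm4 with hl | hr
    · -- exit on the left
      obtain ⟨a, i, j, ha, hij, heq⟩ := ih (true :: b) (by simp; omega) (by
        rintro a (h2 | h2 | ⟨h2, -⟩)
        · have h2' : a = c b := h2
          subst h2'
          intro hmem
          obtain ⟨h3, h4⟩ := hexit true hmem
          rcases h3 with h5 | h5 | ⟨h5, -⟩
          · exact h4 h5
          · exact htr ⟨_, hl, h5⟩
          · exact absurd h5 (by simp [L])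
        · have h2' : a = rv y c b := h2
          exact fun hmem => hatt a (Or.inr (Or.inl h2')) (hsub true hmem)
        · exact absurd h2 (by simp [L]))
      rcases ha with ha | ⟨ha, -⟩
      · have ha' : a = c b := ha
        subst ha'
        have heq' : p^[i] (c b) = p^[j] (rv y c b) := heq
        have hi : m + 1 ≤ i := by
          by_contra hcon
          have h5 := hm2 i (by omega)
          rw [heq'] at h5
          exact hstay _ (Or.inr (Or.inl rfl)) j h5
        rw [hiter i hi] at heq'
        exact ⟨_, i - (m + 1), j, hl, by omega, heq'⟩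
      · exact absurd ha (by simp [L])
    · -- exit on the right
      obtain ⟨a, i, j, ha, hij, heq⟩ := ih (false :: b) (by simp; omega) (by
        rintro a (h2 | h2 | ⟨h2, h2'⟩)
        · have h2' : a = lv x c b := h2
          exact fun hmem => hatt a (Or.inl h2') (hsub false hmem)
        · have h2' : a = c b := h2
          subst h2'
          intro hmem
          obtain ⟨h3, h4⟩ := hexit false hmem
          rcases h3 with h5 | h5 | ⟨h5, h6⟩
          · exact htr ⟨_, Or.inl h5, hr⟩
          · exact h4 h5
          · exact htr ⟨_, Or.inr ⟨h5, h6⟩, hr⟩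
        · exact fun hmem => hatt a (Or.inr (Or.inr ⟨h2, h2'⟩)) (hsub false hmem))
      have ha' : a = lv x c b ∨ (L b = none ∧ a ∈ M) := ha
      have heq' : p^[i] a = p^[j] (c b) := heq
      have haatt : a ∈ att x y M c b := by
        rcases ha' with h | h
        · exact Or.inl h
        · exact Or.inr (Or.inr h)
      have hj : m + 1 ≤ j := by
        by_contra hcon
        have h5 := hm2 j (by omega)
        rw [← heq'] at h5
        exact hstay a haatt i h5
      rw [hiter j hj, hr] at heq'
      exact ⟨a, i, j - (m + 1), ha', by omega, heq'⟩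

/-! ### The gadget in a good tree -/

theorem gad_lr {d0 : ℕ} (h1 : 1 ≤ d0) (hpc : ∀ b, b.length < k → p (c b) = lv x c b)
    (h0 : Near p d0 x y) : ∀ b : List Bool, b.length ≤ k →
      Near p (d0 + b.length) (lv x c b) (rv y c b) := by
  intro b
  induction b with
  | nil => exact fun _ => h0
  | cons s b ih =>
    intro hb
    have hb' : b.length < k := by simp at hb; omega
    cases s with
    | false =>
      change Near p _ (lv x c b) (c b)
      exact ⟨0, 1, by simp; omega, by simp [hpc b hb']⟩
    | true =>
      change Near p _ (c b) (rv y c b)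
      have := ih (by omega)
      rw [← hpc b hb'] at this
      exact this.step.mono (by simp)

/-- The distances in the bags. -/
theorem gad_bag {t d0 : ℕ} (h1 : 1 ≤ d0) (hk : d0 + k ≤ t)
    (hpc : ∀ b, b.length < k → p (c b) = lv x c b) (h0 : Near p d0 x y)
    (hM1 : ∀ m ∈ M, Near p (t - 1) x m) (hM2 : ∀ m ∈ M, Near p t m y)
    (hM3 : ∀ m ∈ M, ∀ m' ∈ M, Near p t m m') (b : List Bool) (hb : b.length < k) :
    ∀ u ∈ bag x y M c b, ∀ v ∈ bag x y M c b, Near p t u v := by
  have hlr := gad_lr h1 hpc h0 b (by omega)
  have hcl : Near p 1 (c b) (lv x c b) := ⟨1, 0, by omega, by simp [hpc b hb]⟩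
  have hcr : Near p (d0 + b.length + 1) (c b) (rv y c b) := by
    rw [← hpc b hb] at hlr
    exact hlr.step
  have hm : L b = none → ∀ m ∈ M, Near p t (lv x c b) m ∧ Near p t (c b) m ∧
      Near p t (rv y c b) m := by
    intro hL m hmM
    have e1 : lv x c b = x := by unfold lv; rw [hL]; rfl
    refine ⟨?_, ?_, ?_⟩
    · rw [e1]; exact (hM1 m hmM).mono (by omega)
    · have h2 := hM1 m hmM
      rw [← e1, ← hpc b hb] at h2
      exact h2.step.mono (by omega)
    · cases b with
      | nil => exact (hM2 m hmM).symm
      | cons s b =>
        cases s with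
        | true => exact absurd hL (by simp [L])
        | false =>
          change Near p t (c b) m
          have hb' : b.length < k := by simp at hb; omega
          have e2 : lv x c b = x := by
            have : L b = none := hL
            unfold lv; rw [this]; rfl
          have h2 := hM1 m hmM
          rw [← e2, ← hpc b hb'] at h2
          exact h2.step.mono (by omega)
  have hcl' := hcl.mono (show 1 ≤ t by omega)
  have hcr' := hcr.mono (show d0 + b.length + 1 ≤ t by omega)
  have hlr' := hlr.mono (show d0 + b.length ≤ t by omega)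
  rintro u (rfl | rfl | rfl | ⟨hu1, hu2⟩) v (rfl | rfl | rfl | ⟨hv1, hv2⟩)
  · exact Near.refl _ _ _
  · exact hcl'
  · exact hcr'
  · exact (hm hv1 v hv2).2.1
  · exact hcl'.symm
  · exact Near.refl _ _ _
  · exact hlr'
  · exact (hm hv1 v hv2).1
  · exact hcr'.symm
  · exact hlr'.symm
  · exact Near.refl _ _ _
  · exact (hm hv1 v hv2).2.2
  · exact (hm hu1 u hu2).2.1.symm
  · exact (hm hu1 u hu2).1.symm
  · exact (hm hu1 u hu2).2.2.symm
  · exact hM3 u hu2 v hv2

end

end Pool.Agent.Spanner
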