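import Pool.Agent.Lib_MP_b5064f_lc.Gadget

set_option autoImplicit false

/-!
# The graph of the reduction
-/

namespace Pool.Agent.Spanner

open SimpleGraph

/-- names of variables -/
abbrev Cl := ℕ × ℕ

/-- names of clauses -/
abbrev Cn := ℕ × ℕ × ℕ

/-- names of gadgets -/
inductive GN
  | z (i : ℕ)
  | a (q : Cl)
  | b (q : Cl)
  | w (c : Cn) (s : Bool)
  deriving DecidableEq

/-- nodes of the host tree -/
inductive Nd
  | q (i : ℕ)
  | k (c : Cn)
  | g (n : GN) (b : List Bool)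
  deriving DecidableEq

/-- vertices -/
inductive Vx
  | tau (i : ℕ)
  | mem (q : Cl) (s : ℕ)
  | w (c : Cn)
  | g (n : GN) (b : List Bool)
  deriving DecidableEq

/-- A formula in which every variable `q` has a positive occurrence `(q, 1)` and two negative
occurrences `(q, 0)` and `(q, 2)`; an occurrence `(q, s)` may be at a position of a clause. -/
structure Ins where
  As : List Cl
  Cs : List Cn
  loc : Cl → ℕ → Option (Cn × ℕ)

/-- The conditions for the formulas. -/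
structure Ins.Good (I : Ins) : Prop where
  mem : ∀ q ∈ I.As, ∀ s c pos, I.loc q s = some (c, pos) → c ∈ I.Cs
  inj : ∀ q s q' s' l, I.loc q s = some l → I.loc q' s' = some l → q = q' ∧ s = s'
  pos : ∀ c ∈ I.Cs, ∀ e : Bool, ∃ q ∈ I.As, ∃ s < 3, I.loc q s = some (c, if e then 1 else 0)
  ne : ∀ q s s' c pos pos', I.loc q s = some (c, pos) → I.loc q s' = some (c, pos') → s = s'

/-- the value of an occurrence -/
def val (σ : Cl → Bool) (q : Cl) (s : ℕ) : Bool := if s = 1 then σ q else !σ q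

/-- satisfiability -/
def Ins.Sat (I : Ins) : Prop :=
  ∃ σ : Cl → Bool, ∀ c ∈ I.Cs, ∃ q ∈ I.As, ∃ s < 3, ∃ pos, I.loc q s = some (c, pos) ∧
    val σ q s = true

variable (t : ℕ)

/-- the levels of the gadgets -/
def kk : GN → ℕ
  | .z _ => t - 1
  | .a _ => t - 1
  | .b _ => t - 2
  | .w _ _ => t - 4

/-- gadgets -/
def okG (I : Ins) : GN → Prop
  | .z i => i < t - 2
  | .a q => q ∈ I.As
  | .b q => q ∈ I.As
  | .w c _ => c ∈ I.Cs

/-- nodes of the host tree -/
def okN (I : Ins) : Nd → Prop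
  | .q i => i ≤ t - 2
  | .k c => c ∈ I.Cs
  | .g n b => okG t I n ∧ b.length < kk t n

/-- vertices -/
def okV (I : Ins) : Vx → Prop
  | .tau i => i ≤ t - 2
  | .mem q s => q ∈ I.As ∧ s < 3
  | .w c => c ∈ I.Cs
  | .g n b => okG t I n ∧ b.length < kk t n

/-- left attachment -/
def isX (I : Ins) : GN → Vx → Prop
  | .z i, v => v = .tau i
  | .a q, v => v = .mem q 0
  | .b q, v => v = .mem q 0
  | .w c e, v => ∃ q s, v = .mem q s ∧ I.loc q s = some (c, if e then 1 else 0)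

/-- right attachment -/
def isY : GN → Vx → Prop
  | .z i, v => v = .tau (i + 1)
  | .a q, v => v = .mem q 1
  | .b q, v => v = .mem q 2
  | .w c _, v => v = .w c

/-- third attachment -/
def isM : GN → Vx → Prop
  | .a q, v => v = .mem q 2
  | _, _ => False

/-- incidence of nodes and vertices -/
def Inc (I : Ins) : Nd → Vx → Prop
  | .q i, .tau j => j = 0 ∨ j = i ∨ j = i + 1
  | .q i, .mem _ _ => i = t - 2
  | .q _, .w _ => False
  | .q _, .g _ _ => False
  | .k _, .tau _ => False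
  | .k c, .mem q s => ∃ pos, I.loc q s = some (c, pos)
  | .k c, .w c' => c' = c
  | .k _, .g _ _ => False
  | .g n b, v => v = .g n b ∨ (∃ b', L b = some b' ∧ v = .g n b') ∨
      (∃ b', R b = some b' ∧ v = .g n b') ∨ (L b = none ∧ isX I n v) ∨ (R b = none ∧ isY n v) ∨
      (L b = none ∧ isM n v)

theorem isX_not_g {I : Ins} {n n' : GN} {b : List Bool} : ¬ isX I n (.g n' b) := by
  cases n <;> simp [isX]

theorem isY_not_g {n n' : GN} {b : List Bool} : ¬ isY n (.g n' b) := by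
  cases n <;> simp [isY]

theorem isM_not_g {n n' : GN} {b : List Bool} : ¬ isM n (.g n' b) := by
  cases n <;> simp [isM]

/-- A graph on `V` is the graph of the reduction: its vertices are labelled with the names of
the vertices, and the adjacency is given by common nodes. -/
structure Layout (I : Ins) {V : Type} (G : SimpleGraph V) where
  lab : V → Vx
  vx : Vx → V
  ok : ∀ v, okV t I (lab v)
  lab_vx : ∀ l, okV t I l → lab (vx l) = l
  vx_lab : ∀ v, vx (lab v) = v
  adj : ∀ u v, G.Adj u v ↔ u ≠ v ∧ ∃ n, okN t I n ∧ Inc t I n (lab u) ∧ Inc t I n (lab v)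

section

variable {t} {I : Ins} {V : Type} {G : SimpleGraph V} (Λ : Layout t I G)

namespace Layout

theorem lab_inj {u v : V} (h : Λ.lab u = Λ.lab v) : u = v := by
  rw [← Λ.vx_lab u, h, Λ.vx_lab]

theorem eq_vx {v : V} {l : Vx} (h : Λ.lab v = l) : v = Λ.vx l := by
  rw [← h, Λ.vx_lab]

theorem vx_inj {l l' : Vx} (h : okV t I l) (h' : okV t I l') (he : Λ.vx l = Λ.vx l') : l = l' := by
  rw [← Λ.lab_vx l h, he, Λ.lab_vx l' h']

/-- a node with a gadget vertex -/
theorem inc_g {n : Nd} {m : GN} {b : List Bool} (h : Inc t I n (.g m b)) :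
    ∃ b', n = .g m b' ∧ (b = b' ∨ L b' = some b ∨ R b' = some b) := by
  cases n with
  | q i => exact h.elim
  | k c => exact h.elim
  | g n b' =>
    rcases h with h | ⟨w, h1, h⟩ | ⟨w, h1, h⟩ | ⟨_, h⟩ | ⟨_, h⟩ | ⟨_, h⟩
    · simp only [Vx.g.injEq] at h
      exact ⟨b', by rw [h.1], Or.inl h.2⟩
    · simp only [Vx.g.injEq] at h
      exact ⟨b', by rw [h.1], Or.inr (Or.inl (by rw [h.2]; exact h1))⟩
    · simp only [Vx.g.injEq] at h
      exact ⟨b', by rw [h.1], Or.inr (Or.inr (by rw [h.2]; exact h1))⟩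
    · exact absurd h isX_not_g
    · exact absurd h isY_not_g
    · exact absurd h isM_not_g

/-- the third attachments -/
def mset (n : GN) : Set V := {v | isM n (Λ.lab v)}

/-- the vertices of a gadget -/
def cv (n : GN) (b : List Bool) : V := Λ.vx (.g n b)

theorem lab_cv {n : GN} (hn : okG t I n) {b : List Bool} (hb : b.length < kk t n) :
    Λ.lab (Λ.cv n b) = .g n b := Λ.lab_vx _ ⟨hn, hb⟩

theorem mem_bag_of_inc {n : GN} {x y : Vx} (hx : ∀ l, isX I n l → l = x)
    (hy : ∀ l, isY n l → l = y) {h : List Bool} {v : V}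
    (hi : Inc t I (.g n h) (Λ.lab v)) :
    v ∈ bag (Λ.vx x) (Λ.vx y) (Λ.mset n) (Λ.cv n) h := by
  rcases hi with h1 | ⟨w, h1, h2⟩ | ⟨w, h1, h2⟩ | ⟨h1, h2⟩ | ⟨h1, h2⟩ | ⟨h1, h2⟩
  · exact Or.inl (Λ.eq_vx h1)
  · refine Or.inr (Or.inl ?_)
    unfold lv
    rw [h1]
    exact Λ.eq_vx h2
  · refine Or.inr (Or.inr (Or.inl ?_))
    unfold rv
    rw [h1]
    exact Λ.eq_vx h2
  · refine Or.inr (Or.inl ?_)
    unfold lv
    rw [h1]
    exact Λ.eq_vx (hx _ h2)
  · refine Or.inr (Or.inr (Or.inl ?_))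
    unfold rv
    rw [h1]
    exact Λ.eq_vx (hy _ h2)
  · exact Or.inr (Or.inr (Or.inr ⟨h1, h2⟩))

theorem inc_of_mem_bag {n : GN} (hn : okG t I n) {x y : Vx} (hx : isX I n x)
    (hy : isY n y) (hxo : okV t I x) (hyo : okV t I y) {h : List Bool}
    (hh : h.length < kk t n) {v : V}
    (hi : v ∈ bag (Λ.vx x) (Λ.vx y) (Λ.mset n) (Λ.cv n) h) :
    Inc t I (.g n h) (Λ.lab v) := by
  rcases hi with h1 | h1 | h1 | ⟨h1, h2⟩
  · exact Or.inl (by rw [h1, Λ.lab_cv hn hh])
  · unfold lv at h1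
    cases hL : L h with
    | none =>
      rw [hL] at h1
      have h1' : v = Λ.vx x := h1
      exact Or.inr (Or.inr (Or.inr (Or.inl ⟨hL, by rw [h1', Λ.lab_vx _ hxo]; exact hx⟩)))
    | some w =>
      rw [hL] at h1
      have h1' : v = Λ.cv n w := h1
      exact Or.inr (Or.inl ⟨w, hL, by rw [h1', Λ.lab_cv hn (by have := L_some hL; omega)]⟩)
  · unfold rv at h1
    cases hR : R h with
    | none =>
      rw [hR] at h1
      have h1' : v = Λ.vx y := h1
      exact Or.inr (Or.inr (Or.inr (Or.inr (Or.inl ⟨hR, by rw [h1', Λ.lab_vx _ hyo]; exact hy⟩))))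
    | some w =>
      rw [hR] at h1
      have h1' : v = Λ.cv n w := h1
      exact Or.inr (Or.inr (Or.inl ⟨w, hR, by rw [h1', Λ.lab_cv hn (by have := R_some hR; omega)]⟩))
  · exact Or.inr (Or.inr (Or.inr (Or.inr (Or.inr ⟨h1, h2⟩))))

/-- The gadgets are gadgets. -/
theorem isGad {n : GN} (hn : okG t I n) {x y : Vx} (hx : isX I n x) (hx' : ∀ l, isX I n l → l = x)
    (hy : isY n y) (hy' : ∀ l, isY n l → l = y) (hxo : okV t I x) (hyo : okV t I y) :
    IsGad G (kk t n) (Λ.vx x) (Λ.vx y) (Λ.mset n) (Λ.cv n) := by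
  refine ⟨fun b b' hb hb' h => ?_, fun b hb h => ?_, fun b hb h => ?_, fun b hb h => ?_,
    fun b v hb hadj => ?_⟩
  · have h1 := congrArg Λ.lab h
    rw [Λ.lab_cv hn hb, Λ.lab_cv hn hb'] at h1
    simpa using h1
  · have h1 := congrArg Λ.lab h
    rw [Λ.lab_cv hn hb, Λ.lab_vx _ hxo] at h1
    rw [← h1] at hx
    exact isX_not_g hx
  · have h1 := congrArg Λ.lab h
    rw [Λ.lab_cv hn hb, Λ.lab_vx _ hyo] at h1
    rw [← h1] at hy
    exact isY_not_g hy
  · unfold mset at h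
    have h' : isM n (Λ.lab (Λ.cv n b)) := h
    rw [Λ.lab_cv hn hb] at h'
    exact isM_not_g h'
  · obtain ⟨-, m, hm, h1, h2⟩ := (Λ.adj _ _).1 hadj
    rw [Λ.lab_cv hn hb] at h1
    obtain ⟨b', rfl, -⟩ := inc_g h1
    refine ⟨b', hm.2, ?_, ?_⟩
    · apply Λ.mem_bag_of_inc hx' hy'
      rw [Λ.lab_cv hn hb]
      exact h1
    · exact Λ.mem_bag_of_inc hx' hy' h2

end Layout

end

end Pool.Agent.Spanner
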