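import Pool.Agent.Lib_MP_b5064f_lc.Paths

set_option autoImplicit false

/-!
# The host tree
-/

namespace Pool.Agent.Spanner

open SimpleGraph

/-- A path representation by lists. -/
theorem isPathGraph_of_lists {V W : Type} [Finite W] {G : SimpleGraph V} {H : SimpleGraph W}
    (hH : H.IsTree) (P : V → List W) (hne : ∀ v, P v ≠ []) (hnd : ∀ v, (P v).Nodup)
    (hch : ∀ v, (P v).IsChain H.Adj)
    (hadj : ∀ u v, G.Adj u v ↔ u ≠ v ∧ ∃ w, w ∈ P u ∧ w ∈ P v) : IsPathGraph G := by
  refine ⟨W, inferInstance, H, fun v => (P v).head (hne v), fun v => (P v).getLast (hne v),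
    fun v => SimpleGraph.Walk.ofSupport (P v) (hne v) (hch v), hH, fun v => ?_, fun u v => ?_⟩
  · apply SimpleGraph.Walk.IsPath.mk'
    rw [SimpleGraph.Walk.support_ofSupport]
    exact hnd v
  · rw [SimpleGraph.Walk.support_ofSupport, SimpleGraph.Walk.support_ofSupport]
    exact hadj u v

variable (t : ℕ)

/-- the node to which a gadget is attached -/
def base : GN → Nd
  | .z i => .q i
  | .a _ => .q (t - 2)
  | .b q => .g (.a q) (List.replicate (t - 2) false)
  | .w c _ => .k c

/-- the parent of a node -/
def par : Nd → Nd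
  | .q i => if i < t - 2 then .q (i + 1) else .q (t - 2)
  | .k _ => .q (t - 2)
  | .g n [] => base t n
  | .g n (_ :: b) => .g n b

/-- depth of a gadget -/
def bdep : GN → ℕ
  | .z i => t - 2 - i
  | .a _ => 0
  | .b _ => t - 1
  | .w _ _ => 1

/-- depth of a node -/
def ndep : Nd → ℕ
  | .q i => t - 2 - i
  | .k _ => 1
  | .g n b => bdep t n + b.length + 1

variable {t}

theorem okN_par (ht : 4 ≤ t) {I : Ins} {n : Nd} (hn : okN t I n) : okN t I (par t n) := by
  cases n with
  | q i =>
    change okN t I (if i < t - 2 then .q (i + 1) else .q (t - 2))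
    split_ifs with h
    · exact h
    · exact le_refl (t - 2)
  | k c => exact le_refl (t - 2)
  | g n b =>
    cases b with
    | cons s b =>
      have h1 := hn.1
      have h2 := hn.2
      simp only [List.length_cons] at h2
      exact ⟨h1, show b.length < kk t n by omega⟩
    | nil =>
      cases n with
      | z i => exact (show i ≤ t - 2 by have : i < t - 2 := hn.1; omega)
      | a q => exact le_refl (t - 2)
      | b q => exact ⟨hn.1, show (List.replicate (t - 2) false).length < t - 1 by simp; omega⟩
      | w c e => exact hn.1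

theorem ndep_par (ht : 4 ≤ t) {I : Ins} {n : Nd} (hn : okN t I n) (h0 : n ≠ .q (t - 2)) :
    ndep t (par t n) < ndep t n := by
  cases n with
  | q i =>
    have hi : i ≤ t - 2 := hn
    have hi' : i ≠ t - 2 := fun h => h0 (by rw [h])
    have hlt : i < t - 2 := by omega
    change ndep t (if i < t - 2 then .q (i + 1) else .q (t - 2)) < t - 2 - i
    rw [if_pos hlt]
    exact (show t - 2 - (i + 1) < t - 2 - i by omega)
  | k c => exact (show t - 2 - (t - 2) < 1 by omega)
  | g n b =>
    cases b with
    | cons s b =>
      exact (show bdep t n + b.length + 1 < bdep t n + (s :: b).length + 1 by simp)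
    | nil =>
      cases n with
      | z i => exact (show t - 2 - i < t - 2 - i + 0 + 1 by omega)
      | a q => exact (show t - 2 - (t - 2) < 0 + 0 + 1 by omega)
      | b q =>
        exact (show 0 + (List.replicate (t - 2) false).length + 1 < t - 1 + 0 + 1 by simp; omega)
      | w c e => exact (show 1 < 1 + 0 + 1 by omega)

/-- the nodes of the host tree -/
abbrev HW (t : ℕ) (I : Ins) := {n : Nd // okN t I n}

/-- the root -/
def hroot (t : ℕ) (I : Ins) : HW t I := ⟨.q (t - 2), le_refl (t - 2)⟩

open Classical in
/-- parents -/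
noncomputable def hpar (ht : 4 ≤ t) (I : Ins) (n : HW t I) : HW t I :=
  if n = hroot t I then hroot t I else ⟨par t n.1, okN_par ht n.2⟩

theorem hparent (ht : 4 ≤ t) (I : Ins) :
    IsParent (⊤ : SimpleGraph (HW t I)) (hroot t I) (hpar ht I) (fun n => ndep t n.1) := by
  classical
  have hlt : ∀ n : HW t I, n ≠ hroot t I → ndep t (hpar ht I n).1 < ndep t n.1 := by
    intro n hn
    unfold hpar
    rw [if_neg hn]
    exact ndep_par ht n.2 (fun h => hn (Subtype.ext h))
  refine ⟨by unfold hpar; rw [if_pos rfl], fun n hn => ?_, hlt⟩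
  rw [SimpleGraph.top_adj]
  intro h
  have := hlt n hn
  rw [← h] at this
  omega

/-- the host tree -/
noncomputable def host (ht : 4 ≤ t) (I : Ins) : SimpleGraph (HW t I) :=
  treeOf (hroot t I) (hpar ht I)

/-- `b` is a child of `a` -/
def Ch (t : ℕ) (a b : Nd) : Prop := par t b = a ∧ b ≠ .q (t - 2)

theorem host_adj (ht : 4 ≤ t) {I : Ins} {a b : Nd} (ha : okN t I a) (hb : okN t I b)
    (h : Ch t a b ∨ Ch t b a) : (host ht I).Adj ⟨a, ha⟩ ⟨b, hb⟩ := by
  have key : ∀ (a b : Nd) (ha : okN t I a) (hb : okN t I b), Ch t a b →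
      (host ht I).Adj ⟨a, ha⟩ ⟨b, hb⟩ := by
    intro a b ha hb h
    have hne : (⟨b, hb⟩ : HW t I) ≠ hroot t I := fun h' => h.2 (congrArg Subtype.val h')
    have h1 := (hparent ht I).treeOf_adj hne
    have h2 : hpar ht I ⟨b, hb⟩ = ⟨a, ha⟩ := by
      unfold hpar
      rw [if_neg hne]
      exact Subtype.ext h.1
    rw [h2] at h1
    exact h1.symm
  rcases h with h | h
  · exact key a b ha hb h
  · exact (key b a hb ha h).symm

theorem path_chain {top : Nd} {l1 l2 : List Nd} (h1 : (top :: l1).IsChain (Ch t))
    (h2 : (top :: l2).IsChain (Ch t)) :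
    (l1.reverse ++ top :: l2).IsChain (fun a b => Ch t a b ∨ Ch t b a) := by
  rw [List.isChain_split]
  constructor
  · rw [← List.reverse_cons, List.isChain_reverse]
    exact h1.imp (fun a b h => Or.inr h)
  · exact h2.imp (fun a b h => Or.inl h)

theorem arm_chain (n : GN) (s : Bool) (k : ℕ) (b : List Bool) (x : Nd)
    (hx : par t (.g n b) = x) : (x :: (armW s k b).map (Nd.g n)).IsChain (Ch t) := by
  induction k generalizing b x with
  | zero => exact List.isChain_singleton _
  | succ k ih =>
    rw [armW, List.map_cons, List.isChain_cons_cons]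
    exact ⟨⟨hx, by simp⟩, ih (s :: b) _ rfl⟩

theorem arm_chain' (n : GN) (s : Bool) (k : ℕ) (b : List Bool) (x : Nd)
    (hx : par t (.g n b) = x) {rest : List Nd}
    (hr : ((.g n (List.replicate k s ++ b)) :: rest).IsChain (Ch t)) :
    (x :: ((armW s (k + 1) b).map (Nd.g n) ++ rest)).IsChain (Ch t) := by
  induction k generalizing b x with
  | zero =>
    rw [armW, List.map_cons, armW, List.map_nil, List.cons_append, List.nil_append,
      List.isChain_cons_cons]
    exact ⟨⟨hx, by simp⟩, hr⟩
  | succ k ih =>
    rw [armW, List.map_cons, List.cons_append, List.isChain_cons_cons]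
    refine ⟨⟨hx, by simp⟩, ih (s :: b) _ rfl ?_⟩
    have : List.replicate k s ++ s :: b = List.replicate (k + 1) s ++ b := by
      rw [List.replicate_succ', List.append_assoc]; rfl
    rw [this]
    exact hr

theorem carm_chain (o : Option (Cn × ℕ)) : (.q (t - 2) :: carm t o).IsChain (Ch t) := by
  unfold carm
  cases o with
  | none => exact List.isChain_singleton _
  | some l =>
    obtain ⟨c, pos⟩ := l
    rw [List.isChain_cons_cons]
    refine ⟨⟨rfl, by simp⟩, ?_⟩
    split_ifs
    · exact arm_chain _ _ _ _ _ rfl
    · exact arm_chain _ _ _ _ _ rfl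
    · exact List.isChain_singleton _

theorem marm_chain (ht : 4 ≤ t) (q : Cl) (s : ℕ) :
    (.q (t - 2) :: marm t q s).IsChain (Ch t) := by
  obtain ⟨k, hk⟩ : ∃ k, t - 1 = k + 1 := ⟨t - 2, by omega⟩
  have hk2 : k = t - 2 := by omega
  have hrest : ∀ s : Bool, ((.g (.a q) (List.replicate k false ++ [])) ::
      (armW s (t - 2) []).map (Nd.g (.b q))).IsChain (Ch t) := by
    intro s
    refine arm_chain _ _ _ _ _ ?_
    rw [List.append_nil, hk2]
    rfl
  unfold marm
  split_ifs
  · rw [hk]
    exact arm_chain' _ _ _ _ _ rfl (hrest false)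
  · exact arm_chain _ _ _ _ _ rfl
  · rw [hk]
    exact arm_chain' _ _ _ _ _ rfl (hrest true)

theorem q_chain (m : ℕ) (hm : m ≤ t - 2) {rest : List Nd}
    (hr : (.q 0 :: rest).IsChain (Ch t)) :
    (((List.range (m + 1)).map Nd.q).reverse ++ rest).IsChain (Ch t) := by
  induction m with
  | zero => exact hr
  | succ m ih =>
    have h1 := ih (by omega)
    rw [List.range_succ, List.map_append, List.reverse_append]
    simp only [List.map_cons, List.map_nil, List.reverse_cons, List.reverse_nil, List.nil_append,
      List.cons_append]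
    rw [List.range_succ, List.map_append, List.reverse_append] at h1 ⊢
    simp only [List.map_cons, List.map_nil, List.reverse_cons, List.reverse_nil, List.nil_append,
      List.cons_append] at h1 ⊢
    rw [List.isChain_cons_cons]
    refine ⟨⟨?_, ?_⟩, h1⟩
    · change (if m < t - 2 then Nd.q (m + 1) else .q (t - 2)) = _
      rw [if_pos (by omega)]
    · simp only [ne_eq, Nd.q.injEq]
      omega

theorem P_chain (ht : 4 ≤ t) (I : Ins) {v : Vx} (hv : okV t I v) :
    (P t I v).IsChain (fun a b => Ch t a b ∨ Ch t b a) := by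
  cases v with
  | tau i =>
    cases i with
    | zero =>
      unfold P
      obtain ⟨k, hk⟩ : ∃ k, t - 1 = k + 1 := ⟨t - 2, by omega⟩
      have h1 := q_chain (t := t) k (by omega) (arm_chain (t := t) (.z 0) false (t - 1) [] _ rfl)
      rw [← hk] at h1
      exact h1.imp (fun a b h => Or.inl h)
    | succ i =>
      have hi : i + 1 ≤ t - 2 := hv
      unfold P
      have h1 := path_chain (t := t) (top := .q (i + 1))
        (l1 := .q i :: (armW true (t - 1) []).map (.g (.z i)))
        (l2 := (if i + 1 < t - 2 then (armW false (t - 1) []).map (.g (.z (i + 1))) else []))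
        ?_ ?_
      · rw [List.reverse_cons, List.append_assoc] at h1
        exact h1
      · rw [List.isChain_cons_cons]
        refine ⟨⟨?_, ?_⟩, arm_chain _ _ _ _ _ rfl⟩
        · change (if i < t - 2 then Nd.q (i + 1) else .q (t - 2)) = _
          rw [if_pos (by omega)]
        · simp only [ne_eq, Nd.q.injEq]
          omega
      · split_ifs
        · exact arm_chain _ _ _ _ _ rfl
        · exact List.isChain_singleton _
  | mem q s =>
    unfold P
    exact path_chain (carm_chain _) (marm_chain ht q s)
  | w c =>
    unfold P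
    exact path_chain (arm_chain _ _ _ _ _ rfl) (arm_chain _ _ _ _ _ rfl)
  | g n b =>
    change ((pw (kk t n) b).map (Nd.g n)).IsChain _
    unfold pw
    rw [List.map_append, List.map_reverse, List.map_cons]
    exact path_chain (arm_chain _ _ _ _ _ rfl) (arm_chain _ _ _ _ _ rfl)

theorem nodup_map_g {n : GN} {l : List (List Bool)} (h : l.Nodup) : (l.map (Nd.g n)).Nodup :=
  h.map (fun a b hab => by simpa using hab)

theorem nodup_carm (o : Option (Cn × ℕ)) : (carm t o).Nodup := by
  unfold carm
  cases o with
  | none => simp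
  | some l =>
    obtain ⟨c, pos⟩ := l
    simp only
    rw [List.nodup_cons]
    constructor
    · split_ifs <;> simp
    · split_ifs
      · exact nodup_map_g nodup_armW
      · exact nodup_map_g nodup_armW
      · simp

theorem nodup_marm (q : Cl) (s : ℕ) : (marm t q s).Nodup := by
  unfold marm
  split_ifs
  · rw [List.nodup_append]
    refine ⟨nodup_map_g nodup_armW, nodup_map_g nodup_armW, fun x hx y hy hxy => ?_⟩
    obtain ⟨w, -, rfl⟩ := mem_map_g.1 hx
    obtain ⟨w', -, rfl⟩ := mem_map_g.1 hy
    simp at hxy
  · exact nodup_map_g nodup_armW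
  · rw [List.nodup_append]
    refine ⟨nodup_map_g nodup_armW, nodup_map_g nodup_armW, fun x hx y hy hxy => ?_⟩
    obtain ⟨w, -, rfl⟩ := mem_map_g.1 hx
    obtain ⟨w', -, rfl⟩ := mem_map_g.1 hy
    simp at hxy

theorem P_nodup (I : Ins) (v : Vx) : (P t I v).Nodup := by
  cases v with
  | tau i =>
    cases i with
    | zero =>
      unfold P
      rw [List.nodup_append, List.nodup_reverse]
      refine ⟨List.nodup_range.map (fun a b hab => by simpa using hab), nodup_map_g nodup_armW,
        fun x hx y hy hxy => ?_⟩
      rw [List.mem_reverse, List.mem_map] at hx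
      obtain ⟨i, -, rfl⟩ := hx
      obtain ⟨w', -, rfl⟩ := mem_map_g.1 hy
      simp at hxy
    | succ i =>
      unfold P
      rw [List.nodup_append, List.nodup_reverse, List.nodup_cons, List.nodup_cons]
      refine ⟨nodup_map_g nodup_armW, ⟨?_, ?_, ?_⟩, fun x hx y hy hxy => ?_⟩
      · rw [List.mem_cons]
        rintro (h | h)
        · simp only [Nd.q.injEq] at h; omega
        · split_ifs at h <;> simp at h
      · intro h
        split_ifs at h <;> simp at h
      · split_ifs
        · exact nodup_map_g nodup_armW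
        · simp
      · rw [List.mem_reverse] at hx
        obtain ⟨w, -, rfl⟩ := mem_map_g.1 hx
        subst hxy
        rw [List.mem_cons, List.mem_cons] at hy
        rcases hy with h | h | h
        · simp at h
        · simp at h
        · split_ifs at h
          · obtain ⟨w', -, h2⟩ := mem_map_g.1 h
            simp at h2
          · simp at h
  | mem q s =>
    unfold P
    rw [List.nodup_append, List.nodup_reverse, List.nodup_cons]
    refine ⟨nodup_carm _, ⟨?_, nodup_marm q s⟩, fun x hx y hy hxy => ?_⟩
    · unfold marm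
      split_ifs <;> simp
    · rw [List.mem_reverse] at hx
      subst hxy
      have h1 : (∃ c, x = .k c) ∨ ∃ c e w, x = .g (.w c e) w := by
        unfold carm at hx
        split at hx
        · simp at hx
        · rename_i c pos heq
          rw [List.mem_cons] at hx
          rcases hx with hx | hx
          · exact Or.inl ⟨_, hx⟩
          · split_ifs at hx
            · obtain ⟨w, -, h2⟩ := mem_map_g.1 hx
              exact Or.inr ⟨_, _, _, h2⟩
            · obtain ⟨w, -, h2⟩ := mem_map_g.1 hx
              exact Or.inr ⟨_, _, _, h2⟩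
            · simp at hx
      rw [List.mem_cons] at hy
      rcases h1 with ⟨c, rfl⟩ | ⟨c, e, w, rfl⟩
      · rcases hy with hy | hy
        · simp at hy
        · unfold marm at hy
          split_ifs at hy <;> simp at hy
      · rcases hy with hy | hy
        · simp at hy
        · unfold marm at hy
          split_ifs at hy <;> simp at hy
  | w c =>
    unfold P
    rw [List.nodup_append, List.nodup_reverse, List.nodup_cons]
    refine ⟨nodup_map_g nodup_armW, ⟨by simp, nodup_map_g nodup_armW⟩, fun x hx y hy hxy => ?_⟩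
    rw [List.mem_reverse] at hx
    obtain ⟨w, -, rfl⟩ := mem_map_g.1 hx
    subst hxy
    rw [List.mem_cons] at hy
    rcases hy with h | h
    · simp at h
    · obtain ⟨w', -, h2⟩ := mem_map_g.1 h
      simp at h2
  | g n b =>
    unfold P
    exact nodup_map_g nodup_pw

theorem P_ne_nil (ht : 4 ≤ t) (I : Ins) (v : Vx) : P t I v ≠ [] := by
  cases v with
  | tau i =>
    cases i with
    | zero =>
      unfold P
      intro h
      rw [List.append_eq_nil_iff, List.reverse_eq_nil_iff, List.map_eq_nil_iff,
        List.range_eq_nil] at h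
      omega
    | succ i => unfold P; simp
  | mem q s => unfold P; simp
  | w c => unfold P; simp
  | g n b => unfold P pw; simp

/-- The graph of the reduction is a path graph. -/
theorem Layout.isPathGraph (ht : 4 ≤ t) {I : Ins} (hI : I.Good) {V : Type} {G : SimpleGraph V}
    (Λ : Layout t I G) [Finite (HW t I)] : IsPathGraph G := by
  have hmem : ∀ v, ∀ n ∈ P t I (Λ.lab v), okN t I n := fun v n hn =>
    ((mem_P ht hI (Λ.ok v)).1 hn).1
  refine isPathGraph_of_lists (W := HW t I) (H := host ht I) ((hparent ht I).isTree)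
    (fun v => (P t I (Λ.lab v)).attachWith (okN t I) (hmem v)) (fun v => ?_) (fun v => ?_)
    (fun v => ?_) (fun u v => ?_)
  · intro h
    have := congrArg (List.map Subtype.val) h
    rw [List.attachWith_map_subtype_val] at this
    exact P_ne_nil ht I _ this
  · apply List.Nodup.of_map Subtype.val
    rw [List.attachWith_map_subtype_val]
    exact P_nodup I _
  · rw [List.isChain_attachWith]
    refine (P_chain ht I (Λ.ok v)).imp_of_mem_imp (fun a b ha hb h => ?_)
    exact ⟨hmem v a ha, hmem v b hb, host_adj ht _ _ h⟩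
  · rw [Λ.adj]
    refine and_congr_right (fun _ => ?_)
    constructor
    · rintro ⟨n, hn, h1, h2⟩
      refine ⟨⟨n, hn⟩, ?_, ?_⟩
      · rw [List.mem_attachWith]
        exact (mem_P ht hI (Λ.ok u)).2 ⟨hn, h1⟩
      · rw [List.mem_attachWith]
        exact (mem_P ht hI (Λ.ok v)).2 ⟨hn, h2⟩
    · rintro ⟨⟨n, hn⟩, h1, h2⟩
      rw [List.mem_attachWith] at h1 h2
      exact ⟨n, hn, ((mem_P ht hI (Λ.ok u)).1 h1).2, ((mem_P ht hI (Λ.ok v)).1 h2).2⟩

end Pool.Agent.Spanner
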