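import Pool.Agent.Lib_MP_b5064f_lc.Red

set_option autoImplicit false

/-!
# TREE t-SPANNER is in NP
-/

namespace Pool.Agent.Spanner

open Pool.Agent.PartSep Pool.Agent.PartSep.TM Pool.Agent.PartSep.CL
open Pool.Agent.Lib_MP_8cd8c6_lc
open N487b59b3

set_option synthInstance.maxSize 2000

/-- bounded depths -/
theorem IsParent.bounded {V : Type} [Fintype V] {G : SimpleGraph V} {ρ : V} {p : V → V}
    {d : V → ℕ} (h : IsParent G ρ p d) :
    ∃ d' : V → ℕ, IsParent G ρ p d' ∧ ∀ x, d' x < Fintype.card V := by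
  classical
  refine ⟨fun x => (Finset.univ.filter (fun y => d y < d x)).card, ⟨h.root, h.adj, fun x hx => ?_⟩,
    fun x => ?_⟩
  · apply Finset.card_lt_card
    have h1 := h.depth x hx
    refine ⟨fun w hw => ?_, fun hsub => ?_⟩
    · simp only [Finset.mem_filter, Finset.mem_univ, true_and] at hw ⊢
      omega
    · have := hsub (show p x ∈ Finset.univ.filter (fun y => d y < d x) by simpa using h1)
      simp at this
  · apply Finset.card_lt_univ_of_notMem (x := x)
    simp

/-- the iterates of the parent function of the certificate -/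
noncomputable def pit (w : List Sym) (a i : ℕ) : ℕ := (fun v => cert w v)^[a] i

/-- the pairs of numbers with sum at most `t` -/
def prs (t : ℕ) : List (ℕ × ℕ) :=
  (List.range (t + 1)).flatMap (fun a => (List.range (t + 1 - a)).map (fun b => (a, b)))

theorem mem_prs {t : ℕ} {ab : ℕ × ℕ} : ab ∈ prs t ↔ ab.1 + ab.2 ≤ t := by
  unfold prs
  rw [List.mem_flatMap]
  constructor
  · rintro ⟨a, ha, h⟩
    obtain ⟨b, hb, rfl⟩ := List.mem_map.1 h
    rw [List.mem_range] at ha hb
    simp only
    omega
  · intro h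
    exact ⟨ab.1, List.mem_range.2 (by omega), List.mem_map.2 ⟨ab.2, List.mem_range.2 (by omega),
      rfl⟩⟩

/-- closeness in the tree of the certificate -/
noncomputable def nearB (t : ℕ) (w : List Sym) (i j : ℕ) : Bool :=
  (prs t).any (fun ab => decide (pit w ab.1 i = pit w ab.2 j))

/-- the certificate is a rooted tree spanner -/
noncomputable def chk (t : ℕ) (s w : List Sym) : Bool :=
  (decide (0 < rows s) && decide (cert w 0 = 0)) &&
    (List.range (rows s)).all (fun i => (decide (cert w i < rows s) &&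
      (decide (i = 0) || (ent s i (cert w i) &&
        decide (cert w (rows s + cert w i) < cert w (rows s + i))))) &&
      (List.range (rows s)).all (fun j => !(ent s i j) || nearB t w i j))

/-- the verifier -/
noncomputable def verT (t : ℕ) (z : List Bool × List Bool) : Bool :=
  valid (z.1.map bs) && chk t (z.1.map bs) (z.2.map bs)

theorem pit_zero (w : List Sym) (i : ℕ) : pit w 0 i = i := rfl

theorem pit_succ (w : List Sym) (a i : ℕ) : pit w (a + 1) i = cert w (pit w a i) := by
  unfold pit
  rw [Function.iterate_succ_apply']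

theorem exists_word (l : List ℕ) (m : ℕ) (hl : ∀ k ∈ l, k ≤ m) :
    ∃ w : List Bool, w.length ≤ l.length * (2 * m + 1) ∧
      ∀ i, cert (w.map bs) i = l[i]?.getD 0 := by
  refine ⟨l.flatMap (fun k => delimit (List.replicate k true)), ?_, fun i => ?_⟩
  · rw [List.length_flatMap]
    induction l with
    | nil => simp
    | cons k l ih =>
      rw [List.map_cons, List.sum_cons, List.length_cons, Nat.succ_mul, length_delimit,
        List.length_replicate]
      have h1 := ih (fun k hk => hl k (List.mem_cons_of_mem _ hk))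
      have h2 := hl k List.mem_cons_self
      omega
  · have hsplit : splitB ((l.flatMap (fun k => delimit (List.replicate k true))).map bs) =
        l.map (fun k => List.replicate k Sym.i) := by
      rw [List.map_flatMap]
      have : (fun k : ℕ => (delimit (List.replicate k true)).map bs) =
          fun k => del (List.replicate k Sym.i) := by
        funext k
        rw [map_delimit, List.map_replicate]
        rfl
      rw [this, ← List.flatMap_map (f := fun k : ℕ => List.replicate k Sym.i)
        (g := del), splitB_flatMap]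
    unfold cert
    rw [hsplit, List.getElem?_map]
    cases l[i]? with
    | none => rfl
    | some k => simp

/-- the conditions for the certificate -/
def Cond (t : ℕ) (w : List Sym) {n : ℕ} (G : SimpleGraph (Fin n)) : Prop :=
  (0 < n ∧ cert w 0 = 0) ∧
    ∀ i : Fin n, cert w i.val < n ∧
      (i.val = 0 ∨ ∃ h : cert w i.val < n, G.Adj i ⟨cert w i.val, h⟩ ∧
        cert w (n + cert w i.val) < cert w (n + i.val)) ∧
      ∀ j : Fin n, G.Adj i j → nearB t w i.val j.val = true

theorem exists_cert {t n : ℕ} {G : SimpleGraph (Fin n)} (h : HasTreeSpanner G t) :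
    ∃ w : List Bool, w.length ≤ (n + n) * (2 * n + 1) ∧ Cond t (w.map bs) G := by
  · have hpos : 0 < n := by
      obtain ⟨T, hT⟩ := h
      obtain ⟨x⟩ := hT.2.1.connected.nonempty
      exact x.pos
    obtain ⟨p, d, hp, hN⟩ := (hasTreeSpanner_iff G t ⟨0, hpos⟩).1 h
    obtain ⟨d', hp', hd'⟩ := hp.bounded
    rw [Fintype.card_fin] at hd'
    obtain ⟨w, hw1, hw2⟩ := exists_word (List.ofFn (fun i : Fin n => (p i).val) ++
      List.ofFn (fun i : Fin n => d' i)) n (by
        intro k hk
        rcases List.mem_append.1 hk with hk | hk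
        · obtain ⟨i, rfl⟩ := List.mem_ofFn.1 hk
          exact (p i).2.le
        · obtain ⟨i, rfl⟩ := List.mem_ofFn.1 hk
          exact (hd' i).le)
    rw [List.length_append, List.length_ofFn, List.length_ofFn] at hw1
    have hc1 : ∀ i : Fin n, cert (w.map bs) i.val = (p i).val := by
      intro i
      rw [hw2, List.getElem?_append_left (by rw [List.length_ofFn]; exact i.2),
        List.getElem?_ofFn]
      simp
    have hc2 : ∀ i : Fin n, cert (w.map bs) (n + i.val) = d' i := by
      intro i
      rw [hw2, List.getElem?_append_right (by rw [List.length_ofFn]; omega), List.length_ofFn,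
        Nat.add_sub_cancel_left, List.getElem?_ofFn]
      simp
    have hit : ∀ (a : ℕ) (i : Fin n), pit (w.map bs) a i.val = (p^[a] i).val := by
      intro a i
      induction a with
      | zero => rfl
      | succ a ih => rw [pit_succ, ih, hc1, Function.iterate_succ_apply']
    refine ⟨w, hw1, ⟨hpos, ?_⟩, fun i => ⟨?_, ?_, fun j hij => ?_⟩⟩
    · have := hc1 ⟨0, hpos⟩
      rw [hp.root] at this
      exact this
    · rw [hc1]; exact (p i).2
    · by_cases hi : i = ⟨0, hpos⟩
      · left
        rw [hi]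
      · right
        refine ⟨by rw [hc1]; exact (p i).2, ?_, ?_⟩
        · have h1 := hp'.adj i hi
          have h2 : (⟨cert (w.map bs) i.val, by rw [hc1]; exact (p i).2⟩ : Fin n) = p i :=
            Fin.ext (hc1 i)
          rw [h2]
          exact h1
        · rw [hc1, hc2, hc2]
          exact hp'.depth i hi
    · obtain ⟨a, b, h1, h2⟩ := hN i j hij
      unfold nearB
      rw [List.any_eq_true]
      refine ⟨(a, b), mem_prs.2 h1, ?_⟩
      rw [decide_eq_true_eq, hit, hit, h2]

theorem spanner_of {t n : ℕ} {G : SimpleGraph (Fin n)} {w : List Sym} (h : Cond t w G) :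
    HasTreeSpanner G t := by
  · obtain ⟨⟨hpos, h0⟩, hw⟩ := h
    have hit : ∀ (a : ℕ) (i : Fin n), pit w a i.val =
        (((fun i : Fin n => (⟨cert w i.val, (hw i).1⟩ : Fin n))^[a] i)).val := by
      intro a i
      induction a with
      | zero => rfl
      | succ a ih => rw [pit_succ, ih, Function.iterate_succ_apply']
    refine (hasTreeSpanner_iff G t ⟨0, hpos⟩).2 ⟨fun i => ⟨cert w i.val, (hw i).1⟩,
      fun i => cert w (n + i.val), ⟨Fin.ext h0, fun i hi => ?_, fun i hi => ?_⟩,
      fun i j hij => ?_⟩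
    · rcases (hw i).2.1 with h | ⟨_, h, -⟩
      · exact absurd (Fin.ext h) hi
      · exact h
    · rcases (hw i).2.1 with h | ⟨_, -, h⟩
      · exact absurd (Fin.ext h) hi
      · exact h
    · have h1 := (hw i).2.2 j hij
      unfold nearB at h1
      rw [List.any_eq_true] at h1
      obtain ⟨ab, h2, h3⟩ := h1
      rw [decide_eq_true_eq, hit, hit] at h3
      exact ⟨ab.1, ab.2, mem_prs.1 h2, Fin.ext h3⟩

theorem treeSpanner_iff (t : ℕ) (x : List Bool) : treeSpanner t x = true ↔
    ∃ (n : ℕ) (G : SimpleGraph (Fin n)), x = encodeGraph G ∧ HasTreeSpanner G t :=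
  @decide_eq_true_iff _ (Classical.propDecidable _)

theorem graphCode_inj {n m : ℕ} {G : SimpleGraph (Fin n)} {H : SimpleGraph (Fin m)}
    (h : graphCode G = graphCode H) (Q : ∀ n : ℕ, SimpleGraph (Fin n) → Prop) :
    Q n G ↔ Q m H := by
  classical
  have h1 := bitEncode_injective h
  have h2 := congrArg List.length h1
  rw [List.length_ofFn, List.length_ofFn] at h2
  subst h2
  have h3 := List.ofFn_injective h1
  have h4 : G = H := by
    ext i j
    have h5 := congrFun h3 i
    have h6 := congrFun (List.ofFn_injective h5) j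
    simpa using h6
  rw [h4]

theorem treeSpanner_graphCode (t : ℕ) {n : ℕ} (G : SimpleGraph (Fin n)) :
    treeSpanner t (graphCode G) = true ↔ HasTreeSpanner G t := by
  rw [treeSpanner_iff]
  constructor
  · rintro ⟨m, H, h1, h2⟩
    exact (graphCode_inj h1 (fun _ G => HasTreeSpanner G t)).2 h2
  · exact fun h => ⟨n, G, rfl, h⟩

theorem chk_iff {t : ℕ} {s w : List Sym} {n : ℕ} (hn : rows s = n) (G : SimpleGraph (Fin n))
    (hG : ∀ i j : Fin n, G.Adj i j ↔ ent s i.val j.val = true) :
    chk t s w = true ↔ Cond t w G := by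
  unfold chk Cond
  rw [hn]
  simp only [Bool.and_eq_true, decide_eq_true_eq, all_range, Bool.or_eq_true, Bool.not_eq_true']
  constructor
  · rintro ⟨h1, h2⟩
    refine ⟨h1, fun i => ?_⟩
    obtain ⟨⟨h3, h4⟩, h5⟩ := h2 i.1 i.2
    refine ⟨h3, ?_, fun j hij => ?_⟩
    · rcases h4 with h4 | ⟨h4, h6⟩
      · exact Or.inl h4
      · exact Or.inr ⟨h3, (hG _ _).2 h4, h6⟩
    · rcases h5 j.1 j.2 with h6 | h6
      · rw [(hG _ _).1 hij] at h6
        exact absurd h6 (by simp)
      · exact h6
  · rintro ⟨h1, h2⟩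
    refine ⟨h1, fun i hi => ?_⟩
    obtain ⟨h3, h4, h5⟩ := h2 ⟨i, hi⟩
    refine ⟨⟨h3, ?_⟩, fun j hj => ?_⟩
    · rcases h4 with h4 | ⟨h4, h6, h7⟩
      · exact Or.inl h4
      · exact Or.inr ⟨(hG _ _).1 h6, h7⟩
    · by_cases hij : ent s i j = true
      · exact Or.inr (h5 ⟨j, hj⟩ ((hG ⟨i, hi⟩ ⟨j, hj⟩).2 hij))
      · exact Or.inl (by simpa using hij)

theorem ent_encode {n : ℕ} (G : SimpleGraph (Fin n)) (i j : Fin n) :
    G.Adj i j ↔ ent ((encodeGraph G).map bs) i.val j.val = true := by
  classical
  rw [encodeGraph_map, ent_matS i.2 j.2]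
  unfold adjN
  rw [decide_eq_true_eq]
  exact ⟨fun h => ⟨i.2, j.2, h⟩, fun ⟨_, _, h⟩ => h⟩

theorem rows_encode {n : ℕ} (G : SimpleGraph (Fin n)) : rows ((encodeGraph G).map bs) = n := by
  rw [encodeGraph_map, rows_matS]

theorem le_length_encode {n : ℕ} (G : SimpleGraph (Fin n)) : n ≤ (encodeGraph G).length := by
  have := length_matS n (adjN G)
  rw [← encodeGraph_map, List.length_map] at this
  exact this

theorem verT_iff (t : ℕ) (x : List Bool) : treeSpanner t x = true ↔
    ∃ w : List Bool, w.length ≤ (x.length + x.length) * (2 * x.length + 1) ∧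
      verT t (x, w) = true := by
  rw [treeSpanner_iff]
  constructor
  · rintro ⟨n, G, rfl, h⟩
    obtain ⟨w, hw, hw'⟩ := exists_cert h
    have hn := le_length_encode G
    refine ⟨w, hw.trans (Nat.mul_le_mul (by omega) (by omega)), ?_⟩
    unfold verT
    rw [valid_encode, Bool.true_and, chk_iff (rows_encode G) G (ent_encode G)]
    exact hw'
  · rintro ⟨w, -, hw⟩
    unfold verT at hw
    rw [Bool.and_eq_true] at hw
    obtain ⟨h1, h2⟩ := hw
    obtain ⟨G, hxG, hG⟩ := exists_graph h1
    exact ⟨_, G, hxG, spanner_of ((chk_iff rfl G hG).1 h2)⟩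

/-! ### The verifier runs in polynomial time -/

section

variable {E : Type} [Rep E]

theorem fp_pit {w : E → List Sym} (hw : FP w) (a : ℕ) {i : E → ℕ} (hi : FP i) :
    FP (fun x => pit (w x) a (i x)) := by
  induction a with
  | zero => exact hi
  | succ a ih =>
    refine (fp_cert hw ih).congr (fun x => ?_)
    rw [pit_succ]

theorem fp_nearB (t : ℕ) {w : E → List Sym} (hw : FP w) {i j : E → ℕ} (hi : FP i) (hj : FP j) :
    FP (fun x => nearB t (w x) (i x) (j x)) := by
  unfold nearB
  exact fp_any _ (fun ab => FP.natEq (fp_pit hw _ hi) (fp_pit hw _ hj))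

theorem fp_chk (t : ℕ) {s w : E → List Sym} (hs : FP s) (hw : FP w) :
    FP (fun x => chk t (s x) (w x)) := by
  unfold chk
  refine FP.and (FP.and (FP.natLt (FP.const 0) (fp_rows hs)) (FP.natEq (fp_cert hw (FP.const 0))
    (FP.const 0))) ?_
  refine fp_allE (FP.range (fp_rows hs)) (p := fun y : E × ℕ =>
    (decide (cert (w y.1) y.2 < rows (s y.1)) &&
      (decide (y.2 = 0) || (ent (s y.1) y.2 (cert (w y.1) y.2) &&
        decide (cert (w y.1) (rows (s y.1) + cert (w y.1) y.2) <
          cert (w y.1) (rows (s y.1) + y.2))))) &&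
      (List.range (rows (s y.1))).all (fun j => !(ent (s y.1) y.2 j) ||
        nearB t (w y.1) y.2 j)) ?_
  have hs1 : FP (fun y : E × ℕ => s y.1) := FP.comp hs FP.fst
  have hw1 : FP (fun y : E × ℕ => w y.1) := FP.comp hw FP.fst
  have hi1 : FP (fun y : E × ℕ => y.2) := FP.snd
  have hc1 := fp_cert hw1 hi1
  have hr1 := fp_rows hs1
  refine FP.and (FP.and (FP.natLt hc1 hr1) (FP.or (FP.natEq hi1 (FP.const 0))
    (FP.and (fp_ent hs1 hi1 hc1) (FP.natLt (fp_cert hw1 (FP.add hr1 hc1))
      (fp_cert hw1 (FP.add hr1 hi1)))))) ?_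
  refine fp_allE (FP.range hr1) (p := fun z : (E × ℕ) × ℕ =>
    !(ent (s z.1.1) z.1.2 z.2) || nearB t (w z.1.1) z.1.2 z.2) ?_
  have hs2 : FP (fun z : (E × ℕ) × ℕ => s z.1.1) := FP.comp hs (FP.comp FP.fst FP.fst)
  have hw2 : FP (fun z : (E × ℕ) × ℕ => w z.1.1) := FP.comp hw (FP.comp FP.fst FP.fst)
  have hi2 : FP (fun z : (E × ℕ) × ℕ => z.1.2) := FP.comp FP.snd FP.fst
  exact FP.or (FP.not (fp_ent hs2 hi2 FP.snd)) (fp_nearB t hw2 hi2 FP.snd)

end

theorem isPolyTime_verT (t : ℕ) : N68a2faeb.IsPolyTime (verT t) := by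
  have hp : FP (fun z : List Sym => (splitB ((splitB z)[0]?.getD [])).flatMap (fun s => s)) :=
    FP.flatMapS (FP.splitB (FP.getE (FP.splitB FP.id) (FP.const 0) []))
      (g := fun y : List Sym × List Sym => y.2) FP.snd
  have hw : FP (fun z : List Sym => ((splitB z).tail).flatMap (fun s => s)) :=
    FP.flatMapS (FP.tailE (FP.splitB FP.id)) (g := fun y : List Sym × List Sym => y.2) FP.snd
  refine FP.toTM2 (αΓ := Bool) (βΓ := Bool) bs sb bs sb_bs
    (fp_bs (FP.and (fp_valid hp) (fp_chk t hp hw))) (fun z => ?_)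
  obtain ⟨x, w⟩ := z
  change [bs (valid ((splitB ((splitB ((bitEncode (x, w)).map bs))[0]?.getD [])).flatMap
    (fun s => s)) && chk t ((splitB ((splitB ((bitEncode (x, w)).map bs))[0]?.getD [])).flatMap
    (fun s => s)) (((splitB ((bitEncode (x, w)).map bs)).tail).flatMap (fun s => s)))] =
    [bs (verT t (x, w))]
  rw [splitB_pair]
  simp only [List.getElem?_cons_zero, Option.getD_some, List.tail_cons]
  rw [splitB_bits, flatMap_id_single, flatMap_id_single]
  rfl

/-- TREE `t`-SPANNER is in NP. -/
theorem treeSpanner_mem_NP (t : ℕ) : treeSpanner t ∈ N68a2faeb.NP := by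
  refine ⟨(Polynomial.X + Polynomial.X) * (2 * Polynomial.X + 1), verT t, isPolyTime_verT t,
    fun x => ?_⟩
  have := verT_iff t x
  simpa using this

end Pool.Agent.Spanner
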