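import Pool.Agent.Lib_MP_b5064f_lc.Complete

set_option autoImplicit false

/-!
# The paths of the vertices
-/

namespace Pool.Agent.Spanner

open SimpleGraph

/-! ### Words -/

theorem L_none_iff {h : List Bool} : L h = none ↔ ∃ j, h = List.replicate j false := by
  induction h with
  | nil => exact ⟨fun _ => ⟨0, rfl⟩, fun _ => rfl⟩
  | cons s h ih =>
    cases s with
    | false =>
      change L h = none ↔ _
      rw [ih]
      constructor
      · rintro ⟨j, rfl⟩; exact ⟨j + 1, rfl⟩
      · rintro ⟨j, hj⟩
        cases j with
        | zero => simp at hj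
        | succ j => rw [List.replicate_succ] at hj; exact ⟨j, (List.cons.inj hj).2⟩
    | true =>
      constructor
      · intro h; simp [L] at h
      · rintro ⟨j, hj⟩
        cases j with
        | zero => simp at hj
        | succ j => rw [List.replicate_succ] at hj; simp at hj

theorem R_none_iff {h : List Bool} : R h = none ↔ ∃ j, h = List.replicate j true := by
  induction h with
  | nil => exact ⟨fun _ => ⟨0, rfl⟩, fun _ => rfl⟩
  | cons s h ih =>
    cases s with
    | true =>
      change R h = none ↔ _
      rw [ih]
      constructor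
      · rintro ⟨j, rfl⟩; exact ⟨j + 1, rfl⟩
      · rintro ⟨j, hj⟩
        cases j with
        | zero => simp at hj
        | succ j => rw [List.replicate_succ] at hj; exact ⟨j, (List.cons.inj hj).2⟩
    | false =>
      constructor
      · intro h; simp [R] at h
      · rintro ⟨j, hj⟩
        cases j with
        | zero => simp at hj
        | succ j => rw [List.replicate_succ] at hj; simp at hj

theorem L_some_iff {h b : List Bool} :
    L h = some b ↔ ∃ j, h = List.replicate j false ++ true :: b := by
  induction h with
  | nil => simp [L]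
  | cons s h ih =>
    cases s with
    | false =>
      change L h = some b ↔ _
      rw [ih]
      constructor
      · rintro ⟨j, rfl⟩; exact ⟨j + 1, rfl⟩
      · rintro ⟨j, hj⟩
        cases j with
        | zero => simp at hj
        | succ j => rw [List.replicate_succ] at hj; exact ⟨j, (List.cons.inj hj).2⟩
    | true =>
      constructor
      · intro h'
        have : h = b := by simpa [L] using h'
        exact ⟨0, by rw [this]; rfl⟩
      · rintro ⟨j, hj⟩
        cases j with
        | zero => simp only [List.replicate_zero, List.nil_append, List.cons.injEq, true_and] at hj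
                  rw [hj]; rfl
        | succ j => rw [List.replicate_succ] at hj; simp at hj

theorem R_some_iff {h b : List Bool} :
    R h = some b ↔ ∃ j, h = List.replicate j true ++ false :: b := by
  induction h with
  | nil => simp [R]
  | cons s h ih =>
    cases s with
    | true =>
      change R h = some b ↔ _
      rw [ih]
      constructor
      · rintro ⟨j, rfl⟩; exact ⟨j + 1, rfl⟩
      · rintro ⟨j, hj⟩
        cases j with
        | zero => simp at hj
        | succ j => rw [List.replicate_succ] at hj; exact ⟨j, (List.cons.inj hj).2⟩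
    | false =>
      constructor
      · intro h'
        have : h = b := by simpa [R] using h'
        exact ⟨0, by rw [this]; rfl⟩
      · rintro ⟨j, hj⟩
        cases j with
        | zero => simp only [List.replicate_zero, List.nil_append, List.cons.injEq, true_and] at hj
                  rw [hj]; rfl
        | succ j => rw [List.replicate_succ] at hj; simp at hj

/-- No word has the same left and right neighbour. -/
theorem not_LR {h b : List Bool} (h1 : L h = some b) (h2 : R h = some b) : False := by
  cases h with
  | nil => simp [L] at h1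
  | cons s h =>
    cases s with
    | false =>
      have : h = b := by simpa [R] using h2
      subst this
      have := L_some (show L h = some h from h1)
      omega
    | true =>
      have : h = b := by simpa [L] using h1
      subst this
      have := R_some (show R h = some h from h2)
      omega

/-- the words `s ^ j ++ b` for `j < k` -/
def armW (s : Bool) : ℕ → List Bool → List (List Bool)
  | 0, _ => []
  | k + 1, b => b :: armW s k (s :: b)

theorem mem_armW {s : Bool} {k : ℕ} {b w : List Bool} :
    w ∈ armW s k b ↔ ∃ j < k, w = List.replicate j s ++ b := by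
  induction k generalizing b with
  | zero => simp [armW]
  | succ k ih =>
    rw [armW, List.mem_cons, ih]
    constructor
    · rintro (rfl | ⟨j, hj, rfl⟩)
      · exact ⟨0, by omega, rfl⟩
      · refine ⟨j + 1, by omega, ?_⟩
        rw [List.replicate_succ', List.append_assoc]
        rfl
    · rintro ⟨j, hj, rfl⟩
      cases j with
      | zero => exact Or.inl rfl
      | succ j =>
        right
        refine ⟨j, by omega, ?_⟩
        rw [List.replicate_succ', List.append_assoc]
        rfl

theorem nodup_armW {s : Bool} {k : ℕ} {b : List Bool} : (armW s k b).Nodup := by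
  induction k generalizing b with
  | zero => simp [armW]
  | succ k ih =>
    rw [armW, List.nodup_cons]
    refine ⟨fun h => ?_, ih⟩
    obtain ⟨j, -, hj⟩ := mem_armW.1 h
    have := congrArg List.length hj
    simp at this
    omega

theorem mem_armL {k : ℕ} {w : List Bool} :
    w ∈ armW false k [] ↔ w.length < k ∧ L w = none := by
  rw [mem_armW, L_none_iff]
  constructor
  · rintro ⟨j, hj, rfl⟩
    exact ⟨by simpa using hj, j, by simp⟩
  · rintro ⟨h, j, rfl⟩
    exact ⟨j, by simpa using h, by simp⟩

theorem mem_armR {k : ℕ} {w : List Bool} :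
    w ∈ armW true k [] ↔ w.length < k ∧ R w = none := by
  rw [mem_armW, R_none_iff]
  constructor
  · rintro ⟨j, hj, rfl⟩
    exact ⟨by simpa using hj, j, by simp⟩
  · rintro ⟨h, j, rfl⟩
    exact ⟨j, by simpa using h, by simp⟩

/-- the words of the nodes of the vertex `b` of a gadget -/
def pw (k : ℕ) (b : List Bool) : List (List Bool) :=
  (armW true (k - 1 - b.length) (false :: b)).reverse ++
    (b :: armW false (k - 1 - b.length) (true :: b))

theorem mem_pw {k : ℕ} {b h : List Bool} (hb : b.length < k) :
    h ∈ pw k b ↔ h.length < k ∧ (b = h ∨ L h = some b ∨ R h = some b) := by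
  unfold pw
  rw [List.mem_append, List.mem_reverse, List.mem_cons, mem_armW, mem_armW, L_some_iff,
    R_some_iff]
  constructor
  · rintro (⟨j, hj, rfl⟩ | rfl | ⟨j, hj, rfl⟩)
    · refine ⟨?_, Or.inr (Or.inr ⟨j, rfl⟩)⟩
      simp only [List.length_append, List.length_replicate, List.length_cons]
      omega
    · exact ⟨hb, Or.inl rfl⟩
    · refine ⟨?_, Or.inr (Or.inl ⟨j, rfl⟩)⟩
      simp only [List.length_append, List.length_replicate, List.length_cons]
      omega
  · rintro ⟨h1, rfl | ⟨j, rfl⟩ | ⟨j, rfl⟩⟩
    · exact Or.inr (Or.inl rfl)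
    · refine Or.inr (Or.inr ⟨j, ?_, rfl⟩)
      simp only [List.length_append, List.length_replicate, List.length_cons] at h1
      omega
    · refine Or.inl ⟨j, ?_, rfl⟩
      simp only [List.length_append, List.length_replicate, List.length_cons] at h1
      omega

theorem nodup_pw {k : ℕ} {b : List Bool} : (pw k b).Nodup := by
  unfold pw
  rw [List.nodup_append, List.nodup_reverse, List.nodup_cons]
  refine ⟨nodup_armW, ⟨fun h => ?_, nodup_armW⟩, fun x hx y hy hxy => ?_⟩
  · obtain ⟨j, -, hj⟩ := mem_armW.1 h
    have := congrArg List.length hj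
    simp at this
    omega
  · subst hxy
    rw [List.mem_reverse, mem_armW] at hx
    have h1 : R x = some b := by
      rw [R_some_iff]
      obtain ⟨j, -, hj⟩ := hx
      exact ⟨j, hj⟩
    rcases List.mem_cons.1 hy with rfl | hy
    · have := R_some h1
      omega
    · have h2 : L x = some b := by
        rw [L_some_iff]
        obtain ⟨j, -, hj⟩ := mem_armW.1 hy
        exact ⟨j, hj⟩
      exact (not_LR h2 h1).elim

/-! ### The paths -/

variable (t : ℕ)

/-- the part of the path of a member in the branch of its clause -/
def carm (o : Option (Cn × ℕ)) : List Nd :=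
  match o with
  | none => []
  | some (c, pos) => .k c ::
    (if pos = 0 then (armW false (t - 4) []).map (.g (.w c false))
      else if pos = 1 then (armW false (t - 4) []).map (.g (.w c true)) else [])

/-- the part of the path of a member in the gadgets of its variable -/
def marm (q : Cl) (s : ℕ) : List Nd :=
  if s = 0 then (armW false (t - 1) []).map (.g (.a q)) ++ (armW false (t - 2) []).map (.g (.b q))
  else if s = 1 then (armW true (t - 1) []).map (.g (.a q))
  else (armW false (t - 1) []).map (.g (.a q)) ++ (armW true (t - 2) []).map (.g (.b q))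

/-- the path of a vertex -/
def P (I : Ins) : Vx → List Nd
  | .tau 0 => ((List.range (t - 1)).map Nd.q).reverse ++ (armW false (t - 1) []).map (.g (.z 0))
  | .tau (i + 1) => ((armW true (t - 1) []).map (.g (.z i))).reverse ++
      (.q i :: .q (i + 1) ::
        (if i + 1 < t - 2 then (armW false (t - 1) []).map (.g (.z (i + 1))) else []))
  | .mem q s => (carm t (I.loc q s)).reverse ++ (.q (t - 2) :: marm t q s)
  | .w c => ((armW true (t - 4) []).map (.g (.w c false))).reverse ++
      (.k c :: (armW true (t - 4) []).map (.g (.w c true)))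
  | .g n b => (pw (kk t n) b).map (.g n)

variable {t}

theorem mem_map_g {n : GN} {l : List (List Bool)} {x : Nd} :
    x ∈ l.map (Nd.g n) ↔ ∃ w ∈ l, x = .g n w := by
  rw [List.mem_map]
  constructor
  · rintro ⟨w, h1, h2⟩; exact ⟨w, h1, h2.symm⟩
  · rintro ⟨w, h1, h2⟩; exact ⟨w, h1, h2.symm⟩

/-- incidence with a core vertex -/
theorem inc_core {I : Ins} {n : GN} {h : List Bool} {v : Vx} (hv : ∀ m b, v ≠ .g m b) :
    Inc t I (.g n h) v ↔ (L h = none ∧ isX I n v) ∨ (R h = none ∧ isY n v) ∨
      (L h = none ∧ isM n v) := by
  constructor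
  · rintro (h1 | ⟨w, h1, h2⟩ | ⟨w, h1, h2⟩ | h1 | h1 | h1)
    · exact absurd h1 (hv _ _)
    · exact absurd h2 (hv _ _)
    · exact absurd h2 (hv _ _)
    · exact Or.inl h1
    · exact Or.inr (Or.inl h1)
    · exact Or.inr (Or.inr h1)
  · rintro (h1 | h1 | h1)
    · exact Or.inr (Or.inr (Or.inr (Or.inl h1)))
    · exact Or.inr (Or.inr (Or.inr (Or.inr (Or.inl h1))))
    · exact Or.inr (Or.inr (Or.inr (Or.inr (Or.inr h1))))

theorem mem_P (ht : 4 ≤ t) {I : Ins} (hI : I.Good) {v : Vx} (hv : okV t I v) {n : Nd} :
    n ∈ P t I v ↔ okN t I n ∧ Inc t I n v := by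
  cases v with
  | g m b =>
    have hb := hv.2
    unfold P
    rw [mem_map_g]
    constructor
    · rintro ⟨w, h1, rfl⟩
      rw [mem_pw hb] at h1
      refine ⟨⟨hv.1, h1.1⟩, ?_⟩
      rcases h1.2 with rfl | h2 | h2
      · exact Or.inl rfl
      · exact Or.inr (Or.inl ⟨b, h2, rfl⟩)
      · exact Or.inr (Or.inr (Or.inl ⟨b, h2, rfl⟩))
    · rintro ⟨h1, h2⟩
      obtain ⟨b', rfl, h3⟩ := Layout.inc_g h2
      exact ⟨b', (mem_pw hb).2 ⟨h1.2, h3⟩, rfl⟩
  | w c =>
    unfold P
    rw [List.mem_append, List.mem_reverse, List.mem_cons, mem_map_g, mem_map_g]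
    cases n with
    | q i => simp [Inc]
    | k c' =>
      simp only [reduceCtorEq, and_false, exists_false, Nd.k.injEq, false_or, or_false]
      constructor
      · rintro rfl; exact ⟨hv, rfl⟩
      · rintro ⟨-, h⟩; exact Eq.symm h
    | g m h =>
      rw [inc_core (by simp)]
      simp only [mem_armR, Nd.g.injEq, reduceCtorEq, false_or]
      constructor
      · rintro (⟨w, h1, rfl, rfl⟩ | ⟨w, h1, rfl, rfl⟩)
        · exact ⟨⟨hv, h1.1⟩, Or.inr (Or.inl ⟨h1.2, rfl⟩)⟩
        · exact ⟨⟨hv, h1.1⟩, Or.inr (Or.inl ⟨h1.2, rfl⟩)⟩
      · rintro ⟨⟨h1, h1'⟩, ⟨h2, h3⟩ | ⟨h2, h3⟩ | ⟨h2, h3⟩⟩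
        · cases m <;> simp [isX] at h3
        · cases m with
          | w c' e =>
            simp only [isY, Vx.w.injEq] at h3
            subst h3
            cases e
            · exact Or.inl ⟨h, ⟨h1', h2⟩, rfl, rfl⟩
            · exact Or.inr ⟨h, ⟨h1', h2⟩, rfl, rfl⟩
          | _ => simp [isY] at h3
        · cases m <;> simp [isM] at h3
  | tau i =>
    cases i with
    | zero =>
      unfold P
      rw [List.mem_append, List.mem_reverse, List.mem_map, mem_map_g]
      cases n with
      | q j =>
        simp only [List.mem_range, Nd.q.injEq, exists_eq_right, reduceCtorEq, and_false,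
          exists_false, or_false, okN, Inc]
        constructor
        · intro h; exact ⟨by omega, by simp⟩
        · rintro ⟨h, -⟩; omega
      | k c => simp [Inc]
      | g m h =>
        rw [inc_core (by simp)]
        simp only [mem_armL, Nd.g.injEq, reduceCtorEq, and_false, exists_false, false_or]
        constructor
        · rintro ⟨w, h1, rfl, rfl⟩
          exact ⟨⟨show 0 < t - 2 by omega, h1.1⟩, Or.inl ⟨h1.2, rfl⟩⟩
        · rintro ⟨⟨h1, h1'⟩, ⟨h2, h3⟩ | ⟨h2, h3⟩ | ⟨h2, h3⟩⟩
          · cases m with
            | z j =>
              simp only [isX, Vx.tau.injEq] at h3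
              subst h3
              exact ⟨h, ⟨h1', h2⟩, rfl, rfl⟩
            | _ => simp [isX] at h3
          · cases m <;> simp [isY] at h3
          · cases m <;> simp [isM] at h3
    | succ i =>
      have hi : i + 1 ≤ t - 2 := hv
      unfold P
      rw [List.mem_append, List.mem_reverse, List.mem_cons, List.mem_cons, mem_map_g]
      cases n with
      | q j =>
        have hno : Nd.q j ∉ (if i + 1 < t - 2 then
            (armW false (t - 1) []).map (Nd.g (.z (i + 1))) else []) := by
          split_ifs <;> simp
        simp only [reduceCtorEq, and_false, exists_false, Nd.q.injEq, false_or, hno, or_false,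
          okN, Inc]
        constructor
        · rintro (rfl | rfl)
          · exact ⟨by omega, by omega⟩
          · exact ⟨by omega, by omega⟩
        · rintro ⟨h1, h2⟩; omega
      | k c =>
        have hno : Nd.k c ∉ (if i + 1 < t - 2 then
            (armW false (t - 1) []).map (Nd.g (.z (i + 1))) else []) := by
          split_ifs <;> simp
        simp [Inc, hno]
      | g m h =>
        rw [inc_core (by simp)]
        simp only [mem_armR, Nd.g.injEq, reduceCtorEq, false_or]
        constructor
        · rintro (⟨w, h1, rfl, rfl⟩ | h1)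
          · exact ⟨⟨show i < t - 2 by omega, h1.1⟩, Or.inr (Or.inl ⟨h1.2, rfl⟩)⟩
          · split_ifs at h1 with h0
            · obtain ⟨w, h2, h3⟩ := mem_map_g.1 h1
              simp only [Nd.g.injEq] at h3
              obtain ⟨rfl, rfl⟩ := h3
              rw [mem_armL] at h2
              exact ⟨⟨h0, h2.1⟩, Or.inl ⟨h2.2, rfl⟩⟩
            · simp at h1
        · rintro ⟨⟨h1, h1'⟩, ⟨h2, h3⟩ | ⟨h2, h3⟩ | ⟨h2, h3⟩⟩
          · cases m with
            | z j =>
              simp only [isX, Vx.tau.injEq] at h3
              subst h3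
              right
              rw [if_pos (show i + 1 < t - 2 from h1)]
              exact mem_map_g.2 ⟨h, mem_armL.2 ⟨h1', h2⟩, rfl⟩
            | _ => simp [isX] at h3
          · cases m with
            | z j =>
              simp only [isY, Vx.tau.injEq, Nat.add_right_cancel_iff] at h3
              subst h3
              exact Or.inl ⟨h, ⟨h1', h2⟩, rfl, rfl⟩
            | _ => simp [isY] at h3
          · cases m <;> simp [isM] at h3
  | mem q s =>
    have hs := hv.2
    unfold P
    rw [List.mem_append, List.mem_reverse, List.mem_cons]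
    cases n with
    | q j =>
      have h1 : Nd.q j ∉ carm t (I.loc q s) := by
        unfold carm
        split
        · simp
        · split_ifs <;> simp
      have h2 : Nd.q j ∉ marm t q s := by
        unfold marm
        split_ifs <;> simp
      simp only [h1, h2, false_or, or_false, Nd.q.injEq, okN, Inc]
      constructor
      · rintro rfl; exact ⟨le_rfl, rfl⟩
      · rintro ⟨-, h⟩; exact h
    | k c =>
      have h2 : Nd.k c ∉ marm t q s := by
        unfold marm
        split_ifs <;> simp
      simp only [h2, or_false, reduceCtorEq, okN, Inc]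
      constructor
      · intro h
        unfold carm at h
        split at h
        · simp at h
        · rename_i c' pos heq
          have h3 : c = c' := by
            split_ifs at h <;> simpa using h
          subst h3
          exact ⟨hI.mem q hv.1 s _ pos heq, pos, heq⟩
      · rintro ⟨-, pos, heq⟩
        rw [heq]
        unfold carm
        simp
    | g m h =>
      rw [inc_core (by simp)]
      simp only [reduceCtorEq, false_or]
      have hc : Nd.g m h ∈ carm t (I.loc q s) ↔ ∃ c e, m = .w c e ∧
          I.loc q s = some (c, if e then 1 else 0) ∧ h.length < t - 4 ∧ L h = none := by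
        unfold carm
        split
        · rename_i heq
          rw [heq]
          simp
        · rename_i c pos heq
          rw [heq]
          constructor
          · intro hm
            rw [List.mem_cons] at hm
            rcases hm with hm | hm
            · simp at hm
            · split_ifs at hm with h1 h2
              · obtain ⟨w, h3, h4⟩ := mem_map_g.1 hm
                simp only [Nd.g.injEq] at h4
                obtain ⟨rfl, rfl⟩ := h4
                exact ⟨c, false, rfl, by rw [h1]; rfl, mem_armL.1 h3⟩
              · obtain ⟨w, h3, h4⟩ := mem_map_g.1 hm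
                simp only [Nd.g.injEq] at h4
                obtain ⟨rfl, rfl⟩ := h4
                exact ⟨c, true, rfl, by rw [h2]; rfl, mem_armL.1 h3⟩
              · simp at hm
          · rintro ⟨c', e, rfl, h1, h2⟩
            simp only [Option.some.injEq, Prod.mk.injEq] at h1
            obtain ⟨rfl, rfl⟩ := h1
            refine List.mem_cons_of_mem _ ?_
            cases e
            · simp only [Bool.false_eq_true, if_false, if_true]
              exact mem_map_g.2 ⟨h, mem_armL.2 h2, rfl⟩
            · simp only [if_true, one_ne_zero, if_false]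
              exact mem_map_g.2 ⟨h, mem_armL.2 h2, rfl⟩
      have hm : Nd.g m h ∈ marm t q s ↔
          (m = .a q ∧ h.length < t - 1 ∧ (L h = none ∧ s ≠ 1 ∨ R h = none ∧ s = 1)) ∨
          (m = .b q ∧ h.length < t - 2 ∧ (L h = none ∧ s = 0 ∨ R h = none ∧ s = 2)) := by
        have hs' : s = 0 ∨ s = 1 ∨ s = 2 := by omega
        rcases hs' with rfl | rfl | rfl
        · unfold marm
          simp only [if_true, List.mem_append, mem_map_g, mem_armL, Nd.g.injEq]
          constructor
          · rintro (⟨w, h1, rfl, rfl⟩ | ⟨w, h1, rfl, rfl⟩)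
            · exact Or.inl ⟨rfl, h1.1, Or.inl ⟨h1.2, by simp⟩⟩
            · exact Or.inr ⟨rfl, h1.1, Or.inl ⟨h1.2, by simp⟩⟩
          · rintro (⟨rfl, h1, ⟨h2, -⟩ | ⟨-, h3⟩⟩ | ⟨rfl, h1, ⟨h2, -⟩ | ⟨-, h3⟩⟩)
            · exact Or.inl ⟨h, ⟨h1, h2⟩, rfl, rfl⟩
            · simp at h3
            · exact Or.inr ⟨h, ⟨h1, h2⟩, rfl, rfl⟩
            · simp at h3
        · unfold marm
          simp only [one_ne_zero, if_false, if_true, mem_map_g, mem_armR, Nd.g.injEq]
          constructor
          · rintro ⟨w, h1, rfl, rfl⟩
            exact Or.inl ⟨rfl, h1.1, Or.inr ⟨h1.2, by simp⟩⟩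
          · rintro (⟨rfl, h1, ⟨-, h3⟩ | ⟨h2, -⟩⟩ | ⟨rfl, h1, ⟨-, h3⟩ | ⟨-, h3⟩⟩)
            · simp at h3
            · exact ⟨h, ⟨h1, h2⟩, rfl, rfl⟩
            · simp at h3
            · simp at h3
        · unfold marm
          simp only [OfNat.ofNat_ne_zero, OfNat.ofNat_ne_one, if_false, List.mem_append,
            mem_map_g, mem_armL, mem_armR, Nd.g.injEq]
          constructor
          · rintro (⟨w, h1, rfl, rfl⟩ | ⟨w, h1, rfl, rfl⟩)
            · exact Or.inl ⟨rfl, h1.1, Or.inl ⟨h1.2, by simp⟩⟩
            · exact Or.inr ⟨rfl, h1.1, Or.inr ⟨h1.2, by simp⟩⟩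
          · rintro (⟨rfl, h1, ⟨h2, -⟩ | ⟨-, h3⟩⟩ | ⟨rfl, h1, ⟨-, h3⟩ | ⟨h2, -⟩⟩)
            · exact Or.inl ⟨h, ⟨h1, h2⟩, rfl, rfl⟩
            · simp at h3
            · simp at h3
            · exact Or.inr ⟨h, ⟨h1, h2⟩, rfl, rfl⟩
      rw [hc, hm]
      constructor
      · rintro (⟨c, e, rfl, h1, h2, h3⟩ | ⟨rfl, h1, h2⟩ | ⟨rfl, h1, h2⟩)
        · exact ⟨⟨hI.mem q hv.1 s c _ h1, h2⟩, Or.inl ⟨h3, q, s, rfl, h1⟩⟩
        · refine ⟨⟨hv.1, h1⟩, ?_⟩
          have hs' : s = 0 ∨ s = 1 ∨ s = 2 := by omega
          rcases hs' with rfl | rfl | rfl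
          · rcases h2 with h2 | h2
            · exact Or.inl ⟨h2.1, rfl⟩
            · omega
          · rcases h2 with h2 | h2
            · omega
            · exact Or.inr (Or.inl ⟨h2.1, rfl⟩)
          · rcases h2 with h2 | h2
            · exact Or.inr (Or.inr ⟨h2.1, rfl⟩)
            · omega
        · refine ⟨⟨hv.1, h1⟩, ?_⟩
          rcases h2 with ⟨h2, rfl⟩ | ⟨h2, rfl⟩
          · exact Or.inl ⟨h2, rfl⟩
          · exact Or.inr (Or.inl ⟨h2, rfl⟩)
      · rintro ⟨⟨h1, h1'⟩, ⟨h2, h3⟩ | ⟨h2, h3⟩ | ⟨h2, h3⟩⟩
        · cases m with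
          | z j => simp [isX] at h3
          | a q' =>
            simp only [isX, Vx.mem.injEq] at h3
            obtain ⟨rfl, rfl⟩ := h3
            exact Or.inr (Or.inl ⟨rfl, h1', Or.inl ⟨h2, by omega⟩⟩)
          | b q' =>
            simp only [isX, Vx.mem.injEq] at h3
            obtain ⟨rfl, rfl⟩ := h3
            exact Or.inr (Or.inr ⟨rfl, h1', Or.inl ⟨h2, rfl⟩⟩)
          | w c e =>
            obtain ⟨q', s', h4, h5⟩ := h3
            simp only [Vx.mem.injEq] at h4
            obtain ⟨rfl, rfl⟩ := h4
            exact Or.inl ⟨c, e, rfl, h5, h1', h2⟩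
        · cases m with
          | z j => simp [isY] at h3
          | a q' =>
            simp only [isY, Vx.mem.injEq] at h3
            obtain ⟨rfl, rfl⟩ := h3
            exact Or.inr (Or.inl ⟨rfl, h1', Or.inr ⟨h2, rfl⟩⟩)
          | b q' =>
            simp only [isY, Vx.mem.injEq] at h3
            obtain ⟨rfl, rfl⟩ := h3
            exact Or.inr (Or.inr ⟨rfl, h1', Or.inr ⟨h2, rfl⟩⟩)
          | w c e => simp [isY] at h3
        · cases m with
          | a q' =>
            simp only [isM, Vx.mem.injEq] at h3
            obtain ⟨rfl, rfl⟩ := h3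
            exact Or.inr (Or.inl ⟨rfl, h1', Or.inl ⟨h2, by omega⟩⟩)
          | _ => exact h3.elim

end Pool.Agent.Spanner
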