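import Pool.Agent.Lib_MP_b5064f_lc.Src
import Pool.Agent.Lib_MP_8cd8c6_lc.Complete

set_option autoImplicit false

/-!
# The reduction runs in polynomial time
-/

namespace Pool.Agent.Spanner

open Pool.Agent.PartSep Pool.Agent.PartSep.TM Pool.Agent.PartSep.CL
open Pool.Agent.Lib_MP_8cd8c6_lc
open N487b59b3

set_option synthInstance.maxSize 2000

/-- the codes of the nodes of the host tree -/
abbrev NC := (ℕ × ℕ × ℕ × ℕ) × List Bool

/-- the code of a node -/
def code : Nd → NC
  | .q i => ((0, i, 0, 0), [])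
  | .k c => ((1, c), [])
  | .g (.z i) b => ((2, i, 0, 0), b)
  | .g (.a q) b => ((3, q.1, q.2, 0), b)
  | .g (.b q) b => ((4, q.1, q.2, 0), b)
  | .g (.w c false) b => ((5, c), b)
  | .g (.w c true) b => ((6, c), b)

theorem code_injective : Function.Injective code := by
  intro x y h
  rcases x with i | c | ⟨i | q | q | ⟨c, _ | _⟩, b⟩ <;>
    rcases y with i' | c' | ⟨i' | q' | q' | ⟨c', _ | _⟩, b'⟩ <;>
    simp only [code, Prod.mk.injEq, and_true, true_and] at h <;>
    first
      | (exfalso; simp at h; done)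
      | (rw [h]; done)
      | (rw [h.1, h.2]; done)
      | (rw [Prod.ext h.1.1 h.1.2, h.2]; done)

/-- nodes of a gadget -/
def wl (h : ℕ × ℕ × ℕ × ℕ) (ws : List (List Bool)) : List NC := ws.map (fun w => (h, w))

/-- the paths of a gadget -/
def cB (k : ℕ) (h : ℕ × ℕ × ℕ × ℕ) : List (List NC) := (words k).map (fun b => wl h (pw k b))

variable (t : ℕ)

/-- the part of a member in the branch of its clause -/
def carmC (c : Cn) (pos : ℕ) : List NC :=
  ((1, c), []) :: (if decide (pos = 0) = true then wl (5, c) (armW false (t - 4) [])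
    else if decide (pos = 1) = true then wl (6, c) (armW false (t - 4) []) else [])

/-- the part of the member `s` in the branch of its clause -/
def cp0 (O : List Occ) (q : Cl) : List NC :=
  if decide (q.2 + 1 < O.length) = true then carmC t (1, q.1, q.2) 0 else []

def cp1 (O : List Occ) (q : Cl) : List NC :=
  if decide (q.2 = 0) = true then carmC t (0, (gt O q.1).1.1, 0) (gt O q.1).1.2
    else carmC t (1, q.1, q.2 - 1) 1

def cp2 (O : List Occ) (q : Cl) : List NC :=
  if opp O q.1 q.2 = true then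
    (if decide (q.1 < q.2) = true then carmC t (2, q.1, q.2) 0 else carmC t (2, q.2, q.1) 1)
    else []

/-- the path of a member -/
def memL (cp mp : List NC) : List NC := cp.reverse ++ (((0, t - 2, 0, 0), []) :: mp)

/-- the paths of a variable -/
def vAc (O : List Occ) (q : Cl) : List (List NC) :=
  memL t (cp0 t O q) (wl (3, q.1, q.2, 0) (armW false (t - 1) []) ++
      wl (4, q.1, q.2, 0) (armW false (t - 2) [])) ::
    memL t (cp1 t O q) (wl (3, q.1, q.2, 0) (armW true (t - 1) [])) ::
    memL t (cp2 t O q) (wl (3, q.1, q.2, 0) (armW false (t - 1) []) ++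
      wl (4, q.1, q.2, 0) (armW true (t - 2) [])) ::
    (cB (t - 1) (3, q.1, q.2, 0) ++ cB (t - 2) (4, q.1, q.2, 0))

/-- the paths of a clause -/
def vCc (c : Cn) : List (List NC) :=
  ((wl (5, c) (armW true (t - 4) [])).reverse ++
    (((1, c), []) :: wl (6, c) (armW true (t - 4) []))) ::
    (cB (t - 4) (5, c) ++ cB (t - 4) (6, c))

/-- the constant part -/
def constP : List (List NC) :=
  (vTau t ++ vZ t).map (fun v => (P t ⟨[], [], fun _ _ => none⟩ v).map code)

/-- all paths -/
def allC (n : ℕ) (O : List Occ) : List (List NC) :=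
  constP t ++ ((mkA O).flatMap (vAc t O) ++ (mkC0 n ++ (mkC1 O ++ mkC2 O)).flatMap (vCc t))

variable {t}

theorem carm_code (c : Cn) (pos : ℕ) : (carm t (some (c, pos))).map code = carmC t c pos := by
  change (Nd.k c :: (if pos = 0 then (armW false (t - 4) []).map (Nd.g (.w c false))
      else if pos = 1 then (armW false (t - 4) []).map (Nd.g (.w c true)) else [])).map code = _
  unfold carmC
  rw [List.map_cons]
  congr 1
  simp only [decide_eq_true_eq]
  split_ifs
  · rw [List.map_map]; rfl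
  · rw [List.map_map]; rfl
  · rfl

theorem cB_eq {k : ℕ} {n : GN} {h : ℕ × ℕ × ℕ × ℕ} (hk : kk t n = k)
    (hc : ∀ b, code (.g n b) = (h, b)) (I : Ins) :
    ((words k).map (Vx.g n)).map (fun v => (P t I v).map code) = cB k h := by
  unfold cB
  rw [List.map_map]
  congr 1
  funext b
  change ((pw (kk t n) b).map (Nd.g n)).map code = _
  rw [hk, List.map_map]
  unfold wl
  congr 1
  funext w
  exact hc w

theorem wl_eq {n : GN} {h : ℕ × ℕ × ℕ × ℕ} (hc : ∀ b, code (.g n b) = (h, b))
    (ws : List (List Bool)) : (ws.map (Nd.g n)).map code = wl h ws := by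
  rw [List.map_map]
  unfold wl
  congr 1
  funext w
  exact hc w

theorem vAc_eq {n : ℕ} {O : List Occ} {q : Cl} (hq : q ∈ mkA O) :
    (vA t q).map (fun v => (P t (mkI n O) v).map code) = vAc t O q := by
  obtain ⟨h1, h2⟩ := mem_mkA.1 hq
  have ha : ∀ b, code (.g (.a q) b) = ((3, q.1, q.2, 0), b) := fun b => rfl
  have hb : ∀ b, code (.g (.b q) b) = ((4, q.1, q.2, 0), b) := fun b => rfl
  have e0 : (carm t (mkLoc O q 0)).map code = cp0 t O q := by
    unfold cp0
    by_cases h : q.2 + 1 < O.length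
    · rw [if_pos (decide_eq_true h), loc_0 h1 h, carm_code]
    · rw [if_neg (by simpa using h)]
      unfold mkLoc
      rw [if_pos ⟨h1, h2⟩, if_pos rfl, if_neg h]
      rfl
  have e1 : (carm t (mkLoc O q 1)).map code = cp1 t O q := by
    unfold cp1 mkLoc
    rw [if_pos ⟨h1, h2⟩, if_neg one_ne_zero, if_pos rfl]
    by_cases h : q.2 = 0
    · rw [if_pos h, if_pos (decide_eq_true h), carm_code]
    · rw [if_neg h, if_neg (by simpa using h), carm_code]
  have e2 : (carm t (mkLoc O q 2)).map code = cp2 t O q := by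
    unfold cp2 mkLoc
    rw [if_pos ⟨h1, h2⟩, if_neg (by norm_num), if_neg (by norm_num), if_pos rfl]
    by_cases h : opp O q.1 q.2 = true
    · rw [if_pos h, if_pos h]
      by_cases h' : q.1 < q.2
      · rw [if_pos h', if_pos (decide_eq_true h'), carm_code]
      · rw [if_neg h', if_neg (by simpa using h'), carm_code]
    · rw [if_neg h, if_neg h]
      rfl
  unfold vA vAc
  rw [List.map_cons, List.map_cons, List.map_cons, List.map_append,
    cB_eq (t := t) (k := t - 1) rfl ha, cB_eq (t := t) (k := t - 2) rfl hb]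
  congr 1
  · change ((carm t (mkLoc O q 0)).reverse ++ (Nd.q (t - 2) :: ((armW false (t - 1) []).map
      (Nd.g (.a q)) ++ (armW false (t - 2) []).map (Nd.g (.b q))))).map code = _
    unfold memL
    rw [List.map_append, List.map_reverse, List.map_cons, List.map_append, wl_eq ha, wl_eq hb, e0]
    rfl
  congr 1
  · change ((carm t (mkLoc O q 1)).reverse ++ (Nd.q (t - 2) :: ((armW true (t - 1) []).map
      (Nd.g (.a q))))).map code = _
    unfold memL
    rw [List.map_append, List.map_reverse, List.map_cons, wl_eq ha, e1]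
    rfl
  congr 1
  · change ((carm t (mkLoc O q 2)).reverse ++ (Nd.q (t - 2) :: ((armW false (t - 1) []).map
      (Nd.g (.a q)) ++ (armW true (t - 2) []).map (Nd.g (.b q))))).map code = _
    unfold memL
    rw [List.map_append, List.map_reverse, List.map_cons, List.map_append, wl_eq ha, wl_eq hb, e2]
    rfl

theorem vCc_eq (I : Ins) (c : Cn) :
    (vC t c).map (fun v => (P t I v).map code) = vCc t c := by
  have ha : ∀ b, code (.g (.w c false) b) = ((5, c), b) := fun b => rfl
  have hb : ∀ b, code (.g (.w c true) b) = ((6, c), b) := fun b => rfl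
  unfold vC vCc
  rw [List.map_cons, List.map_append, cB_eq (t := t) (k := t - 4) rfl ha,
    cB_eq (t := t) (k := t - 4) rfl hb]
  congr 1
  change (((armW true (t - 4) []).map (Nd.g (.w c false))).reverse ++
      (Nd.k c :: (armW true (t - 4) []).map (Nd.g (.w c true)))).map code = _
  rw [List.map_append, List.map_reverse, List.map_cons, wl_eq ha, wl_eq hb]
  rfl

theorem constP_eq (I : Ins) :
    (vTau t ++ vZ t).map (fun v => (P t I v).map code) = constP t := by
  unfold constP
  apply List.map_congr_left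
  intro v hv
  rcases List.mem_append.1 hv with h | h
  · obtain ⟨i, -, rfl⟩ := mem_vTau.1 h
    cases i <;> rfl
  · obtain ⟨i, -, b, -, rfl⟩ := mem_vZ.1 h
    rfl

theorem pathList_eq (n : ℕ) (O : List Occ) : pathList t (mkI n O) code = allC t n O := by
  unfold pathList allV allC
  rw [List.map_append, constP_eq, List.map_append, List.map_flatMap, List.map_flatMap]
  congr 1
  congr 1
  · apply List.flatMap_congr
    intro q hq
    exact vAc_eq hq
  · apply List.flatMap_congr
    intro c hc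
    exact vCc_eq _ c

/-! ### Polynomial time -/

section FPpart

variable {E : Type} [Rep E]

theorem fp_wl (ws : List (List Bool)) {h : E → ℕ × ℕ × ℕ × ℕ} (hh : FP h) :
    FP (fun x => wl (h x) ws) := by
  unfold wl
  exact mapConst ws (fun w => FP.pair hh (FP.const w))

theorem fp_cB (k : ℕ) {h : E → ℕ × ℕ × ℕ × ℕ} (hh : FP h) : FP (fun x => cB k (h x)) := by
  unfold cB
  exact mapConst _ (fun b => fp_wl _ hh)

theorem fp_hc (k : ℕ) {c : E → Cn} (hc : FP c) : FP (fun x => ((k, c x) : ℕ × ℕ × ℕ × ℕ)) :=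
  FP.pair (FP.const k) hc

theorem fp_hq (k : ℕ) {q : E → Cl} (hq : FP q) :
    FP (fun x => ((k, (q x).1, (q x).2, 0) : ℕ × ℕ × ℕ × ℕ)) :=
  FP.pair (FP.const k) (FP.pair (FP.comp FP.fst hq) (FP.pair (FP.comp FP.snd hq) (FP.const 0)))

theorem fp_cn (k : ℕ) {a b : E → ℕ} (ha : FP a) (hb : FP b) :
    FP (fun x => ((k, a x, b x) : Cn)) :=
  FP.pair (FP.const k) (FP.pair ha hb)

theorem fp_carmC {c : E → Cn} (hc : FP c) {pos : E → ℕ} (hp : FP pos) :
    FP (fun x => carmC t (c x) (pos x)) := by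
  unfold carmC
  exact FP.consE (FP.pair (fp_hc 1 hc) (FP.const [])) (FP.ite (FP.natEq hp (FP.const 0))
    (fp_wl _ (fp_hc 5 hc)) (FP.ite (FP.natEq hp (FP.const 1)) (fp_wl _ (fp_hc 6 hc)) (FP.const [])))

instance : Inhabited Occ := ⟨((0, 0), ([], true))⟩

theorem fp_gt {O : E → List Occ} (hO : FP O) {i : E → ℕ} (hi : FP i) :
    FP (fun x => gt (O x) (i x)) := by
  unfold gt
  exact FP.getE hO hi _

theorem fp_opp {O : E → List Occ} (hO : FP O) {i j : E → ℕ} (hi : FP i) (hj : FP j) :
    FP (fun x => opp (O x) (i x) (j x)) := by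
  have h1 := fp_gt hO hi
  have h2 := fp_gt hO hj
  have e1 := FP.eqS (FP.comp FP.fst (FP.comp FP.snd h1)) (FP.comp FP.fst (FP.comp FP.snd h2))
  have e2 := FP.bne (FP.comp FP.snd (FP.comp FP.snd h1)) (FP.comp FP.snd (FP.comp FP.snd h2))
  refine (FP.and e1 e2).congr (fun x => ?_)
  unfold opp
  rw [Bool.eq_iff_iff]
  simp

theorem fp_memL {cp mp : E → List NC} (hc : FP cp) (hm : FP mp) :
    FP (fun x => memL t (cp x) (mp x)) := by
  unfold memL
  exact FP.appendE (FP.reverseE hc) (FP.consE (FP.const _) hm)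

theorem fp_vAc {O : E → List Occ} (hO : FP O) {q : E → Cl} (hq : FP q) :
    FP (fun x => vAc t (O x) (q x)) := by
  have q1 := FP.comp FP.fst hq
  have q2 := FP.comp FP.snd hq
  have h3 := fp_hq 3 hq
  have h4 := fp_hq 4 hq
  have hc0 : FP (fun x => cp0 t (O x) (q x)) := by
    unfold cp0
    exact FP.ite (FP.natLt (FP.add q2 (FP.const 1)) (FP.lengthE hO))
      (fp_carmC (fp_cn 1 q1 q2) (FP.const 0)) (FP.const [])
  have hc1 : FP (fun x => cp1 t (O x) (q x)) := by
    unfold cp1
    have hg := FP.comp FP.fst (fp_gt hO q1)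
    exact FP.ite (FP.natEq q2 (FP.const 0))
      (fp_carmC (fp_cn 0 (FP.comp FP.fst hg) (FP.const 0)) (FP.comp FP.snd hg))
      (fp_carmC (fp_cn 1 q1 (FP.sub q2 (FP.const 1))) (FP.const 1))
  have hc2 : FP (fun x => cp2 t (O x) (q x)) := by
    unfold cp2
    exact FP.ite (fp_opp hO q1 q2) (FP.ite (FP.natLt q1 q2)
      (fp_carmC (fp_cn 2 q1 q2) (FP.const 0)) (fp_carmC (fp_cn 2 q2 q1) (FP.const 1)))
      (FP.const [])
  unfold vAc
  exact FP.consE (fp_memL hc0 (FP.appendE (fp_wl _ h3) (fp_wl _ h4)))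
    (FP.consE (fp_memL hc1 (fp_wl _ h3)) (FP.consE (fp_memL hc2 (FP.appendE (fp_wl _ h3)
      (fp_wl _ h4))) (FP.appendE (fp_cB _ h3) (fp_cB _ h4))))

theorem fp_vCc {c : E → Cn} (hc : FP c) : FP (fun x => vCc t (c x)) := by
  unfold vCc
  exact FP.consE (FP.appendE (FP.reverseE (fp_wl _ (fp_hc 5 hc)))
    (FP.consE (FP.pair (fp_hc 1 hc) (FP.const [])) (fp_wl _ (fp_hc 6 hc))))
    (FP.appendE (fp_cB _ (fp_hc 5 hc)) (fp_cB _ (fp_hc 6 hc)))

theorem fp_mkA {O : E → List Occ} (hO : FP O) : FP (fun x => mkA (O x)) := by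
  unfold mkA
  exact FP.flatMapE (FP.range (FP.lengthE hO)) (g := fun y : E × ℕ =>
    (List.range (O y.1).length).map (fun j => ((y.2, j) : Cl)))
    (FP.mapE (FP.range (FP.lengthE (FP.comp hO FP.fst))) (g := fun z : (E × ℕ) × ℕ =>
      ((z.1.2, z.2) : Cl)) (FP.pair (FP.comp FP.snd FP.fst) FP.snd))

theorem fp_mkC {n : E → ℕ} (hn : FP n) {O : E → List Occ} (hO : FP O) :
    FP (fun x => mkC0 (n x) ++ (mkC1 (O x) ++ mkC2 (O x))) := by
  refine FP.appendE ?_ (FP.appendE ?_ ?_)
  · unfold mkC0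
    exact FP.mapE (FP.range hn) (g := fun y : E × ℕ => ((0, y.2, 0) : Cn))
      (fp_cn 0 FP.snd (FP.const 0))
  · unfold mkC1
    exact FP.flatMapE (FP.range (FP.lengthE hO)) (g := fun y : E × ℕ =>
      (List.range ((O y.1).length - 1)).map (fun j => ((1, y.2, j) : Cn)))
      (FP.mapE (FP.range (FP.sub (FP.lengthE (FP.comp hO FP.fst)) (FP.const 1)))
        (g := fun z : (E × ℕ) × ℕ => ((1, z.1.2, z.2) : Cn))
        (fp_cn 1 (FP.comp FP.snd FP.fst) FP.snd))
  · unfold mkC2
    refine FP.flatMapE (FP.range (FP.lengthE hO)) (g := fun y : E × ℕ =>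
      (List.range (O y.1).length).flatMap (fun j =>
        if (decide (y.2 < j) && opp (O y.1) y.2 j) = true then [((2, y.2, j) : Cn)] else [])) ?_
    refine FP.flatMapE (FP.range (FP.lengthE (FP.comp hO FP.fst))) (g := fun z : (E × ℕ) × ℕ =>
        if (decide (z.1.2 < z.2) && opp (O z.1.1) z.1.2 z.2) = true then
          [((2, z.1.2, z.2) : Cn)] else []) ?_
    have h2 : FP (fun z : (E × ℕ) × ℕ => z.1.2) := FP.comp FP.snd FP.fst
    exact FP.ite (FP.and (FP.natLt h2 FP.snd) (fp_opp (FP.comp hO (FP.comp FP.fst FP.fst)) h2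
      FP.snd)) (FP.consE (fp_cn 2 h2 FP.snd) (FP.const [])) (FP.const [])

theorem fp_allC {n : E → ℕ} (hn : FP n) {O : E → List Occ} (hO : FP O) :
    FP (fun x => allC t (n x) (O x)) := by
  unfold allC
  refine FP.appendE (FP.const _) (FP.appendE ?_ ?_)
  · exact FP.flatMapE (fp_mkA hO) (g := fun y : E × Cl => vAc t (O y.1) y.2)
      (fp_vAc (FP.comp hO FP.fst) FP.snd)
  · exact FP.flatMapE (fp_mkC hn hO) (g := fun y : E × Cn => vCc t y.2) (fp_vCc FP.snd)

theorem fp_padF {φ : E → CNF Name} (hφ : FP φ) : FP (fun x => padF (φ x)) := by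
  unfold padF rename
  refine FP.appendE ?_ (FP.const _)
  have h1 : FP (fun x => (φ x).map (fun c => c.map (fun l => ((Sym.i :: l.1, l.2) :
      Name × Bool)))) :=
    FP.mapE hφ (g := fun y : E × List (Name × Bool) => y.2.map (fun l => ((Sym.i :: l.1, l.2) :
      Name × Bool))) (FP.mapE FP.snd (g := fun z : (E × List (Name × Bool)) × (Name × Bool) =>
        ((Sym.i :: z.2.1, z.2.2) : Name × Bool))
        (FP.pair (FP.cons _ (FP.comp FP.fst FP.snd)) (FP.comp FP.snd FP.snd)))
  exact FP.mapE h1 (g := fun y : E × List (Name × Bool) =>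
    (([], true) : Name × Bool) :: ([], true) :: y.2)
    (FP.consE (FP.const _) (FP.consE (FP.const _) FP.snd))

theorem fp_occs {φ : E → CNF Name} (hφ : FP φ) : FP (fun x => occs (φ x)) := by
  unfold occs
  refine FP.flatMapE (FP.range (FP.lengthE hφ)) (g := fun y : E × ℕ =>
    (List.range ((φ y.1)[y.2]?.getD []).length).map
    (fun k => (((y.2, k), ((φ y.1)[y.2]?.getD [])[k]?.getD ([], true)) : Occ))) ?_
  have h1 : FP (fun y : E × ℕ => (φ y.1)[y.2]?.getD []) := FP.getE (FP.comp hφ FP.fst) FP.snd _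
  refine FP.mapE (FP.range (FP.lengthE h1)) (g := fun z : (E × ℕ) × ℕ =>
    (((z.1.2, z.2), ((φ z.1.1)[z.1.2]?.getD [])[z.2]?.getD ([], true)) : Occ)) ?_
  exact FP.pair (FP.pair (FP.comp FP.snd FP.fst) FP.snd) (FP.getE (FP.comp h1 FP.fst) FP.snd _)

/-- the paths for a formula -/
theorem fp_paths {φ : E → CNF Name} (hφ : FP φ) :
    FP (fun x => pathList t (insOf (φ x)) code) := by
  have h1 := fp_padF hφ
  refine (fp_allC (t := t) (FP.lengthE h1) (fp_occs h1)).congr (fun x => ?_)
  exact (pathList_eq _ _).symm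

/-! ### The adjacency matrix -/

/-- two lists have a common element -/
def meetB (l m : List NC) : Bool := !(l.all (fun a => m.all (fun b => !decide (a = b))))

theorem meetB_iff {l m : List NC} : meetB l m = true ↔ ∃ n, n ∈ l ∧ n ∈ m := by
  unfold meetB
  rw [Bool.not_eq_true', Bool.eq_false_iff]
  simp only [ne_eq, List.all_eq_true, Bool.not_eq_true', decide_eq_false_iff_not, not_forall,
    not_not]
  constructor
  · rintro ⟨a, h1, b, h2, h3⟩
    exact ⟨a, h1, h3 ▸ h2⟩
  · rintro ⟨a, h1, h2⟩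
    exact ⟨a, h1, a, h2, rfl⟩

theorem fp_meetB {l m : E → List NC} (hl : FP l) (hm : FP m) : FP (fun x => meetB (l x) (m x)) := by
  unfold meetB
  refine FP.not (fp_allE hl (p := fun y : E × NC => (m y.1).all (fun b => !decide (y.2 = b))) ?_)
  refine fp_allE (FP.comp hm FP.fst) (p := fun z : (E × NC) × NC => !decide (z.1.2 = z.2)) ?_
  exact FP.not (FP.eqR (FP.comp FP.snd FP.fst) FP.snd)

/-- the adjacency matrix of the intersection graph as a string -/
noncomputable def outI (l : List (List NC)) : List Sym :=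
  matS l.length (fun i j => !decide (i = j) && meetB (l[i]?.getD []) (l[j]?.getD []))

theorem fp_outI {l : E → List (List NC)} (hl : FP l) : FP (fun x => outI (l x)) := by
  unfold outI matS
  refine FP.flatMapS (FP.range (FP.lengthE hl)) (g := fun y : E × ℕ =>
    del ((List.range (l y.1).length).flatMap (fun j => del [bs (!decide (y.2 = j) &&
      meetB ((l y.1)[y.2]?.getD []) ((l y.1)[j]?.getD []))]))) ?_
  have hl1 : FP (fun y : E × ℕ => l y.1) := FP.comp hl FP.fst
  refine FP.del (FP.flatMapS (FP.range (FP.lengthE hl1)) (g := fun z : (E × ℕ) × ℕ =>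
    del [bs (!decide (z.1.2 = z.2) &&
      meetB ((l z.1.1)[z.1.2]?.getD []) ((l z.1.1)[z.2]?.getD []))]) ?_)
  have hl2 : FP (fun z : (E × ℕ) × ℕ => l z.1.1) := FP.comp hl (FP.comp FP.fst FP.fst)
  have h2 : FP (fun z : (E × ℕ) × ℕ => z.1.2) := FP.comp FP.snd FP.fst
  exact FP.del (fp_bs (FP.and (FP.not (FP.natEq h2 FP.snd))
    (fp_meetB (FP.getE hl2 h2 _) (FP.getE hl2 FP.snd _))))

theorem outI_eq (l : List (List NC)) : outI l = (encodeGraph (interG l)).map bs := by
  classical
  rw [encodeGraph_map]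
  unfold outI
  apply matS_congr
  intro i hi j hj
  rw [Bool.eq_iff_iff, Bool.and_eq_true, Bool.not_eq_true', decide_eq_false_iff_not, meetB_iff]
  unfold adjN
  rw [decide_eq_true_eq, List.getElem?_eq_getElem hi, List.getElem?_eq_getElem hj,
    Option.getD_some, Option.getD_some]
  constructor
  · rintro ⟨h1, h2⟩
    exact ⟨hi, hj, fun h => h1 (congrArg Fin.val h), h2⟩
  · rintro ⟨_, _, h1, h2⟩
    exact ⟨fun h => h1 (Fin.ext h), h2⟩

end FPpart

/-- For every language in `NP` and every `t ≥ 4` there is a polynomial time function computing codes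
of connected path graphs, which have a tree `t`-spanner if and only if the word belongs to the
language. -/
theorem hardness (ht : 4 ≤ t) {A : List Bool → Bool} (hA : A ∈ N68a2faeb.NP) :
    ∃ f : List Bool → List Bool, N68a2faeb.IsPolyTime f ∧ ∀ x, ∃ (n : ℕ) (G : SimpleGraph (Fin n)),
      f x = graphCode G ∧ G.Connected ∧ IsPathGraph G ∧
        (A x = true ↔ HasTreeSpanner G t) := by
  obtain ⟨g, hg, hAg⟩ := cook_levin hA
  refine ⟨fun x => encodeGraph (interG (pathList t (insOf (g ((bitEncode x).map bs))) code)),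
    ?_, fun x => ?_⟩
  · exact isPolyTime_of_fp (g := fun s => outI (pathList t (insOf (g s)) code))
      (fp_outI (fp_paths hg)) (fun x => outI_eq _)
  · obtain ⟨h1, h2, h3⟩ := reduction ht (good_insOf (g ((bitEncode x).map bs)))
      (nodup_mkA _) (nodup_mkC _ _) code_injective
    refine ⟨_, _, rfl, h1, h2, ?_⟩
    rw [hAg, h3, sat_insOf]

end Pool.Agent.Spanner
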