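import Pool.Agent.Lib_MP_b5064f_lc.Graph

set_option autoImplicit false

/-!
# A tree spanner gives a satisfying assignment
-/

namespace Pool.Agent.Spanner

open SimpleGraph

/-- the three occurrences of a variable -/
theorem cluster {V : Type} {p : V → V} {Z : V → Prop} {u v u' : V} (huv : u ≠ v) (huu' : u ≠ u')
    (hvu' : v ≠ u') (hu : ¬ Z u) (hv : ¬ Z v) (hu' : ¬ Z u')
    (h1 : ∀ m, (m = u ∨ m = v ∨ m = u') → Z (p m) ∨ Z (p (p m)))
    (h2 : ∀ z, Z z → p z ≠ u ∧ p z ≠ v ∧ p z ≠ u')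
    (hA : p v = u ∨ p u = v ∨ p v = u' ∨ p u' = v)
    (hB : ∃ i j, i + j ≤ 2 ∧ p^[i] u = p^[j] u') :
    (Z (p v) → ¬ Z (p u) ∧ ¬ Z (p u')) ∧
      ∀ m, (m = u ∨ m = v ∨ m = u') → Z (p m) ∨ (p m = u ∨ p m = v ∨ p m = u') := by
  have f1 := h1 u (Or.inl rfl)
  have f2 := h1 v (Or.inr (Or.inl rfl))
  have f3 := h1 u' (Or.inr (Or.inr rfl))
  have hB' : p u = u' ∨ u = p u' ∨ p u = p u' := by
    obtain ⟨i, j, hij, h⟩ := hB
    have hi : i = 0 ∨ i = 1 ∨ i = 2 := by omega
    have hj : j = 0 ∨ j = 1 ∨ j = 2 := by omega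
    rcases hi with rfl | rfl | rfl <;> rcases hj with rfl | rfl | rfl <;> try omega
    · exact absurd h huu'
    · exact Or.inr (Or.inl h)
    · -- u = p (p u')
      have h' : u = p (p u') := h
      rcases f3 with f | f
      · exact absurd h'.symm (h2 _ f).1
      · rw [← h'] at f; exact absurd f hu
    · exact Or.inl h
    · exact Or.inr (Or.inr h)
    · have h' : p (p u) = u' := h
      rcases f1 with f | f
      · exact absurd h' (h2 _ f).2.2
      · rw [h'] at f; exact absurd f hu'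
  by_cases hZ : Z (p v)
  · have hA' : p u = v ∨ p u' = v := by
      rcases hA with h | h | h | h
      · rw [h] at hZ; exact absurd hZ hu
      · exact Or.inl h
      · rw [h] at hZ; exact absurd hZ hu'
      · exact Or.inr h
    have hboth : p u = v ∧ p u' = v := by
      rcases hA' with h | h
      · rcases hB' with h3 | h3 | h3
        · exact absurd (h.symm.trans h3) hvu'
        · -- p u' = u, p u = v
          rcases f3 with f | f
          · rw [← h3] at f; exact absurd f hu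
          · rw [← h3, h] at f; exact absurd f hv
        · exact ⟨h, h3.symm.trans h⟩
      · rcases hB' with h3 | h3 | h3
        · rcases f1 with f | f
          · rw [h3] at f; exact absurd f hu'
          · rw [h3, h] at f; exact absurd f hv
        · exact absurd (h3.trans h) huv
        · exact ⟨h3.trans h, h⟩
    refine ⟨fun _ => ⟨by rw [hboth.1]; exact hv, by rw [hboth.2]; exact hv⟩, ?_⟩
    rintro m (rfl | rfl | rfl)
    · exact Or.inr (Or.inr (Or.inl hboth.1))
    · exact Or.inl hZ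
    · exact Or.inr (Or.inr (Or.inl hboth.2))
  · have hA' : p v = u ∨ p v = u' := by
      rcases hA with h | h | h | h
      · exact Or.inl h
      · rcases f1 with f | f
        · rw [h] at f; exact absurd f hv
        · rw [h] at f; exact absurd f hZ
      · exact Or.inr h
      · rcases f3 with f | f
        · rw [h] at f; exact absurd f hv
        · rw [h] at f; exact absurd f hZ
    refine ⟨fun h => absurd h hZ, ?_⟩
    have f2' : Z (p (p v)) := f2.resolve_left hZ
    rcases hA' with h | h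
    · rw [h] at f2'
      -- u is true
      have hu'c : Z (p u') ∨ p u' = u := by
        by_cases h3 : Z (p u')
        · exact Or.inl h3
        · right
          rcases hB' with h4 | h4 | h4
          · rw [h4] at f2'; exact absurd f2' hu'
          · exact h4.symm
          · rw [h4] at f2'; exact absurd f2' h3
      rintro m (rfl | rfl | rfl)
      · exact Or.inl f2'
      · exact Or.inr (Or.inl h)
      · rcases hu'c with h3 | h3
        · exact Or.inl h3
        · exact Or.inr (Or.inl h3)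
    · rw [h] at f2'
      have huc : Z (p u) ∨ p u = u' := by
        by_cases h3 : Z (p u)
        · exact Or.inl h3
        · right
          rcases hB' with h4 | h4 | h4
          · exact h4
          · rw [← h4] at f2'; exact absurd f2' hu
          · rw [← h4] at f2'; exact absurd f2' h3
      rintro m (rfl | rfl | rfl)
      · rcases huc with h3 | h3
        · exact Or.inl h3
        · exact Or.inr (Or.inr (Or.inr h3))
      · exact Or.inr (Or.inr (Or.inr h))
      · exact Or.inl f2'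

section

variable {t : ℕ} {I : Ins} {V : Type} {G : SimpleGraph V} (Λ : Layout t I G)

namespace Layout

/-- the vertices of a gadget -/
def reg (n : GN) : Set V := {v | ∃ b, Λ.lab v = .g n b}

theorem sub_eq {n : GN} (hn : okG t I n) : sub (kk t n) (Λ.cv n) [] = Λ.reg n := by
  ext v
  constructor
  · rintro ⟨w, -, hw, rfl⟩
    exact ⟨w, Λ.lab_cv hn hw⟩
  · rintro ⟨b, hb⟩
    have h1 := Λ.ok v
    rw [hb] at h1
    exact ⟨b, List.nil_suffix, h1.2, Λ.eq_vx hb⟩

/-- the vertices of the `z`-branch except for `tau 0` -/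
def zset : Set V := {v | (∃ i, Λ.lab v = .tau (i + 1)) ∨ ∃ i b, Λ.lab v = .g (.z i) b}

theorem isXY_tau {n : GN} {i : ℕ} (h : isX I n (.tau i) ∨ isY n (.tau i) ∨ isM n (.tau i)) :
    ∃ j, n = .z j ∧ (i = j ∨ i = j + 1) := by
  cases n with
  | z j =>
    simp only [isX, isY, isM, Vx.tau.injEq, or_false] at h
    exact ⟨j, rfl, h⟩
  | a q => simp [isX, isY, isM] at h
  | b q => simp [isX, isY, isM] at h
  | w c e => simp [isX, isY, isM] at h

/-- a node of a gadget with `tau i` -/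
theorem inc_tau {n : GN} {b : List Bool} {i : ℕ} (h : Inc t I (.g n b) (.tau i)) :
    ∃ j, n = .z j ∧ (i = j ∨ i = j + 1) := by
  rcases h with h1 | ⟨w, h1, h2⟩ | ⟨w, h1, h2⟩ | ⟨h1, h2⟩ | ⟨h1, h2⟩ | ⟨h1, h2⟩
  · simp at h1
  · simp at h2
  · simp at h2
  · exact isXY_tau (I := I) (Or.inl h2)
  · exact isXY_tau (I := I) (Or.inr (Or.inl h2))
  · exact isXY_tau (I := I) (Or.inr (Or.inr h2))

theorem inc_gz {i : ℕ} {b : List Bool} {l : Vx} (h : Inc t I (.g (.z i) b) l) :
    l = .tau i ∨ l = .tau (i + 1) ∨ ∃ b', l = .g (.z i) b' := by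
  rcases h with h1 | ⟨w, h1, h2⟩ | ⟨w, h1, h2⟩ | ⟨h1, h2⟩ | ⟨h1, h2⟩ | ⟨h1, h2⟩
  · exact Or.inr (Or.inr ⟨_, h1⟩)
  · exact Or.inr (Or.inr ⟨_, h2⟩)
  · exact Or.inr (Or.inr ⟨_, h2⟩)
  · exact Or.inl h2
  · exact Or.inr (Or.inl h2)
  · exact absurd h2 (by simp [isM])

variable {Λ}

theorem lab_ne_tau {v : V} (hz : v ∉ Λ.zset) (hr : v ≠ Λ.vx (.tau 0)) (i : ℕ) :
    Λ.lab v ≠ .tau i := by
  intro h
  cases i with
  | zero => exact hr (Λ.eq_vx h)
  | succ i => exact hz (Or.inl ⟨i, h⟩)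

/-- The `z`-branch is attached at `tau (t - 2)` and at `tau 0`. -/
theorem zset_adj {u v : V} (hu : u ∉ Λ.zset) (hr : u ≠ Λ.vx (.tau 0)) (hv : v ∈ Λ.zset)
    (h : G.Adj u v) : v = Λ.vx (.tau (t - 2)) := by
  obtain ⟨-, n, hn, h1, h2⟩ := (Λ.adj _ _).1 h
  have hnt := lab_ne_tau hu hr
  have hok := Λ.ok v
  rcases hv with ⟨i, hi⟩ | ⟨i, b, hb⟩
  · rw [hi] at h2 hok
    cases n with
    | q j =>
      cases hl : Λ.lab u with
      | tau k => exact absurd hl (hnt k)
      | mem q s =>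
        rw [hl] at h1
        have h1' : j = t - 2 := h1
        have h2' : i + 1 = 0 ∨ i + 1 = j ∨ i + 1 = j + 1 := h2
        have hok' : i + 1 ≤ t - 2 := hok
        have : i + 1 = t - 2 := by omega
        rw [← this]
        exact Λ.eq_vx hi
      | w c => rw [hl] at h1; exact h1.elim
      | g m b => rw [hl] at h1; exact h1.elim
    | k c => exact h2.elim
    | g n b =>
      obtain ⟨j, rfl, -⟩ := inc_tau h2
      rcases inc_gz h1 with h3 | h3 | ⟨b', h3⟩
      · exact absurd h3 (hnt _)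
      · exact absurd h3 (hnt _)
      · exact absurd (Or.inr ⟨_, _, h3⟩) hu
  · rw [hb] at h2
    obtain ⟨b', rfl, -⟩ := inc_g h2
    rcases inc_gz h1 with h3 | h3 | ⟨b', h3⟩
    · exact absurd h3 (hnt _)
    · exact absurd h3 (hnt _)
    · exact absurd (Or.inr ⟨_, _, h3⟩) hu

/-- The neighbours of `tau 0` and `tau (t - 2)` outside of the `z`-branch. -/
theorem tau_adj {u v : V} {i : ℕ} (hu : u ∉ Λ.zset) (hr : u ≠ Λ.vx (.tau 0))
    (hv : Λ.lab v = .tau i) (h : G.Adj u v) : ∃ q s, Λ.lab u = .mem q s := by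
  obtain ⟨-, n, hn, h1, h2⟩ := (Λ.adj _ _).1 h
  have hnt := lab_ne_tau hu hr
  rw [hv] at h2
  cases n with
  | q j =>
    cases hl : Λ.lab u with
    | tau k => exact absurd hl (hnt k)
    | mem q s => exact ⟨q, s, rfl⟩
    | w c => rw [hl] at h1; exact h1.elim
    | g m b => rw [hl] at h1; exact h1.elim
  | k c => exact h2.elim
  | g n b =>
    obtain ⟨j, rfl, -⟩ := inc_tau h2
    rcases inc_gz h1 with h3 | h3 | ⟨b', h3⟩
    · exact absurd h3 (hnt _)
    · exact absurd h3 (hnt _)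
    · exact absurd (Or.inr ⟨_, _, h3⟩) hu

/-! ### The tree -/

section

variable {p : V → V} {d : V → ℕ} (hp : IsParent G (Λ.vx (.tau 0)) p d)
  (hN : ∀ x y, G.Adj x y → Near p t x y)

include hN in
theorem near_of_inc {u v : V} {n : Nd} (hn : okN t I n) (h1 : Inc t I n (Λ.lab u))
    (h2 : Inc t I n (Λ.lab v)) : Near p t u v := by
  by_cases h : u = v
  · rw [h]; exact Near.refl _ _ _
  · exact hN _ _ ((Λ.adj _ _).2 ⟨h, n, hn, h1, h2⟩)

variable {n : GN} (hn : okG t I n) {x y : Vx} (hx : isX I n x) (hx' : ∀ l, isX I n l → l = x)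
    (hy : isY n y) (hy' : ∀ l, isY n l → l = y) (hxo : okV t I x) (hyo : okV t I y)

include hn hx hx' hy hy' hxo hyo

/-- the neighbours of a gadget -/
theorem reg_adj {z v : V} (hz : z ∈ Λ.reg n) (hv : v ∉ Λ.reg n) (h : G.Adj z v) :
    v = Λ.vx x ∨ v = Λ.vx y ∨ v ∈ Λ.mset n := by
  have hg := Λ.isGad hn hx hx' hy hy' hxo hyo
  rw [← Λ.sub_eq hn] at hz hv
  rcases hg.closed [] z hz v hv h with h1 | h1 | ⟨-, h1⟩
  · exact Or.inl h1
  · exact Or.inr (Or.inl h1)
  · exact Or.inr (Or.inr h1)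

include hp in
theorem reg_exit {v : V} (hv : v ∈ Λ.reg n) :
    ∃ m, (p^[m + 1] v = Λ.vx x ∨ p^[m + 1] v = Λ.vx y ∨ p^[m + 1] v ∈ Λ.mset n) ∧
      p^[m + 1] v ∉ Λ.reg n ∧ ∀ j ≤ m, p^[j] v ∈ Λ.reg n := by
  have hρ : Λ.vx (.tau 0) ∉ Λ.reg n := by
    rintro ⟨b, hb⟩
    rw [Λ.lab_vx _ (Nat.zero_le _)] at hb
    simp at hb
  obtain ⟨m, h1, h2⟩ := exit hp hρ hv
  exact ⟨m, reg_adj hn hx hx' hy hy' hxo hyo (h2 m le_rfl) h1 (exit_adj hp hρ h2), h1, h2⟩

include hp hN in
/-- the conclusion of the gadget -/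
theorem gad_concl (h0 : Near p t (Λ.vx x) (Λ.vx y)) (hk : kk t n ≤ t)
    (h1 : p (Λ.vx x) ∉ Λ.reg n) (h2 : p (Λ.vx y) ∉ Λ.reg n) (h3 : ∀ m ∈ Λ.mset n, p m ∉ Λ.reg n) :
    ∃ a i j, (a = Λ.vx x ∨ a ∈ Λ.mset n) ∧ i + j + kk t n ≤ t ∧ p^[i] a = p^[j] (Λ.vx y) := by
  have hg := Λ.isGad hn hx hx' hy hy' hxo hyo
  obtain ⟨a, i, j, ha, hij, h⟩ := hg.near hk hp (fun b hb h => by
    have h4 := congrArg Λ.lab h
    rw [Λ.lab_cv hn hb, Λ.lab_vx _ (Nat.zero_le _)] at h4
    simp at h4) h0 (fun h u v hh hu hv => near_of_inc hN (n := .g n h) ⟨hn, hh⟩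
      (Λ.inc_of_mem_bag hn hx hy hxo hyo hh hu) (Λ.inc_of_mem_bag hn hx hy hxo hyo hh hv))
    (kk t n) [] (by simp) (by
      rw [Λ.sub_eq hn]
      rintro a (h4 | h4 | ⟨-, h4⟩)
      · have : a = Λ.vx x := h4
        rw [this]; exact h1
      · have : a = Λ.vx y := h4
        rw [this]; exact h2
      · exact h3 a h4)
  refine ⟨a, i, j, ?_, hij, h⟩
  rcases ha with h4 | ⟨-, h4⟩
  · exact Or.inl h4
  · exact Or.inr h4

end

end Layout

end

end Pool.Agent.Spanner
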