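import Pool.Agent.Lib_MP_b5064f_lc.Sound

set_option autoImplicit false

/-!
# A tree spanner gives a satisfying assignment, II
-/

namespace Pool.Agent.Spanner

open SimpleGraph

section

variable {t : ℕ} {I : Ins} {V : Type} {G : SimpleGraph V} {Λ : Layout t I G}

namespace Layout

theorem mset_z (i : ℕ) : ∀ m, m ∉ Λ.mset (.z i) := fun _ h => h

theorem mset_b (q : Cl) : ∀ m, m ∉ Λ.mset (.b q) := fun _ h => h

theorem mset_w (c : Cn) (e : Bool) : ∀ m, m ∉ Λ.mset (.w c e) := fun _ h => h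

theorem mset_a (q : Cl) {m : V} (h : m ∈ Λ.mset (.a q)) : m = Λ.vx (.mem q 2) := Λ.eq_vx h

variable (ht : 4 ≤ t) {p : V → V} {d : V → ℕ} (hp : IsParent G (Λ.vx (.tau 0)) p d)
  (hN : ∀ x y, G.Adj x y → Near p t x y)

include ht hp hN

/-- The path from `tau (i + 1)` to `tau i`. -/
theorem down (i : ℕ) (hi : i < t - 2) : ∃ n, p^[n + 1] (Λ.vx (.tau (i + 1))) = Λ.vx (.tau i) ∧
    ∀ j < n, p^[j + 1] (Λ.vx (.tau (i + 1))) ∈ Λ.reg (.z i) := by
  induction i with
  | zero =>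
    have hxp : p (Λ.vx (.tau 0)) ∉ Λ.reg (.z 0) ∧ p (Λ.vx (.tau 0)) ≠ Λ.vx (.tau 1) := by
      rw [hp.root]
      constructor
      · rintro ⟨b, hb⟩
        rw [Λ.lab_vx _ (Nat.zero_le _)] at hb
        simp at hb
      · intro h
        have := Λ.vx_inj (l := .tau 0) (l' := .tau 1) (Nat.zero_le _)
          (show 1 ≤ t - 2 by omega) h
        simp at this
    exact downStep ht hp hN 0 hi hxp
  | succ i ih =>
    obtain ⟨n, h1, h2⟩ := ih (by omega)
    refine downStep ht hp hN (i + 1) hi ?_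
    cases n with
    | zero =>
      have h1' : p (Λ.vx (.tau (i + 1))) = Λ.vx (.tau i) := h1
      rw [h1']
      constructor
      · rintro ⟨b, hb⟩
        rw [Λ.lab_vx (.tau i) (show i ≤ t - 2 by omega)] at hb
        simp at hb
      · intro h
        have := Λ.vx_inj (l := .tau i) (l' := .tau (i + 1 + 1)) (show i ≤ t - 2 by omega)
          (show i + 1 + 1 ≤ t - 2 by omega) h
        simp only [Vx.tau.injEq] at this
        omega
    | succ n =>
      obtain ⟨b, hb⟩ := h2 0 (by omega)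
      have hb' : Λ.lab (p (Λ.vx (.tau (i + 1)))) = .g (.z i) b := hb
      constructor
      · rintro ⟨b', hb2⟩
        rw [hb'] at hb2
        simp at hb2
      · intro h
        rw [h, Λ.lab_vx (.tau (i + 1 + 1)) (show i + 1 + 1 ≤ t - 2 by omega)] at hb'
        simp at hb'
where
  downStep {t : ℕ} {I : Ins} {V : Type} {G : SimpleGraph V} {Λ : Layout t I G}
      (ht : 4 ≤ t) {p : V → V} {d : V → ℕ} (hp : IsParent G (Λ.vx (.tau 0)) p d)
      (hN : ∀ x y, G.Adj x y → Near p t x y) (i : ℕ) (hi : i < t - 2)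
      (hxp : p (Λ.vx (.tau i)) ∉ Λ.reg (.z i) ∧ p (Λ.vx (.tau i)) ≠ Λ.vx (.tau (i + 1))) :
      ∃ n, p^[n + 1] (Λ.vx (.tau (i + 1))) = Λ.vx (.tau i) ∧
        ∀ j < n, p^[j + 1] (Λ.vx (.tau (i + 1))) ∈ Λ.reg (.z i) := by
    have hn : okG t I (.z i) := hi
    have hxo : okV t I (.tau i) := show i ≤ t - 2 by omega
    have hyo : okV t I (.tau (i + 1)) := show i + 1 ≤ t - 2 by omega
    have hne : Λ.vx (.tau (i + 1)) ≠ Λ.vx (.tau 0) := by
      intro h
      have := Λ.vx_inj hyo (Nat.zero_le _) h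
      simp at this
    by_cases hy : p (Λ.vx (.tau (i + 1))) ∈ Λ.reg (.z i)
    · obtain ⟨m, h1, -, h3⟩ := reg_exit hp hn (x := .tau i) (y := .tau (i + 1)) rfl
        (fun _ h => h) rfl (fun _ h => h) hxo hyo hy
      rw [← Function.iterate_succ_apply] at h1
      rcases h1 with h1 | h1 | h1
      · exact ⟨m + 1, h1, fun j hj => by
          rw [Function.iterate_succ_apply]
          exact h3 j (by omega)⟩
      · exact absurd h1 (iterate_ne hp hne _)
      · exact absurd h1 (Λ.mset_z i _)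
    · obtain ⟨a, i', j', h1, h2, h3⟩ := gad_concl hp hN hn (x := .tau i) (y := .tau (i + 1)) rfl
        (fun _ h => h) rfl (fun _ h => h) hxo hyo
        (near_of_inc hN (n := .q i) (show i ≤ t - 2 by omega)
          (by rw [Λ.lab_vx _ hxo]; exact Or.inr (Or.inl rfl))
          (by rw [Λ.lab_vx _ hyo]; exact Or.inr (Or.inr rfl)))
        (show t - 1 ≤ t by omega) hxp.1 hy (fun m hm => absurd hm (Λ.mset_z i m))
      have ha : a = Λ.vx (.tau i) := by
        rcases h1 with h | h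
        · exact h
        · exact absurd h (Λ.mset_z i _)
      subst ha
      have hk : kk t (.z i) = t - 1 := rfl
      rw [hk] at h2
      have hcases : (i' = 0 ∧ j' = 0) ∨ (i' = 0 ∧ j' = 1) ∨ (i' = 1 ∧ j' = 0) := by omega
      rcases hcases with ⟨rfl, rfl⟩ | ⟨rfl, rfl⟩ | ⟨rfl, rfl⟩
      · have := Λ.vx_inj hxo hyo h3
        simp at this
      · exact ⟨0, h3.symm, fun j hj => absurd hj (by omega)⟩
      · exact absurd h3 hxp.2

/-- The path from `tau i` to `tau 0`. -/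
theorem chain (i : ℕ) (hi : i ≤ t - 2) : ∃ n, i ≤ n ∧ p^[n] (Λ.vx (.tau i)) = Λ.vx (.tau 0) ∧
    ∀ j < n, p^[j] (Λ.vx (.tau i)) ∈ Λ.zset := by
  induction i with
  | zero => exact ⟨0, le_rfl, rfl, fun j hj => absurd hj (by omega)⟩
  | succ i ih =>
    obtain ⟨n, h1, h2, h3⟩ := ih (by omega)
    obtain ⟨m, h4, h5⟩ := down ht hp hN i (by omega)
    refine ⟨n + (m + 1), by omega, ?_, fun j hj => ?_⟩
    · rw [Function.iterate_add_apply, h4, h2]
    · by_cases hj' : j < m + 1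
      · cases j with
        | zero => exact Or.inl ⟨i, Λ.lab_vx _ hi⟩
        | succ j =>
          obtain ⟨b, hb⟩ := h5 j (by omega)
          exact Or.inr ⟨i, b, hb⟩
      · have : j = (j - (m + 1)) + (m + 1) := by omega
        rw [this, Function.iterate_add_apply, h4]
        exact h3 _ (by omega)

omit ht hp hN in
theorem root_not_zset : Λ.vx (.tau 0) ∉ Λ.zset := by
  rintro (⟨i, h⟩ | ⟨i, b, h⟩)
  · rw [Λ.lab_vx _ (Nat.zero_le _)] at h
    simp at h
  · rw [Λ.lab_vx _ (Nat.zero_le _)] at h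
    simp at h

/-- ancestors of `tau (t - 2)` -/
theorem tauAnc (j : ℕ) : (p^[j] (Λ.vx (.tau (t - 2))) ∈ Λ.zset ∨
      p^[j] (Λ.vx (.tau (t - 2))) = Λ.vx (.tau 0)) ∧
    (p^[j] (Λ.vx (.tau (t - 2))) = Λ.vx (.tau 0) → t - 2 ≤ j) := by
  obtain ⟨n, h1, h2, h3⟩ := chain ht hp hN (t - 2) le_rfl
  by_cases hj : j < n
  · refine ⟨Or.inl (h3 j hj), fun h => ?_⟩
    have h4 := h3 j hj
    rw [h] at h4
    exact absurd h4 (root_not_zset)
  · refine ⟨Or.inr ?_, fun _ => by omega⟩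
    have : j = (j - n) + n := by omega
    rw [this, Function.iterate_add_apply, h2]
    exact Function.iterate_fixed hp.root _

/-- The path from a member to one of the two centres. -/
theorem member {m : V} {q : Cl} {s : ℕ} (hm : Λ.lab m = .mem q s) :
    ∃ n ≤ 1, (p^[n + 1] m = Λ.vx (.tau 0) ∨ p^[n + 1] m = Λ.vx (.tau (t - 2))) ∧
      ∀ j ≤ n, p^[j] m ∉ Λ.zset ∧ p^[j] m ≠ Λ.vx (.tau 0) := by
  let S : Set V := {v | v ∉ Λ.zset ∧ v ≠ Λ.vx (.tau 0)}
  have hρ : Λ.vx (.tau 0) ∉ S := fun h => h.2 rfl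
  have hmz : m ∉ Λ.zset := by
    rintro (⟨i, h⟩ | ⟨i, b, h⟩) <;> rw [hm] at h <;> simp at h
  have hm0 : m ≠ Λ.vx (.tau 0) := by
    intro h
    rw [h, Λ.lab_vx _ (Nat.zero_le _)] at hm
    simp at hm
  have hmS : m ∈ S := ⟨hmz, hm0⟩
  obtain ⟨n, h1, h2⟩ := exit hp hρ hmS
  have hadj := exit_adj hp hρ h2
  have htau : Λ.lab (Λ.vx (.tau (t - 2))) = .tau (t - 2) := Λ.lab_vx _ le_rfl
  have hne : m ≠ Λ.vx (.tau (t - 2)) := by
    intro h
    rw [h, htau] at hm
    simp at hm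
  have hq : okN t I (.q (t - 2)) := le_refl (t - 2)
  have e : p^[n + 1] m = Λ.vx (.tau 0) ∨ p^[n + 1] m = Λ.vx (.tau (t - 2)) := by
    by_cases h3 : p^[n + 1] m ∈ Λ.zset
    · exact Or.inr (zset_adj (h2 n le_rfl).1 (h2 n le_rfl).2 h3 hadj)
    · left
      by_contra h4
      exact h1 ⟨h3, h4⟩
  refine ⟨n, ?_, e, fun j hj => h2 j hj⟩
  rcases e with e | e
  · have hnear : Near p t m (Λ.vx (.tau (t - 2))) :=
      near_of_inc hN (n := .q (t - 2)) hq (by rw [hm]; rfl)
        (by rw [htau]; exact Or.inr (Or.inl rfl))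
    obtain ⟨i, j, hij, h⟩ := hnear
    have hi : n + 1 ≤ i := by
      by_contra hcon
      have h3 := h2 i (by omega)
      rw [h] at h3
      rcases (tauAnc ht hp hN j).1 with h4 | h4
      · exact h3.1 h4
      · exact h3.2 h4
    have hi2 : p^[i] m = Λ.vx (.tau 0) := by
      have : i = (i - (n + 1)) + (n + 1) := by omega
      rw [this, Function.iterate_add_apply, e]
      exact Function.iterate_fixed hp.root _
    rw [hi2] at h
    have := (tauAnc ht hp hN j).2 h.symm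
    omega
  · have hnear : Near p t m (Λ.vx (.tau 0)) :=
      near_of_inc hN (n := .q (t - 2)) hq (by rw [hm]; rfl)
        (by rw [Λ.lab_vx _ (Nat.zero_le _)]; exact Or.inl rfl)
    obtain ⟨i, j, hij, h⟩ := hnear
    rw [Function.iterate_fixed hp.root] at h
    have hi : n + 1 ≤ i := by
      by_contra hcon
      exact (h2 i (by omega)).2 h
    have : i = (i - (n + 1)) + (n + 1) := by omega
    rw [this, Function.iterate_add_apply, e] at h
    have := (tauAnc ht hp hN _).2 h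
    omega

/-- the two centres -/
def Zc (Λ : Layout t I G) (v : V) : Prop := v = Λ.vx (.tau 0) ∨ v = Λ.vx (.tau (t - 2))

omit ht hp hN in
theorem Zc_lab {v : V} (h : Zc Λ v) : ∃ i, Λ.lab v = .tau i := by
  rcases h with rfl | rfl
  · exact ⟨0, Λ.lab_vx _ (Nat.zero_le _)⟩
  · exact ⟨t - 2, Λ.lab_vx _ le_rfl⟩

omit ht hp hN in
theorem not_Zc {v : V} {q : Cl} {s : ℕ} (h : Λ.lab v = .mem q s) : ¬ Zc Λ v := by
  intro h'
  obtain ⟨i, hi⟩ := Zc_lab h'
  rw [h] at hi
  simp at hi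

/-- The parent of a member is a centre, or a member whose parent is a centre. -/
theorem member' {m : V} {q : Cl} {s : ℕ} (hm : Λ.lab m = .mem q s) :
    Zc Λ (p m) ∨ (Zc Λ (p (p m)) ∧ ∃ q' s', Λ.lab (p m) = .mem q' s') := by
  obtain ⟨n, hn, h1, h2⟩ := member ht hp hN hm
  have hn' : n = 0 ∨ n = 1 := by omega
  rcases hn' with rfl | rfl
  · exact Or.inl h1
  · right
    have h1' : Zc Λ (p (p m)) := h1
    refine ⟨h1', ?_⟩
    have h3 := h2 1 le_rfl
    have h3' : p m ∉ Λ.zset ∧ p m ≠ Λ.vx (.tau 0) := h3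
    have hadj : G.Adj (p m) (p (p m)) := hp.adj _ h3'.2
    obtain ⟨i, hi⟩ := Zc_lab h1'
    exact tau_adj h3'.1 h3'.2 hi hadj

/-- Ancestors of centres are no members. -/
theorem centre {z : V} (hz : Zc Λ z) (j : ℕ) {q : Cl} {s : ℕ} : Λ.lab (p^[j] z) ≠ .mem q s := by
  intro h
  rcases hz with rfl | rfl
  · rw [Function.iterate_fixed hp.root, Λ.lab_vx _ (Nat.zero_le _)] at h
    simp at h
  · rcases (tauAnc ht hp hN j).1 with h1 | h1
    · rcases h1 with ⟨i, h2⟩ | ⟨i, b, h2⟩ <;> rw [h] at h2 <;> simp at h2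
    · rw [h1, Λ.lab_vx _ (Nat.zero_le _)] at h
      simp at h

/-- The parent of a member is not a vertex of a gadget or of a clause. -/
theorem member_parent {m : V} {q : Cl} {s : ℕ} (hm : Λ.lab m = .mem q s) :
    (∀ n b, Λ.lab (p m) ≠ .g n b) ∧ ∀ c, Λ.lab (p m) ≠ .w c := by
  rcases member' ht hp hN hm with h | ⟨-, q', s', h⟩
  · obtain ⟨i, hi⟩ := Zc_lab h
    rw [hi]
    simp
  · rw [h]
    simp

/-- The three occurrences of a variable. -/
theorem cluster' {q : Cl} (hq : q ∈ I.As) :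
    (Zc Λ (p (Λ.vx (.mem q 1))) → ¬ Zc Λ (p (Λ.vx (.mem q 0))) ∧
      ¬ Zc Λ (p (Λ.vx (.mem q 2)))) ∧
    ∀ s < 3, Zc Λ (p (Λ.vx (.mem q s))) ∨ ∃ s' < 3, p (Λ.vx (.mem q s)) = Λ.vx (.mem q s') := by
  have ok : ∀ s, s < 3 → okV t I (.mem q s) := fun s hs => ⟨hq, hs⟩
  have hl : ∀ s, s < 3 → Λ.lab (Λ.vx (.mem q s)) = .mem q s := fun s hs => Λ.lab_vx _ (ok s hs)
  have hne : ∀ s s', s < 3 → s' < 3 → s ≠ s' → Λ.vx (.mem q s) ≠ Λ.vx (.mem q s') := by
    intro s s' hs hs' hss h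
    have := Λ.vx_inj (ok s hs) (ok s' hs') h
    simp only [Vx.mem.injEq, true_and] at this
    exact hss this
  have hqn : okN t I (.q (t - 2)) := le_refl (t - 2)
  have hnear : ∀ s s', s < 3 → s' < 3 → Near p t (Λ.vx (.mem q s)) (Λ.vx (.mem q s')) := by
    intro s s' hs hs'
    exact near_of_inc hN (n := .q (t - 2)) hqn (by rw [hl s hs]; rfl) (by rw [hl s' hs']; rfl)
  have hout : ∀ s n, s < 3 → p (Λ.vx (.mem q s)) ∉ Λ.reg n := by
    rintro s n hs ⟨b, hb⟩
    exact (member_parent ht hp hN (hl s hs)).1 n b hb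
  have hA : p (Λ.vx (.mem q 1)) = Λ.vx (.mem q 0) ∨ p (Λ.vx (.mem q 0)) = Λ.vx (.mem q 1) ∨
      p (Λ.vx (.mem q 1)) = Λ.vx (.mem q 2) ∨ p (Λ.vx (.mem q 2)) = Λ.vx (.mem q 1) := by
    obtain ⟨a, i, j, ha, hij, h⟩ := gad_concl hp hN (n := .a q) hq (x := .mem q 0)
      (y := .mem q 1) rfl (fun _ h => h) rfl (fun _ h => h) (ok 0 (by omega)) (ok 1 (by omega))
      (hnear 0 1 (by omega) (by omega)) (show t - 1 ≤ t by omega) (hout 0 _ (by omega))
      (hout 1 _ (by omega)) (fun m hm => by rw [mset_a q hm]; exact hout 2 _ (by omega))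
    have hk : kk t (.a q) = t - 1 := rfl
    rw [hk] at hij
    have hcases : (i = 0 ∧ j = 0) ∨ (i = 0 ∧ j = 1) ∨ (i = 1 ∧ j = 0) := by omega
    rcases ha with rfl | ha
    · rcases hcases with ⟨rfl, rfl⟩ | ⟨rfl, rfl⟩ | ⟨rfl, rfl⟩
      · exact absurd h (hne 0 1 (by omega) (by omega) (by omega))
      · exact Or.inl h.symm
      · exact Or.inr (Or.inl h)
    · rw [mset_a q ha] at h
      rcases hcases with ⟨rfl, rfl⟩ | ⟨rfl, rfl⟩ | ⟨rfl, rfl⟩
      · exact absurd h (hne 2 1 (by omega) (by omega) (by omega))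
      · exact Or.inr (Or.inr (Or.inl h.symm))
      · exact Or.inr (Or.inr (Or.inr h))
  have hB : ∃ i j, i + j ≤ 2 ∧ p^[i] (Λ.vx (.mem q 0)) = p^[j] (Λ.vx (.mem q 2)) := by
    obtain ⟨a, i, j, ha, hij, h⟩ := gad_concl hp hN (n := .b q) hq (x := .mem q 0)
      (y := .mem q 2) rfl (fun _ h => h) rfl (fun _ h => h) (ok 0 (by omega)) (ok 2 (by omega))
      (hnear 0 2 (by omega) (by omega)) (show t - 2 ≤ t by omega) (hout 0 _ (by omega))
      (hout 2 _ (by omega)) (fun m hm => absurd hm (mset_b q m))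
    have hk : kk t (.b q) = t - 2 := rfl
    rw [hk] at hij
    rcases ha with rfl | ha
    · exact ⟨i, j, by omega, h⟩
    · exact absurd ha (mset_b q _)
  have key := cluster (p := p) (Z := Zc Λ) (u := Λ.vx (.mem q 0)) (v := Λ.vx (.mem q 1))
    (u' := Λ.vx (.mem q 2)) (hne 0 1 (by omega) (by omega) (by omega))
    (hne 0 2 (by omega) (by omega) (by omega)) (hne 1 2 (by omega) (by omega) (by omega))
    (not_Zc (hl 0 (by omega))) (not_Zc (hl 1 (by omega))) (not_Zc (hl 2 (by omega)))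
    (by
      rintro m (rfl | rfl | rfl)
      · rcases member' ht hp hN (hl 0 (by omega)) with h | h
        · exact Or.inl h
        · exact Or.inr h.1
      · rcases member' ht hp hN (hl 1 (by omega)) with h | h
        · exact Or.inl h
        · exact Or.inr h.1
      · rcases member' ht hp hN (hl 2 (by omega)) with h | h
        · exact Or.inl h
        · exact Or.inr h.1)
    (by
      intro z hz
      have h1 := fun (s : ℕ) => centre ht hp hN hz 1 (q := q) (s := s)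
      refine ⟨fun h => h1 0 ?_, fun h => h1 1 ?_, fun h => h1 2 ?_⟩
      · change Λ.lab (p z) = _
        rw [h, hl 0 (by omega)]
      · change Λ.lab (p z) = _
        rw [h, hl 1 (by omega)]
      · change Λ.lab (p z) = _
        rw [h, hl 2 (by omega)])
    hA hB
  refine ⟨key.1, fun s hs => ?_⟩
  have hs' : s = 0 ∨ s = 1 ∨ s = 2 := by omega
  have h1 := key.2 (Λ.vx (.mem q s)) (by
    rcases hs' with rfl | rfl | rfl
    · exact Or.inl rfl
    · exact Or.inr (Or.inl rfl)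
    · exact Or.inr (Or.inr rfl))
  rcases h1 with h1 | h1 | h1 | h1
  · exact Or.inl h1
  · exact Or.inr ⟨0, by omega, h1⟩
  · exact Or.inr ⟨1, by omega, h1⟩
  · exact Or.inr ⟨2, by omega, h1⟩

/-- the vertices of the branch of a clause -/
def creg (Λ : Layout t I G) (c : Cn) : Set V :=
  {v | Λ.lab v = .w c ∨ ∃ e b, Λ.lab v = .g (.w c e) b}

omit ht hp hN in
/-- The neighbours of the branch of a clause are its members. -/
theorem creg_adj {c : Cn} {z v : V} (hz : z ∈ creg Λ c) (hv : v ∉ creg Λ c) (h : G.Adj z v) :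
    ∃ q s pos, Λ.lab v = .mem q s ∧ I.loc q s = some (c, pos) := by
  obtain ⟨-, n, hn, h1, h2⟩ := (Λ.adj _ _).1 h
  have hgw : ∀ e b l, Inc t I (.g (.w c e) b) l → l = Λ.lab v →
      ∃ q s pos, Λ.lab v = .mem q s ∧ I.loc q s = some (c, pos) := by
    intro e b l h3 hl
    rcases h3 with h4 | ⟨w, h4, h5⟩ | ⟨w, h4, h5⟩ | ⟨h4, h5⟩ | ⟨h4, h5⟩ | ⟨h4, h5⟩
    · exact absurd (Or.inr ⟨e, b, by rw [← hl]; exact h4⟩) hv
    · exact absurd (Or.inr ⟨e, w, by rw [← hl]; exact h5⟩) hv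
    · exact absurd (Or.inr ⟨e, w, by rw [← hl]; exact h5⟩) hv
    · obtain ⟨q, s, h6, h7⟩ := h5
      exact ⟨q, s, _, by rw [← hl]; exact h6, h7⟩
    · exact absurd (Or.inl (by rw [← hl]; exact h5)) hv
    · exact h5.elim
  rcases hz with hz | ⟨e, b, hz⟩
  · rw [hz] at h1
    cases n with
    | q j => exact h1.elim
    | k c' =>
      have hc : c = c' := h1
      subst hc
      cases hl : Λ.lab v with
      | tau i => rw [hl] at h2; exact h2.elim
      | mem q s =>
        rw [hl] at h2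
        obtain ⟨pos, h3⟩ := h2
        exact ⟨q, s, pos, rfl, h3⟩
      | w c' =>
        rw [hl] at h2
        have : c' = c := h2
        subst this
        exact absurd (Or.inl hl) hv
      | g m b => rw [hl] at h2; exact h2.elim
    | g m b =>
      have hm : ∃ e, m = .w c e := by
        rcases h1 with h4 | ⟨w, h4, h5⟩ | ⟨w, h4, h5⟩ | ⟨h4, h5⟩ | ⟨h4, h5⟩ | ⟨h4, h5⟩
        · simp at h4
        · simp at h5
        · simp at h5
        · cases m <;> simp [isX] at h5
        · cases m with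
          | w c' e =>
            simp only [isY, Vx.w.injEq] at h5
            exact ⟨e, by rw [h5]⟩
          | _ => simp [isY] at h5
        · cases m <;> simp [isM] at h5
      obtain ⟨e, rfl⟩ := hm
      exact hgw e b _ h2 rfl
  · rw [hz] at h1
    obtain ⟨b', rfl, -⟩ := inc_g h1
    exact hgw e b' _ h2 rfl

/-- Every clause has a true member. -/
theorem clause (hI : I.Good) {c : Cn} (hc : c ∈ I.Cs) :
    ∃ q ∈ I.As, ∃ s < 3, ∃ pos, I.loc q s = some (c, pos) ∧ Zc Λ (p (Λ.vx (.mem q s))) := by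
  by_contra hcon
  push Not at hcon
  -- all members are false
  have hfalse : ∀ q ∈ I.As, ∀ s < 3, ∀ pos, I.loc q s = some (c, pos) →
      (∃ s' < 3, p (Λ.vx (.mem q s)) = Λ.vx (.mem q s')) ∧ Zc Λ (p (p (Λ.vx (.mem q s)))) := by
    intro q hq s hs pos h
    have h1 := hcon q hq s hs pos h
    refine ⟨((cluster' ht hp hN hq).2 s hs).resolve_left h1, ?_⟩
    exact ((member' ht hp hN (Λ.lab_vx _ ⟨hq, hs⟩)).resolve_left h1).1
  -- ancestors of a false member
  have hanc : ∀ q ∈ I.As, ∀ s < 3, ∀ pos, I.loc q s = some (c, pos) → ∀ j,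
      (j ≤ 1 ∧ ∃ s' < 3, Λ.lab (p^[j] (Λ.vx (.mem q s))) = .mem q s') ∨
        (2 ≤ j ∧ ∀ q' s', Λ.lab (p^[j] (Λ.vx (.mem q s))) ≠ .mem q' s') := by
    intro q hq s hs pos h j
    obtain ⟨⟨s', hs', h1⟩, h2⟩ := hfalse q hq s hs pos h
    by_cases hj : j ≤ 1
    · left
      refine ⟨hj, ?_⟩
      have hj' : j = 0 ∨ j = 1 := by omega
      rcases hj' with rfl | rfl
      · exact ⟨s, hs, Λ.lab_vx _ ⟨hq, hs⟩⟩
      · refine ⟨s', hs', ?_⟩
        change Λ.lab (p (Λ.vx (.mem q s))) = _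
        rw [h1, Λ.lab_vx (.mem q s') ⟨hq, hs'⟩]
    · right
      refine ⟨by omega, fun q' s' => ?_⟩
      have : j = (j - 2) + 2 := by omega
      rw [this, Function.iterate_add_apply]
      exact centre ht hp hN h2 _
  -- the branch of the clause
  have hρ : Λ.vx (.tau 0) ∉ creg Λ c := by
    rintro (h | ⟨e, b, h⟩) <;> rw [Λ.lab_vx _ (Nat.zero_le _)] at h <;> simp at h
  have hwl : Λ.lab (Λ.vx (.w c)) = .w c := Λ.lab_vx _ hc
  have hw0 : Λ.vx (.w c) ≠ Λ.vx (.tau 0) := by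
    intro h
    have := Λ.vx_inj (l := .w c) (l' := .tau 0) hc (Nat.zero_le _) h
    simp at this
  obtain ⟨n, hn1, hn2⟩ := exit hp hρ (show Λ.vx (.w c) ∈ creg Λ c from Or.inl hwl)
  obtain ⟨qe, se, pe, he1, he2⟩ := creg_adj (hn2 n le_rfl) hn1 (exit_adj hp hρ hn2)
  have heok : qe ∈ I.As ∧ se < 3 := by
    have := Λ.ok (p^[n + 1] (Λ.vx (.w c)))
    rw [he1] at this
    exact this
  have he3 : p^[n + 1] (Λ.vx (.w c)) = Λ.vx (.mem qe se) := Λ.eq_vx he1
  -- choose the other gadget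
  obtain ⟨e, q, hq, s, hs, hloc, hne⟩ : ∃ e : Bool, ∃ q ∈ I.As, ∃ s < 3,
      I.loc q s = some (c, if e then 1 else 0) ∧ (q, s) ≠ (qe, se) := by
    obtain ⟨q0, hq0, s0, hs0, hl0⟩ := hI.pos c hc false
    obtain ⟨q1, hq1, s1, hs1, hl1⟩ := hI.pos c hc true
    by_cases h : (q0, s0) = (qe, se)
    · refine ⟨true, q1, hq1, s1, hs1, hl1, fun h' => ?_⟩
      simp only [Prod.mk.injEq] at h h'
      rw [h.1, h.2, ← h'.1, ← h'.2, hl1] at hl0
      simp at hl0
    · exact ⟨false, q0, hq0, s0, hs0, hl0, h⟩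
  have hxo : okV t I (.mem q s) := ⟨hq, hs⟩
  have hxl : Λ.lab (Λ.vx (.mem q s)) = .mem q s := Λ.lab_vx _ hxo
  have hX' : ∀ l, isX I (.w c e) l → l = .mem q s := by
    rintro l ⟨q', s', rfl, h2⟩
    have := hI.inj _ _ _ _ _ h2 hloc
    rw [this.1, this.2]
  -- the members stay outside of the branch
  have hAtt : ∀ a ∈ {v : V | ∃ q s pos, Λ.lab v = .mem q s ∧ I.loc q s = some (c, pos)},
      p a ∉ creg Λ c := by
    rintro a ⟨q', s', pos, h1, -⟩ h2
    have h3 := member_parent ht hp hN h1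
    rcases h2 with h2 | ⟨e', b, h2⟩
    · exact h3.2 _ h2
    · exact h3.1 _ _ h2
  have hxnot : Λ.vx (.mem q s) ∉ creg Λ c := by
    rintro (h | ⟨e', b, h⟩) <;> rw [hxl] at h <;> simp at h
  have hstay := stays hp hρ (fun z hz v hv h => creg_adj hz hv h) hAtt hxnot
  have hwp : p (Λ.vx (.w c)) ∉ Λ.reg (.w c e) := by
    intro hmem
    obtain ⟨m, h1, h2, h3⟩ := reg_exit hp (n := .w c e) hc (x := .mem q s) (y := .w c)
      ⟨q, s, rfl, hloc⟩ hX' rfl (fun _ h => h) hxo hc hmem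
    rw [← Function.iterate_succ_apply] at h1
    rcases h1 with h1 | h1 | h1
    · -- then the exit of the branch is this member
      have h4 : n = m + 1 := by
        have h5 : n < m + 2 := by
          by_contra hcon2
          have := hn2 (m + 2) (by omega)
          rw [h1] at this
          exact hxnot this
        have h6 : m + 1 ≤ n := by
          by_contra hcon2
          apply hn1
          obtain ⟨b, hb⟩ := h3 n (by omega)
          rw [← Function.iterate_succ_apply] at hb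
          exact Or.inr ⟨e, b, hb⟩
        omega
      rw [Nat.succ_eq_add_one, ← h4, he3] at h1
      have := Λ.vx_inj (l := .mem qe se) (l' := .mem q s) heok hxo h1
      simp only [Vx.mem.injEq] at this
      exact hne (by rw [this.1, this.2])
    · exact absurd h1 (iterate_ne hp hw0 _)
    · exact absurd h1 (mset_w c e _)
  obtain ⟨a, i, j, ha, hij, h⟩ := gad_concl hp hN (n := .w c e) hc (x := .mem q s) (y := .w c)
    ⟨q, s, rfl, hloc⟩ hX' rfl (fun _ h => h) hxo hc
    (near_of_inc hN (n := .k c) hc (by rw [hxl]; exact ⟨_, hloc⟩) (by rw [hwl]; rfl))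
    (show t - 4 ≤ t by omega)
    (by
      rintro ⟨b, hb⟩
      exact (member_parent ht hp hN hxl).1 _ _ hb) hwp (fun m hm => absurd hm (mset_w c e m))
  have ha' : a = Λ.vx (.mem q s) := ha.resolve_right (fun h => mset_w c e _ h)
  subst ha'
  have hk : kk t (.w c e) = t - 4 := rfl
  rw [hk] at hij
  have hj : n + 1 ≤ j := by
    by_contra hcon2
    have h1 := hn2 j (by omega)
    rw [← h] at h1
    exact hstay i h1
  have hj2 : p^[j] (Λ.vx (.w c)) = p^[j - (n + 1)] (Λ.vx (.mem qe se)) := by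
    rw [← he3, ← Function.iterate_add_apply]
    congr 1
    omega
  rw [hj2] at h
  -- two false members of different variables have distance at least 4
  have h1 := hanc q hq s hs _ hloc i
  have h2 := hanc qe heok.1 se heok.2 _ he2 (j - (n + 1))
  rw [h] at h1
  rcases h1 with ⟨h3, s', hs', h4⟩ | ⟨h3, h4⟩
  · rcases h2 with ⟨h5, s'', hs'', h6⟩ | ⟨h5, h6⟩
    · rw [h4] at h6
      simp only [Vx.mem.injEq] at h6
      have h7 := h6.1
      subst h7
      have h8 := hI.ne _ _ _ _ _ _ hloc he2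
      exact hne (by rw [h8])
    · exact h6 _ _ h4
  · rcases h2 with ⟨h5, s'', hs'', h6⟩ | ⟨h5, h6⟩
    · exact h4 _ _ h6
    · omega

/-- Soundness of the reduction. -/
theorem sat_of_parent (hI : I.Good) : I.Sat := by
  classical
  refine ⟨fun q => decide (Zc Λ (p (Λ.vx (.mem q 1)))), fun c hc => ?_⟩
  obtain ⟨q, hq, s, hs, pos, h1, h2⟩ := clause ht hp hN hI hc
  refine ⟨q, hq, s, hs, pos, h1, ?_⟩
  unfold val
  by_cases hs1 : s = 1
  · subst hs1
    simp [h2]
  · rw [if_neg hs1]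
    have h3 : ¬ Zc Λ (p (Λ.vx (.mem q 1))) := by
      intro h4
      have h5 := (cluster' ht hp hN hq).1 h4
      have hs' : s = 0 ∨ s = 2 := by omega
      rcases hs' with rfl | rfl
      · exact h5.1 h2
      · exact h5.2 h2
    simp [h3]

end Layout

/-- Soundness of the reduction. -/
theorem sound [Finite V] (ht : 4 ≤ t) (hI : I.Good) (Λ : Layout t I G)
    (h : HasTreeSpanner G t) : I.Sat := by
  obtain ⟨p, d, hp, hN⟩ := (hasTreeSpanner_iff G t (Λ.vx (.tau 0))).1 h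
  exact Layout.sat_of_parent ht hp hN hI

end

end Pool.Agent.Spanner
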