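import Pool.Agent.Lib_MP_b5064f_lc.Enum
import Pool.Agent.Lib_MP_42fe4d_lc.CL.Hard

set_option autoImplicit false

/-!
# The formulas with many variables for a formula in conjunctive normal form
-/

namespace Pool.Agent.Spanner

open Pool.Agent.PartSep Pool.Agent.PartSep.TM

/-- an occurrence of a literal: its clause and its position, and the literal -/
abbrev Occ := (ℕ × ℕ) × (Name × Bool)

/-- the occurrence number `i` -/
def gt (O : List Occ) (i : ℕ) : Occ := O[i]?.getD ((0, 0), ([], true))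

/-- the occurrences `i` and `j` are opposite literals -/
def opp (O : List Occ) (i j : ℕ) : Bool :=
  decide ((gt O i).2.1 = (gt O j).2.1) && decide ((gt O i).2.2 ≠ (gt O j).2.2)

theorem opp_ne {O : List Occ} {i j : ℕ} (h : opp O i j = true) : i ≠ j := by
  rintro rfl
  simp [opp] at h

theorem opp_symm {O : List Occ} {i j : ℕ} (h : opp O i j = true) : opp O j i = true := by
  unfold opp at h ⊢
  simp only [Bool.and_eq_true, decide_eq_true_eq] at h ⊢
  exact ⟨h.1.symm, h.2.symm⟩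

/-- the variables: `(i, j)` is a copy of the literal of the occurrence `i` -/
def mkA (O : List Occ) : List Cl :=
  (List.range O.length).flatMap (fun i => (List.range O.length).map (fun j => (i, j)))

/-- the clauses of the formula -/
def mkC0 (n : ℕ) : List Cn := (List.range n).map (fun c => (0, c, 0))

/-- the implications between the copies -/
def mkC1 (O : List Occ) : List Cn :=
  (List.range O.length).flatMap (fun i => (List.range (O.length - 1)).map (fun j => (1, i, j)))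

/-- the pairs of opposite literals -/
def mkC2 (O : List Occ) : List Cn :=
  (List.range O.length).flatMap (fun i => (List.range O.length).flatMap (fun j =>
    if (decide (i < j) && opp O i j) = true then [(2, i, j)] else []))

/-- the positions of the occurrences of the variables -/
def mkLoc (O : List Occ) (q : Cl) (s : ℕ) : Option (Cn × ℕ) :=
  if q.1 < O.length ∧ q.2 < O.length then
    if s = 0 then (if q.2 + 1 < O.length then some ((1, q.1, q.2), 0) else none)
    else if s = 1 then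
      (if q.2 = 0 then some ((0, (gt O q.1).1.1, 0), (gt O q.1).1.2)
        else some ((1, q.1, q.2 - 1), 1))
    else if s = 2 then
      (if opp O q.1 q.2 = true then
        (if q.1 < q.2 then some ((2, q.1, q.2), 0) else some ((2, q.2, q.1), 1)) else none)
    else none
  else none

/-- the formula -/
def mkI (n : ℕ) (O : List Occ) : Ins :=
  ⟨mkA O, mkC0 n ++ (mkC1 O ++ mkC2 O), mkLoc O⟩

theorem mem_mkA {O : List Occ} {q : Cl} : q ∈ mkA O ↔ q.1 < O.length ∧ q.2 < O.length := by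
  unfold mkA
  rw [List.mem_flatMap]
  constructor
  · rintro ⟨i, hi, h⟩
    obtain ⟨j, hj, rfl⟩ := List.mem_map.1 h
    exact ⟨List.mem_range.1 hi, List.mem_range.1 hj⟩
  · rintro ⟨h1, h2⟩
    exact ⟨q.1, List.mem_range.2 h1, List.mem_map.2 ⟨q.2, List.mem_range.2 h2, rfl⟩⟩

theorem nodup_mkA (O : List Occ) : (mkA O).Nodup := by
  unfold mkA
  rw [List.nodup_flatMap]
  refine ⟨fun i _ => List.nodup_range.map (fun a b hab => by simpa using hab),
    List.nodup_range.imp (fun {i j} hij => ?_)⟩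
  intro x hx hx'
  obtain ⟨a, -, rfl⟩ := List.mem_map.1 hx
  obtain ⟨b, -, h⟩ := List.mem_map.1 hx'
  exact hij (congrArg Prod.fst h).symm

theorem mem_mkC0 {n : ℕ} {c : Cn} : c ∈ mkC0 n ↔ ∃ i < n, c = (0, i, 0) := by
  unfold mkC0
  rw [List.mem_map]
  constructor
  · rintro ⟨i, h, rfl⟩; exact ⟨i, List.mem_range.1 h, rfl⟩
  · rintro ⟨i, h, rfl⟩; exact ⟨i, List.mem_range.2 h, rfl⟩

theorem mem_mkC1 {O : List Occ} {c : Cn} :
    c ∈ mkC1 O ↔ ∃ i j, i < O.length ∧ j + 1 < O.length ∧ c = (1, i, j) := by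
  unfold mkC1
  rw [List.mem_flatMap]
  constructor
  · rintro ⟨i, hi, h⟩
    obtain ⟨j, hj, rfl⟩ := List.mem_map.1 h
    have h1 := List.mem_range.1 hi
    have h2 := List.mem_range.1 hj
    exact ⟨i, j, h1, by omega, rfl⟩
  · rintro ⟨i, j, h1, h2, rfl⟩
    exact ⟨i, List.mem_range.2 h1, List.mem_map.2 ⟨j, List.mem_range.2 (by omega), rfl⟩⟩

theorem mem_mkC2 {O : List Occ} {c : Cn} :
    c ∈ mkC2 O ↔ ∃ i j, i < j ∧ j < O.length ∧ opp O i j = true ∧ c = (2, i, j) := by
  unfold mkC2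
  rw [List.mem_flatMap]
  constructor
  · rintro ⟨i, hi, h⟩
    obtain ⟨j, hj, h⟩ := List.mem_flatMap.1 h
    split_ifs at h with h1
    · rw [List.mem_singleton] at h
      rw [Bool.and_eq_true, decide_eq_true_eq] at h1
      exact ⟨i, j, h1.1, List.mem_range.1 hj, h1.2, h⟩
    · simp at h
  · rintro ⟨i, j, h1, h2, h3, rfl⟩
    refine ⟨i, List.mem_range.2 (by omega), List.mem_flatMap.2 ⟨j, List.mem_range.2 h2, ?_⟩⟩
    rw [if_pos (by rw [Bool.and_eq_true, decide_eq_true_eq]; exact ⟨h1, h3⟩)]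
    exact List.mem_singleton.2 rfl

theorem nodup_mkC (n : ℕ) (O : List Occ) : (mkC0 n ++ (mkC1 O ++ mkC2 O)).Nodup := by
  rw [List.nodup_append, List.nodup_append]
  refine ⟨List.nodup_range.map (fun a b hab => by simpa using hab), ⟨?_, ?_, ?_⟩, ?_⟩
  · unfold mkC1
    rw [List.nodup_flatMap]
    refine ⟨fun i _ => List.nodup_range.map (fun a b hab => by simpa using hab),
      List.nodup_range.imp (fun {i j} hij => ?_)⟩
    intro x hx hx'
    obtain ⟨a, -, rfl⟩ := List.mem_map.1 hx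
    obtain ⟨b, -, h⟩ := List.mem_map.1 hx'
    simp only [Prod.mk.injEq] at h
    exact hij h.2.1.symm
  · unfold mkC2
    rw [List.nodup_flatMap]
    refine ⟨fun i _ => ?_, List.nodup_range.imp (fun {i j} hij => ?_)⟩
    · rw [List.nodup_flatMap]
      refine ⟨fun j _ => ?_, List.nodup_range.imp (fun {j k} hjk => ?_)⟩
      · split_ifs <;> simp
      · intro x hx hx'
        beta_reduce at hx hx'
        split_ifs at hx hx' <;> simp only [List.mem_singleton, List.not_mem_nil] at hx hx'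
        rw [hx] at hx'
        simp only [Prod.mk.injEq] at hx'
        exact hjk hx'.2.2
    · intro x hx hx'
      obtain ⟨a, -, hx⟩ := List.mem_flatMap.1 hx
      obtain ⟨b, -, hx'⟩ := List.mem_flatMap.1 hx'
      beta_reduce at hx hx'
      split_ifs at hx hx' <;> simp only [List.mem_singleton, List.not_mem_nil] at hx hx'
      rw [hx] at hx'
      simp only [Prod.mk.injEq] at hx'
      exact hij hx'.2.1
  · intro x hx y hy hxy
    obtain ⟨i, j, -, -, rfl⟩ := mem_mkC1.1 hx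
    obtain ⟨i', j', -, -, -, rfl⟩ := mem_mkC2.1 hy
    simp at hxy
  · intro x hx y hy hxy
    obtain ⟨i, -, rfl⟩ := mem_mkC0.1 hx
    rcases List.mem_append.1 hy with hy | hy
    · obtain ⟨i', j', -, -, rfl⟩ := mem_mkC1.1 hy
      simp at hxy
    · obtain ⟨i', j', -, -, -, rfl⟩ := mem_mkC2.1 hy
      simp at hxy

theorem loc_cases {O : List Occ} {q : Cl} {s : ℕ} {c : Cn} {pos : ℕ}
    (h : mkLoc O q s = some (c, pos)) :
    (q.1 < O.length ∧ q.2 < O.length) ∧
      ((s = 0 ∧ q.2 + 1 < O.length ∧ c = (1, q.1, q.2) ∧ pos = 0) ∨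
       (s = 1 ∧ q.2 = 0 ∧ c = (0, (gt O q.1).1.1, 0) ∧ pos = (gt O q.1).1.2) ∨
       (s = 1 ∧ 0 < q.2 ∧ c = (1, q.1, q.2 - 1) ∧ pos = 1) ∨
       (s = 2 ∧ opp O q.1 q.2 = true ∧ q.1 < q.2 ∧ c = (2, q.1, q.2) ∧ pos = 0) ∨
       (s = 2 ∧ opp O q.1 q.2 = true ∧ q.2 < q.1 ∧ c = (2, q.2, q.1) ∧ pos = 1)) := by
  unfold mkLoc at h
  split_ifs at h with h1 h2 h3 h4 h5 h6 h7 h8
  · simp only [Option.some.injEq, Prod.mk.injEq] at h
    exact ⟨h1, Or.inl ⟨h2, h3, h.1.symm, h.2.symm⟩⟩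
  · simp only [Option.some.injEq, Prod.mk.injEq] at h
    exact ⟨h1, Or.inr (Or.inl ⟨h4, h5, h.1.symm, h.2.symm⟩)⟩
  · simp only [Option.some.injEq, Prod.mk.injEq] at h
    exact ⟨h1, Or.inr (Or.inr (Or.inl ⟨h4, by omega, h.1.symm, h.2.symm⟩))⟩
  · simp only [Option.some.injEq, Prod.mk.injEq] at h
    exact ⟨h1, Or.inr (Or.inr (Or.inr (Or.inl ⟨h6, h7, h8, h.1.symm, h.2.symm⟩)))⟩
  · simp only [Option.some.injEq, Prod.mk.injEq] at h
    have := opp_ne h7
    exact ⟨h1, Or.inr (Or.inr (Or.inr (Or.inr ⟨h6, h7, by omega, h.1.symm, h.2.symm⟩)))⟩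

theorem loc_0 {O : List Occ} {q : Cl} (h1 : q.1 < O.length) (h2 : q.2 + 1 < O.length) :
    mkLoc O q 0 = some ((1, q.1, q.2), 0) := by
  unfold mkLoc
  rw [if_pos ⟨h1, by omega⟩, if_pos rfl, if_pos h2]

theorem loc_1 {O : List Occ} {i : ℕ} (h1 : i < O.length) :
    mkLoc O (i, 0) 1 = some ((0, (gt O i).1.1, 0), (gt O i).1.2) := by
  unfold mkLoc
  rw [if_pos ⟨h1, by show 0 < O.length; omega⟩, if_neg one_ne_zero, if_pos rfl, if_pos rfl]

theorem loc_1' {O : List Occ} {i j : ℕ} (h1 : i < O.length) (h2 : j + 1 < O.length) :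
    mkLoc O (i, j + 1) 1 = some ((1, i, j), 1) := by
  unfold mkLoc
  rw [if_pos ⟨h1, h2⟩, if_neg one_ne_zero, if_pos rfl, if_neg (Nat.succ_ne_zero j)]
  rfl

theorem loc_2 {O : List Occ} {i j : ℕ} (h1 : i < j) (h2 : j < O.length) (h3 : opp O i j = true) :
    mkLoc O (i, j) 2 = some ((2, i, j), 0) := by
  unfold mkLoc
  rw [if_pos ⟨by show i < O.length; omega, h2⟩, if_neg (by norm_num), if_neg (by norm_num),
    if_pos rfl, if_pos h3, if_pos h1]

theorem loc_2' {O : List Occ} {i j : ℕ} (h1 : i < j) (h2 : j < O.length) (h3 : opp O i j = true) :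
    mkLoc O (j, i) 2 = some ((2, i, j), 1) := by
  unfold mkLoc
  rw [if_pos ⟨h2, by show i < O.length; omega⟩, if_neg (by norm_num), if_neg (by norm_num),
    if_pos rfl, if_pos (opp_symm h3), if_neg (by show ¬ (j < i); omega)]

/-- The list of the occurrences of a formula with `n` clauses. -/
structure IsOcc (n : ℕ) (O : List Occ) : Prop where
  lt : ∀ i < O.length, (gt O i).1.1 < n
  inj : ∀ i < O.length, ∀ j < O.length, (gt O i).1 = (gt O j).1 → i = j
  two : ∀ c < n, ∀ e < 2, ∃ i < O.length, (gt O i).1 = (c, e)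

/-- satisfiability in terms of the occurrences -/
def OSat (n : ℕ) (O : List Occ) : Prop :=
  ∃ τ : Name → Bool, ∀ c < n, ∃ i < O.length, (gt O i).1.1 = c ∧ τ (gt O i).2.1 = (gt O i).2.2

theorem good_mkI {n : ℕ} {O : List Occ} (hO : IsOcc n O) : (mkI n O).Good := by
  refine ⟨?_, ?_, ?_, ?_⟩
  · intro q _ s c pos h
    change c ∈ mkC0 n ++ (mkC1 O ++ mkC2 O)
    rw [List.mem_append, List.mem_append, mem_mkC0, mem_mkC1, mem_mkC2]
    obtain ⟨⟨h1, h2⟩, h | h | h | h | h⟩ := loc_cases h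
    · exact Or.inr (Or.inl ⟨_, _, h1, h.2.1, h.2.2.1⟩)
    · exact Or.inl ⟨_, hO.lt _ h1, h.2.2.1⟩
    · exact Or.inr (Or.inl ⟨_, _, h1, by omega, h.2.2.1⟩)
    · exact Or.inr (Or.inr ⟨_, _, h.2.2.1, h2, h.2.1, h.2.2.2.1⟩)
    · exact Or.inr (Or.inr ⟨_, _, h.2.2.1, h1, opp_symm h.2.1, h.2.2.2.1⟩)
  · rintro ⟨i, j⟩ s ⟨i', j'⟩ s' ⟨c, pos⟩ h h'
    obtain ⟨⟨h1, h2⟩, h⟩ := loc_cases h
    obtain ⟨⟨h1', h2'⟩, h'⟩ := loc_cases h'
    rcases h with ⟨rfl, a1, a2, a3⟩ | ⟨rfl, a1, a2, a3⟩ | ⟨rfl, a1, a2, a3⟩ |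
        ⟨rfl, a0, a1, a2, a3⟩ | ⟨rfl, a0, a1, a2, a3⟩ <;>
      rcases h' with ⟨rfl, b1, b2, b3⟩ | ⟨rfl, b1, b2, b3⟩ | ⟨rfl, b1, b2, b3⟩ |
        ⟨rfl, b0, b1, b2, b3⟩ | ⟨rfl, b0, b1, b2, b3⟩ <;>
      rw [a2] at b2 <;>
      simp only [Prod.mk.injEq, true_and, and_true] at b2 a1 b1 a3 b3 h1 h2 h1' h2' ⊢
    all_goals try omega
    · have := hO.inj i h1 i' h1' (Prod.ext b2 (by rw [← a3, ← b3]))
      omega
  · intro c hc e
    change c ∈ mkC0 n ++ (mkC1 O ++ mkC2 O) at hc
    rw [List.mem_append, List.mem_append, mem_mkC0, mem_mkC1, mem_mkC2] at hc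
    rcases hc with ⟨i, h1, rfl⟩ | ⟨i, j, h1, h2, rfl⟩ | ⟨i, j, h1, h2, h3, rfl⟩
    · obtain ⟨k, h2, h3⟩ := hO.two i h1 (if e then 1 else 0) (by split_ifs <;> norm_num)
      refine ⟨(k, 0), mem_mkA.2 ⟨h2, by show 0 < O.length; omega⟩, 1, by norm_num, ?_⟩
      change mkLoc O (k, 0) 1 = _
      rw [loc_1 h2, h3]
    · cases e with
      | false =>
        exact ⟨(i, j), mem_mkA.2 ⟨h1, by show j < O.length; omega⟩, 0, by norm_num,
          loc_0 (q := (i, j)) h1 h2⟩
      | true =>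
        exact ⟨(i, j + 1), mem_mkA.2 ⟨h1, h2⟩, 1, by norm_num, loc_1' h1 h2⟩
    · cases e with
      | false =>
        exact ⟨(i, j), mem_mkA.2 ⟨by show i < O.length; omega, h2⟩, 2, by norm_num,
          loc_2 h1 h2 h3⟩
      | true =>
        exact ⟨(j, i), mem_mkA.2 ⟨h2, by show i < O.length; omega⟩, 2, by norm_num,
          loc_2' h1 h2 h3⟩
  · rintro ⟨i, j⟩ s s' c pos pos' h h'
    obtain ⟨⟨h1, h2⟩, h⟩ := loc_cases h
    obtain ⟨⟨h1', h2'⟩, h'⟩ := loc_cases h'
    rcases h with ⟨rfl, a1, a2, a3⟩ | ⟨rfl, a1, a2, a3⟩ | ⟨rfl, a1, a2, a3⟩ |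
        ⟨rfl, a0, a1, a2, a3⟩ | ⟨rfl, a0, a1, a2, a3⟩ <;>
      rcases h' with ⟨rfl, b1, b2, b3⟩ | ⟨rfl, b1, b2, b3⟩ | ⟨rfl, b1, b2, b3⟩ |
        ⟨rfl, b0, b1, b2, b3⟩ | ⟨rfl, b0, b1, b2, b3⟩ <;>
      rw [a2] at b2 <;>
      simp only [Prod.mk.injEq, true_and, and_true] at b2 a1 b1 h1 h2 h1' h2' ⊢
    all_goals omega

theorem sat_mkI {n : ℕ} {O : List Occ} (hO : IsOcc n O) : (mkI n O).Sat ↔ OSat n O := by
  constructor
  · rintro ⟨σ, hσ⟩
    -- the implications
    have hstep : ∀ i < O.length, ∀ j, j + 1 < O.length → σ (i, j) = true →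
        σ (i, j + 1) = true := by
      intro i hi j hj h
      obtain ⟨q, -, s, -, pos, h1, h2⟩ := hσ (1, i, j) (by
        change _ ∈ mkC0 n ++ (mkC1 O ++ mkC2 O)
        rw [List.mem_append, List.mem_append]
        exact Or.inr (Or.inl (mem_mkC1.2 ⟨i, j, hi, hj, rfl⟩)))
      obtain ⟨⟨h3, h4⟩, h5⟩ := loc_cases h1
      rcases h5 with ⟨rfl, a1, a2, a3⟩ | ⟨rfl, a1, a2, a3⟩ | ⟨rfl, a1, a2, a3⟩ |
        ⟨rfl, a0, a1, a2, a3⟩ | ⟨rfl, a0, a1, a2, a3⟩ <;> simp only [Prod.mk.injEq] at a2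
      · have : q = (i, j) := Prod.ext a2.2.1.symm a2.2.2.symm
        rw [this] at h2
        simp [val, h] at h2
      · omega
      · have : q = (i, j + 1) := Prod.ext a2.2.1.symm (by omega)
        rw [this] at h2
        simpa [val] using h2
      · omega
      · omega
    have hall : ∀ i < O.length, ∀ j < O.length, σ (i, 0) = true → σ (i, j) = true := by
      intro i hi j
      induction j with
      | zero => exact fun _ h => h
      | succ j ih => exact fun hj h => hstep i hi j hj (ih (by omega) h)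
    have hopp' : ∀ i j, i < j → j < O.length → opp O i j = true → σ (i, 0) = true →
        σ (j, 0) = true → False := by
      intro i j hij hj ho h h'
      obtain ⟨q, -, s, -, pos, h1, h2⟩ := hσ (2, i, j) (by
        change _ ∈ mkC0 n ++ (mkC1 O ++ mkC2 O)
        rw [List.mem_append, List.mem_append]
        exact Or.inr (Or.inr (mem_mkC2.2 ⟨i, j, hij, hj, ho, rfl⟩)))
      obtain ⟨⟨h3, h4⟩, h5⟩ := loc_cases h1
      rcases h5 with ⟨rfl, a1, a2, a3⟩ | ⟨rfl, a1, a2, a3⟩ | ⟨rfl, a1, a2, a3⟩ |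
        ⟨rfl, a0, a1, a2, a3⟩ | ⟨rfl, a0, a1, a2, a3⟩ <;> simp only [Prod.mk.injEq] at a2
      · omega
      · omega
      · omega
      · have : q = (i, j) := Prod.ext a2.2.1.symm a2.2.2.symm
        rw [this] at h2
        simp [val, hall i (by omega) j hj h] at h2
      · have : q = (j, i) := Prod.ext a2.2.2.symm a2.2.1.symm
        rw [this] at h2
        simp [val, hall j hj i (by omega) h'] at h2
    have hopp : ∀ i < O.length, ∀ j < O.length, opp O i j = true → σ (i, 0) = true →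
        σ (j, 0) = true → False := by
      intro i hi j hj ho h h'
      rcases lt_or_gt_of_ne (opp_ne ho) with h1 | h1
      · exact hopp' i j h1 hj ho h h'
      · exact hopp' j i h1 hi (opp_symm ho) h' h
    classical
    refine ⟨fun x => decide (∃ i < O.length, (gt O i).2 = (x, true) ∧ σ (i, 0) = true), ?_⟩
    intro c hc
    obtain ⟨q, -, s, -, pos, h1, h2⟩ := hσ (0, c, 0) (by
      change _ ∈ mkC0 n ++ (mkC1 O ++ mkC2 O)
      rw [List.mem_append, List.mem_append]
      exact Or.inl (mem_mkC0.2 ⟨c, hc, rfl⟩))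
    obtain ⟨⟨h3, h4⟩, h5⟩ := loc_cases h1
    rcases h5 with ⟨rfl, a1, a2, a3⟩ | ⟨rfl, a1, a2, a3⟩ | ⟨rfl, a1, a2, a3⟩ |
      ⟨rfl, a0, a1, a2, a3⟩ | ⟨rfl, a0, a1, a2, a3⟩ <;> simp only [Prod.mk.injEq] at a2
    · omega
    · refine ⟨q.1, h3, a2.2.1.symm, ?_⟩
      have hq : q = (q.1, 0) := Prod.ext rfl a1
      rw [hq] at h2
      have h6 : σ (q.1, 0) = true := by simpa [val] using h2
      cases hb : (gt O q.1).2.2 with
      | true => exact decide_eq_true ⟨q.1, h3, Prod.ext rfl hb, h6⟩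
      | false =>
        apply decide_eq_false
        rintro ⟨i, hi, h7, h8⟩
        refine hopp i hi q.1 h3 ?_ h8 h6
        unfold opp
        simp [h7, hb]
    · omega
    · omega
    · omega
  · rintro ⟨τ, hτ⟩
    refine ⟨fun q => decide (τ (gt O q.1).2.1 = (gt O q.1).2.2), ?_⟩
    intro c hc
    change c ∈ mkC0 n ++ (mkC1 O ++ mkC2 O) at hc
    rw [List.mem_append, List.mem_append, mem_mkC0, mem_mkC1, mem_mkC2] at hc
    rcases hc with ⟨i, h1, rfl⟩ | ⟨i, j, h1, h2, rfl⟩ | ⟨i, j, h1, h2, h3, rfl⟩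
    · obtain ⟨k, h2, h3, h4⟩ := hτ i h1
      refine ⟨(k, 0), mem_mkA.2 ⟨h2, by show 0 < O.length; omega⟩, 1, by norm_num,
        (gt O k).1.2, ?_, ?_⟩
      · change mkLoc O (k, 0) 1 = _
        rw [loc_1 h2, h3]
      · simp [val, h4]
    · by_cases h3 : τ (gt O i).2.1 = (gt O i).2.2
      · exact ⟨(i, j + 1), mem_mkA.2 ⟨h1, h2⟩, 1, by norm_num, _, loc_1' h1 h2,
          by simp [val, h3]⟩
      · exact ⟨(i, j), mem_mkA.2 ⟨h1, by show j < O.length; omega⟩, 0, by norm_num, _,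
          loc_0 (q := (i, j)) h1 h2, by simp [val, h3]⟩
    · by_cases h4 : τ (gt O i).2.1 = (gt O i).2.2
      · refine ⟨(j, i), mem_mkA.2 ⟨h2, by show i < O.length; omega⟩, 2, by norm_num, _,
          loc_2' h1 h2 h3, ?_⟩
        have h5 : ¬ (τ (gt O j).2.1 = (gt O j).2.2) := by
          unfold opp at h3
          simp only [Bool.and_eq_true, decide_eq_true_eq] at h3
          rw [← h3.1, h4]
          exact h3.2
        simp [val, h5]
      · exact ⟨(i, j), mem_mkA.2 ⟨by show i < O.length; omega, h2⟩, 2, by norm_num, _,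
          loc_2 h1 h2 h3, by simp [val, h4]⟩

/-! ### The occurrences of a formula -/

/-- the padded formula: every clause has at least two literals -/
def padF (φ : CNF Name) : CNF Name :=
  (rename (fun x => Sym.i :: x) φ).map (fun c => (([], true) : Name × Bool) :: ([], true) :: c) ++
    [[([], false), ([], false)]]

theorem sat_padF (φ : CNF Name) : (padF φ).Satisfiable ↔ φ.Satisfiable := by
  rw [← sat_rename (g := fun x : Name => (Sym.i :: x : Name)) (fun a b h => (List.cons.inj h).2) φ]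
  unfold padF
  generalize hψ : rename (fun x : Name => (Sym.i :: x : Name)) φ = ψ
  constructor
  · rintro ⟨τ, hτ⟩
    have h0 : τ [] = false := by
      obtain ⟨l, h1, h2⟩ := hτ [([], false), ([], false)] (by simp)
      simp only [List.mem_cons, List.not_mem_nil, or_false, or_self] at h1
      rw [h1] at h2
      exact h2
    refine ⟨τ, fun c hc => ?_⟩
    obtain ⟨l, h1, h2⟩ := hτ (([], true) :: ([], true) :: c)
      (List.mem_append_left _ (List.mem_map.2 ⟨c, hc, rfl⟩))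
    rw [List.mem_cons, List.mem_cons] at h1
    rcases h1 with rfl | rfl | h1
    · rw [h0] at h2; simp at h2
    · rw [h0] at h2; simp at h2
    · exact ⟨l, h1, h2⟩
  · rintro ⟨τ, hτ⟩
    refine ⟨fun x => if x = [] then false else τ x, fun d hd => ?_⟩
    rcases List.mem_append.1 hd with hc | hc
    · obtain ⟨c, hc', rfl⟩ := List.mem_map.1 hc
      obtain ⟨l, h1, h2⟩ := hτ c hc'
      refine ⟨l, List.mem_cons_of_mem _ (List.mem_cons_of_mem _ h1), ?_⟩
      have h3 : l.1 ≠ [] := by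
        rw [← hψ] at hc'
        obtain ⟨c', -, rfl⟩ := List.mem_map.1 hc'
        obtain ⟨l', -, rfl⟩ := List.mem_map.1 h1
        exact List.cons_ne_nil _ _
      simp only [h3, if_false]
      exact h2
    · rw [List.mem_singleton] at hc
      subst hc
      exact ⟨([], false), by simp, by simp⟩

theorem two_padF {φ : CNF Name} {c : List (Name × Bool)} (hc : c ∈ padF φ) : 2 ≤ c.length := by
  unfold padF at hc
  rcases List.mem_append.1 hc with hc | hc
  · obtain ⟨c, -, rfl⟩ := List.mem_map.1 hc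
    simp
  · rw [List.mem_singleton] at hc
    subst hc
    simp

/-- the list of the occurrences -/
def occs (φ : CNF Name) : List Occ :=
  (List.range φ.length).flatMap (fun i => (List.range (φ[i]?.getD []).length).map
    (fun k => ((i, k), (φ[i]?.getD [])[k]?.getD ([], true))))

theorem mem_occs {φ : CNF Name} {o : Occ} : o ∈ occs φ ↔
    o.1.1 < φ.length ∧ o.1.2 < (φ[o.1.1]?.getD []).length ∧
      o.2 = (φ[o.1.1]?.getD [])[o.1.2]?.getD ([], true) := by
  unfold occs
  rw [List.mem_flatMap]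
  constructor
  · rintro ⟨i, hi, h⟩
    obtain ⟨k, hk, rfl⟩ := List.mem_map.1 h
    exact ⟨List.mem_range.1 hi, List.mem_range.1 hk, rfl⟩
  · rintro ⟨h1, h2, h3⟩
    exact ⟨_, List.mem_range.2 h1, List.mem_map.2 ⟨_, List.mem_range.2 h2,
      Prod.ext rfl h3.symm⟩⟩

theorem gt_eq {O : List Occ} {i : ℕ} (h : i < O.length) : gt O i = O[i] := by
  unfold gt
  rw [List.getElem?_eq_getElem h, Option.getD_some]

theorem gt_mem {O : List Occ} {i : ℕ} (h : i < O.length) : gt O i ∈ O := by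
  rw [gt_eq h]
  exact List.getElem_mem h

theorem exists_gt {O : List Occ} {o : Occ} (h : o ∈ O) : ∃ i < O.length, gt O i = o := by
  obtain ⟨i, h1, h2⟩ := List.getElem_of_mem h
  exact ⟨i, h1, by rw [gt_eq h1, h2]⟩

theorem nodup_occs_fst (φ : CNF Name) : ((occs φ).map Prod.fst).Nodup := by
  unfold occs
  rw [List.map_flatMap, List.nodup_flatMap]
  refine ⟨fun i _ => ?_, List.nodup_range.imp (fun {i j} hij => ?_)⟩
  · rw [List.map_map]
    exact List.nodup_range.map (fun a b hab => by simpa using hab)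
  · intro x hx hx'
    obtain ⟨a, ha, rfl⟩ := List.mem_map.1 hx
    obtain ⟨a', -, rfl⟩ := List.mem_map.1 ha
    obtain ⟨b, hb, h⟩ := List.mem_map.1 hx'
    obtain ⟨b', -, rfl⟩ := List.mem_map.1 hb
    simp only [Prod.mk.injEq] at h
    exact hij h.1.symm

theorem isOcc_occs {φ : CNF Name} (h2 : ∀ c ∈ φ, 2 ≤ c.length) : IsOcc φ.length (occs φ) := by
  refine ⟨fun i hi => (mem_occs.1 (gt_mem hi)).1, fun i hi j hj h => ?_, fun ci hc e he => ?_⟩
  · rw [gt_eq hi, gt_eq hj] at h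
    have h1 : ((occs φ).map Prod.fst)[i]'(by rw [List.length_map]; exact hi) =
        ((occs φ).map Prod.fst)[j]'(by rw [List.length_map]; exact hj) := by
      rw [List.getElem_map, List.getElem_map]
      exact h
    exact (List.Nodup.getElem_inj_iff (nodup_occs_fst φ)).1 h1
  · have h3 : φ[ci]?.getD [] = φ[ci] := by rw [List.getElem?_eq_getElem hc, Option.getD_some]
    obtain ⟨i, h4, h5⟩ := exists_gt (O := occs φ) (o := ((ci, e), (φ[ci]?.getD [])[e]?.getD ([], true)))
      (mem_occs.2 ⟨hc, by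
        change e < (φ[ci]?.getD []).length
        rw [h3]
        have := h2 _ (List.getElem_mem hc)
        omega, rfl⟩)
    exact ⟨i, h4, by rw [h5]⟩

theorem osat_occs (φ : CNF Name) : OSat φ.length (occs φ) ↔ φ.Satisfiable := by
  refine exists_congr (fun τ => ?_)
  constructor
  · intro h c hc
    obtain ⟨i, hi, rfl⟩ := List.getElem_of_mem hc
    obtain ⟨k, h1, h2, h3⟩ := h i hi
    have h4 := mem_occs.1 (gt_mem h1)
    rw [h2] at h4
    have h5 : φ[i]?.getD [] = φ[i] := by rw [List.getElem?_eq_getElem hi, Option.getD_some]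
    rw [h5] at h4
    rw [List.getElem?_eq_getElem h4.2.1, Option.getD_some] at h4
    exact ⟨(gt (occs φ) k).2, by rw [h4.2.2]; exact List.getElem_mem _, h3⟩
  · intro h i hi
    obtain ⟨l, h1, h2⟩ := h _ (List.getElem_mem hi)
    obtain ⟨k, h3, h4⟩ := List.getElem_of_mem h1
    have h5 : φ[i]?.getD [] = φ[i] := by rw [List.getElem?_eq_getElem hi, Option.getD_some]
    obtain ⟨m, h6, h7⟩ := exists_gt (O := occs φ) (o := ((i, k), l)) (mem_occs.2 ⟨hi, by
      change k < (φ[i]?.getD []).length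
      rw [h5]; exact h3, by
      change l = (φ[i]?.getD [])[k]?.getD ([], true)
      rw [h5, List.getElem?_eq_getElem h3, Option.getD_some, h4]⟩)
    exact ⟨m, h6, by rw [h7], by rw [h7]; exact h2⟩

/-- the instance for a formula -/
def insOf (φ : CNF Name) : Ins := mkI (padF φ).length (occs (padF φ))

theorem good_insOf (φ : CNF Name) : (insOf φ).Good := good_mkI (isOcc_occs (fun _ h => two_padF h))

theorem sat_insOf (φ : CNF Name) : (insOf φ).Sat ↔ φ.Satisfiable := by
  rw [← sat_padF, ← osat_occs]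
  exact sat_mkI (isOcc_occs (fun _ h => two_padF h))

end Pool.Agent.Spanner
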